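import Pool.Agent.TH936.CM.Odb
import Pool.Agent.TH936.CW.Fin

/-!
# The order of vanishing at the centre is `O(log N(q))`, general weight

`θ` a primitive Hecke character of type `(2e + 1, 0)` and conductor `q`.
-/

set_option autoImplicit false

open Complex Filter Topology Set MeasureTheory

namespace Pool.Agent.TH936.CW

open Pool.Agent.W192.CY (VW Vk)
open Pool.Agent.W192.HK Pool.Agent.TH936.CM
open Pool.Agent.TH936.HK (summ_r ext_series norm_Wc Wc_ne)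
open Pool.Agent.TH936.NF (mellinKB)
open Pool.Agent.W283.HK.AFE0 (fib fib_fin exp_bd)

variable {R : Subring ℂ} {ω : ℂ}

/-- a point where all the series are large -/
lemma lower2 (e : ℕ) (a : ℕ → ℂ) {C : ℝ} (h1 : a 1 = 1) (h0 : a 0 = 0)
    (ha : ∀ n : ℕ, 1 ≤ n → ‖a n‖ ≤ C * (n : ℝ) ^ ((e : ℝ) + 3 / 2)) (σ : ℝ)
    (hσ : 5 / 2 ≤ σ)
    (h : C * (∑' n : ℕ, (n : ℝ) ^ (-(2 : ℝ))) * (2 : ℝ) ^ (5 / 2 - σ) ≤ 1 / 2) :
    1 / 2 ≤ ‖∑' n : ℕ, a n * (n : ℂ) ^ (-(((e : ℝ) + 1 + σ : ℝ) : ℂ))‖ := by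
  have h2 := lower1 (fun n => a n * (n : ℂ) ^ (-(e : ℂ))) (C := C) (by
    simp only [h1]
    simp) (by
    simp only [h0]
    simp) (fun n hn => by
    have hn0 : (0 : ℝ) < n := by exact_mod_cast hn
    rw [norm_mul, Complex.norm_natCast_cpow_of_pos hn]
    have e1 : (-(e : ℂ)).re = -(e : ℝ) := by simp
    rw [e1]
    calc ‖a n‖ * (n : ℝ) ^ (-(e : ℝ)) ≤ (C * (n : ℝ) ^ ((e : ℝ) + 3 / 2)) * (n : ℝ) ^ (-(e : ℝ)) :=
          mul_le_mul_of_nonneg_right (ha n hn) (by positivity)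
      _ = C * (n : ℝ) ^ (3 / 2 : ℝ) := by
          rw [mul_assoc, ← Real.rpow_add hn0]
          congr 2
          ring) σ hσ h
  refine h2.trans (le_of_eq ?_)
  congr 1
  refine tsum_congr fun n => ?_
  rcases Nat.eq_zero_or_pos n with rfl | hn
  · simp only [h0]
    simp
  · have hn0 : (n : ℂ) ≠ 0 := by exact_mod_cast hn.ne'
    rw [mul_assoc, ← Complex.cpow_add _ _ hn0]
    congr 2
    push_cast
    ring

/-- **The order of vanishing at the centre.** -/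
theorem ordK_le (h1 : H_BASIC) (h2 : H_FP) (h3 : H_CNT) (h4 : H_GAUSS) (h5 : H_THETA)
    (h6 : H_CLS) (hR : QR R ω) (e : ℕ) :
    ∃ K : ℝ, 0 < K ∧ ∀ (q : Ideal R) (θ : Ideal R → ℂ), HC (2 * e + 1) q θ →
      ∀ F : ℂ → ℂ, Differentiable ℂ F →
      (∀ z : ℂ, ((e + 1 : ℕ) : ℝ) + 1 / 2 < z.re →
        HasSum (fun I : Ideal R => θ I * (nm I : ℂ) ^ (-z)) (F z)) →
      analyticOrderAt F ((e + 1 : ℕ) : ℂ) ≠ ⊤ ∧
        (analyticOrderNatAt F ((e + 1 : ℕ) : ℂ) : ℝ) ≤ K * (1 + Real.log (nm q)) := by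
  classical
  obtain ⟨b1, b2, b3, b4, b5, b6, b7, -⟩ := h1 R ω hR
  obtain ⟨c1, c2, C, hC, c3, -⟩ := h3 R ω hR
  set N : Ideal R → ℕ := fun I => Nat.card (R ⧸ I) with hN
  have hNn : ∀ I : Ideal R, nm I = (N I : ℝ) := fun I => rfl
  have hNc : ∀ I : Ideal R, (nm I : ℂ) = (N I : ℂ) := fun I => by
    rw [hNn, Complex.ofReal_natCast]
  have hω := hR.im
  have hpi := Real.pi_pos
  have hS1 : ∀ σ : ℝ, 1 < σ → Summable (fun I : Ideal R => (N I : ℝ) ^ (-σ)) := fun σ hσ => c2 σ hσ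
  have hfib : ∀ n : ℕ, (N ⁻¹' {n}).Finite := by
    intro n
    refine (c1 n).subset ?_
    intro I hI
    have : N I = n := hI
    show nm I ≤ n
    rw [hNn, this]
  set Z : ℝ := ∑' n : ℕ, (n : ℝ) ^ (-(2 : ℝ)) with hZ
  -- the point
  obtain ⟨σ, hσ3, hσ2⟩ : ∃ σ : ℝ, 3 ≤ σ ∧ C * Z * (2 : ℝ) ^ (5 / 2 - σ) ≤ 1 / 2 := by
    have h1 : Tendsto (fun σ : ℝ => C * Z * (2 : ℝ) ^ (5 / 2 - σ)) atTop (𝓝 0) := by
      have h2 : Tendsto (fun σ : ℝ => (2 : ℝ) ^ (5 / 2 - σ)) atTop (𝓝 0) := by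
        have h3 : Tendsto (fun σ : ℝ => (5 / 2 : ℝ) - σ) atTop atBot :=
          tendsto_const_nhds.add_atBot tendsto_neg_atTop_atBot
        have h4 := tendsto_rpow_atBot_of_base_gt_one 2 (by norm_num : (1 : ℝ) < 2)
        exact h4.comp h3
      have := h2.const_mul (C * Z)
      rwa [mul_zero] at this
    have h2 := (h1.eventually (eventually_le_nhds (show (0 : ℝ) < 1 / 2 by norm_num))).and
      (eventually_ge_atTop 3)
    obtain ⟨σ, h3, h4⟩ := h2.exists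
    exact ⟨σ, h4, h3⟩
  have hσ : 5 / 2 ≤ σ := by linarith
  have hσ0 : 0 < σ := by linarith
  obtain ⟨K, hK, hmel⟩ := mellinKB (e + 1) (by omega) ((e : ℝ) + 3 / 2) C (2 * σ) (by positivity)
    (by positivity) (by push_cast; linarith)
  have hω1 := two_im hR
  have hlω : 0 ≤ Real.log (2 * ω.im) := Real.log_nonneg hω1
  set B : ℝ := |Real.log (2 * K)| + 2 * (2 * σ) * Real.log (2 * ω.im) + 2 * (2 * σ) with hB
  have hlog2 : 0 < Real.log 2 := Real.log_pos (by norm_num)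
  have hB0 : 0 < B := by
    have := abs_nonneg (Real.log (2 * K))
    rw [hB]; positivity
  refine ⟨B / Real.log 2, by positivity, fun q ψ hψ F hFd hFs => ?_⟩
  have hψ' : HC (2 * (e + 1) - 1) q ψ := hψ
  have hqt := hψ'.ne_top (by omega)
  have hq1 := b3 q hψ.ne
  have hsq1 : 1 ≤ Real.sqrt (nm q) := Real.one_le_sqrt.2 hq1
  have hsq : 0 < Real.sqrt (nm q) := by linarith
  obtain ⟨f1, -⟩ := h2 R ω hR _ q ψ hψ hqt
  obtain ⟨h, hh1, hpr, hsys⟩ := h6 R ω hR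
  obtain ⟨s, hh, μ, T, -, hS⟩ := hsys q hψ.ne
  have hW1 : ‖Wc ω (e + 1) q hh μ T ψ‖ = 1 := norm_Wc h1 h2 h4 hR (by omega) hψ' hS
  have hψ0 : ψ ⊥ = 0 := (hψ.zero ⊥).2 (Or.inl rfl)
  have hψ1 : ψ ⊤ = 1 := by
    have e1 := hψ.mul ⊤ ⊤
    rw [Ideal.mul_top] at e1
    have e2 : ψ ⊤ ≠ 0 := by
      intro h0
      rcases (hψ.zero ⊤).1 h0 with h | h
      · have := b7 (⊤ : Ideal R)
        have e3 := this.2 rfl
        rw [h, b2] at e3
        norm_num at e3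
      · apply h
        rw [Ideal.isCoprime_iff_sup_eq]
        exact top_sup_eq _
    exact (mul_right_cancel₀ e2 (by rw [one_mul]; exact e1)).symm
  have hfz : ∀ I, N I = 0 → ψ I = 0 := by
    intro I h0
    by_contra h
    have h6 : I ≠ ⊥ := fun h7 => h ((hψ.zero I).2 (Or.inl h7))
    have h7 := b3 I h6
    rw [hNn, h0] at h7
    norm_num at h7
  have hf1 : ∀ I, 1 ≤ N I → ‖ψ I‖ ≤ (N I : ℝ) ^ ((e : ℝ) + 1 / 2) := by
    intro I hI
    have hNI : (0 : ℝ) < N I := by exact_mod_cast hI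
    by_cases h : ψ I = 0
    · rw [h, norm_zero]
      positivity
    · have h6 : I ≠ ⊥ ∧ IsCoprime I q := by
        constructor
        · intro h7
          exact h ((hψ.zero I).2 (Or.inl h7))
        · by_contra h7
          exact h ((hψ.zero I).2 (Or.inr h7))
      have h7 := f1 I h6.1 h6.2
      rw [hNn] at h7
      have h8 : ((N I : ℝ) ^ ((e : ℝ) + 1 / 2)) ^ 2 = (N I : ℝ) ^ (2 * e + 1) := by
        rw [← Real.rpow_natCast ((N I : ℝ) ^ ((e : ℝ) + 1 / 2)) 2, ← Real.rpow_mul hNI.le,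
          ← Real.rpow_natCast (N I : ℝ) (2 * e + 1)]
        congr 1
        push_cast
        ring
      have h9 : ‖ψ I‖ ^ 2 ≤ ((N I : ℝ) ^ ((e : ℝ) + 1 / 2)) ^ 2 := by rw [h7, h8]
      exact le_of_sq_le_sq h9 (by positivity)
  have hcn : ∀ I, 1 ≤ N I → ‖(starRingEnd ℂ) (ψ I)‖ ≤ (N I : ℝ) ^ ((e : ℝ) + 1 / 2) := by
    intro I hI
    rw [RCLike.norm_conj]
    exact hf1 I hI
  have hfzc : ∀ I, N I = 0 → (starRingEnd ℂ) (ψ I) = 0 := by
    intro I hI
    rw [hfz I hI, map_zero]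
  set b : ℕ → ℂ := fun n => ∑' I : N ⁻¹' {n}, ψ I with hb
  have hbf : ∀ n, b n = ∑ I ∈ (hfib n).toFinset, ψ I := fun n => fib_fin (hfib n) ψ
  have hbc : ∀ n, ∑' I : N ⁻¹' {n}, (starRingEnd ℂ) (ψ I) = (starRingEnd ℂ) (b n) := by
    intro n
    rw [hbf, fib_fin (hfib n) (fun I => (starRingEnd ℂ) (ψ I)), map_sum]
  have hb0 : b 0 = 0 := by
    rw [hbf]
    refine Finset.sum_eq_zero fun I hI => ?_
    exact hfz I ((hfib 0).mem_toFinset.1 hI)
  have hb1 : b 1 = 1 := by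
    rw [hbf]
    have e1 : (hfib 1).toFinset = {(⊤ : Ideal R)} := by
      ext I
      rw [Set.Finite.mem_toFinset, Finset.mem_singleton]
      have e2 : nm I = 1 ↔ I = ⊤ := b7 I
      rw [hNn] at e2
      constructor
      · intro hI
        have : N I = 1 := hI
        exact e2.1 (by rw [this]; norm_num)
      · intro hI
        have := e2.2 hI
        show N I = 1
        exact_mod_cast this
    rw [e1, Finset.sum_singleton, hψ1]
  have hbn : ∀ n : ℕ, 1 ≤ n → ‖b n‖ ≤ C * (n : ℝ) ^ ((e : ℝ) + 3 / 2) := by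
    intro n hn
    have hn0 : (0 : ℝ) < n := by exact_mod_cast hn
    have hn1 : (1 : ℝ) ≤ n := by exact_mod_cast hn
    rw [hbf]
    refine (norm_sum_le _ _).trans ((Finset.sum_le_sum (g := fun _ => (n : ℝ) ^ ((e : ℝ) + 1 / 2))
      fun I hI => ?_).trans ?_)
    · have h6 : N I = n := (hfib n).mem_toFinset.1 hI
      have h7 := hf1 I (by rw [h6]; exact hn)
      rwa [h6] at h7
    · have e3 : (n : ℝ) ^ ((e : ℝ) + 3 / 2) = n * (n : ℝ) ^ ((e : ℝ) + 1 / 2) := by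
        rw [show (e : ℝ) + 3 / 2 = 1 + ((e : ℝ) + 1 / 2) by ring, Real.rpow_add hn0,
          Real.rpow_one]
      rw [Finset.sum_const, nsmul_eq_mul, ← Set.ncard_eq_toFinset_card (N ⁻¹' {n}) (hfib n),
        e3, ← mul_assoc]
      refine mul_le_mul_of_nonneg_right ?_ (by positivity)
      refine le_trans ?_ (c3 n hn1)
      have := Set.ncard_le_ncard (s := N ⁻¹' {n}) (t := {I : Ideal R | nm I ≤ (n : ℝ)}) (by
        intro I hI
        have h8 : N I = n := hI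
        show nm I ≤ n
        rw [hNn, h8]) (c1 n)
      exact_mod_cast this
  -- the theta function
  set Rp : ℝ := 2 * ω.im * Real.sqrt (nm q) with hRp
  have hRp0 : 0 < Rp := by positivity
  have hRp1 : 1 ≤ Rp := by rw [hRp]; nlinarith
  have hcoef : ∀ x : ℝ, Real.pi * x / (ω.im * Real.sqrt (nm q)) = 2 * Real.pi * x / Rp := by
    intro x
    rw [hRp]
    field_simp
  have hfe : ∀ t : ℝ, 0 < t → ∑' n : ℕ, b n * (Real.exp (-(2 * Real.pi * n / Rp) / t) : ℂ) =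
      Wc ω (e + 1) q hh μ T ψ * (t : ℂ) ^ (2 * (e + 1)) * ∑' n : ℕ,
        (starRingEnd ℂ) (b n) * (Real.exp (-(2 * Real.pi * n / Rp) * t) : ℂ) := by
    intro t ht
    have hth := h5 R ω hR (e + 1) (by omega) q ψ hψ' s hh μ T hS t ht
    have s1 := summ_r hS1 ((e : ℝ) + 1 / 2) ψ hfz hf1
      (fun n : ℕ => (Real.exp (-(2 * Real.pi * n / Rp) / t) : ℂ))
      (A := 1) (c := 2 * Real.pi / Rp / t) (by positivity) (by
        intro n _
        rw [Complex.norm_real, Real.norm_eq_abs, Real.abs_exp, one_mul]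
        refine le_of_eq ?_
        congr 1
        ring)
    have s2 := summ_r hS1 ((e : ℝ) + 1 / 2) (fun I => (starRingEnd ℂ) (ψ I)) hfzc hcn
      (fun n : ℕ => (Real.exp (-(2 * Real.pi * n / Rp) * t) : ℂ))
      (A := 1) (c := 2 * Real.pi / Rp * t) (by positivity) (by
        intro n _
        rw [Complex.norm_real, Real.norm_eq_abs, Real.abs_exp, one_mul]
        refine le_of_eq ?_
        congr 1
        ring)
    have e1 := fib (N := N) (f := ψ)
      (fun n : ℕ => (Real.exp (-(2 * Real.pi * n / Rp) / t) : ℂ)) s1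
    have e2 := fib (N := N) (f := fun I => (starRingEnd ℂ) (ψ I))
      (fun n : ℕ => (Real.exp (-(2 * Real.pi * n / Rp) * t) : ℂ)) s2
    simp only [hbc] at e2
    rw [← e2]
    refine (e1.symm.trans ?_).trans (hth.trans ?_)
    · refine tsum_congr fun I => ?_
      rw [hcoef, hNn I]
    · congr 1
      refine tsum_congr fun I => ?_
      rw [hcoef, hNn I]
  obtain ⟨G, hGd, hGs, -, hGb⟩ := hmel b Rp hRp1 hb0 hbn _ hW1 hfe
  -- `F = G`
  have hFG : F = G := by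
    refine entire_eq hFd hGd (e + 4) fun z hz => ?_
    rw [hGs z (by linarith)]
    have hzz : ((e + 1 : ℕ) : ℝ) + 1 / 2 < z.re := by push_cast; linarith
    have hsm := (hFs z hzz).summable
    have e4 := fib (N := N) (f := ψ) (fun n : ℕ => (n : ℂ) ^ (-z)) (by
      refine hsm.congr fun I => ?_
      rw [hNc])
    rw [← (hFs z hzz).tsum_eq, ← e4]
    refine tsum_congr fun I => ?_
    rw [hNc]
  have hlow : 1 / 2 ≤ ‖F (((e : ℝ) + 1 + σ : ℝ) : ℂ)‖ := by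
    rw [hFG, hGs _ (by rw [Complex.ofReal_re]; linarith)]
    exact lower2 e b hb1 hb0 hbn σ hσ hσ2
  refine ⟨?_, ?_⟩
  · intro htop
    have g1 : F =ᶠ[𝓝 ((e + 1 : ℕ) : ℂ)] 0 := analyticOrderAt_eq_top.1 htop
    have g2 : AnalyticOnNhd ℂ F univ := fun z _ => hFd.analyticAt z
    have g3 := g2.eqOn_zero_of_preconnected_of_eventuallyEq_zero isPreconnected_univ
      (mem_univ _) g1 (mem_univ (((e : ℝ) + 1 + σ : ℝ) : ℂ))
    rw [g3, Pi.zero_apply, norm_zero] at hlow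
    norm_num at hlow
  · set n := analyticOrderNatAt F ((e + 1 : ℕ) : ℂ) with hn
    have hz : ‖((((e : ℝ) + 1 + σ : ℝ) : ℂ)) - ((e + 1 : ℕ) : ℂ)‖ = σ := by
      push_cast
      rw [add_sub_cancel_left, Complex.norm_real, Real.norm_eq_abs, abs_of_pos hσ0]
    have g4 : ∀ z : ℂ, ‖z - ((e + 1 : ℕ) : ℂ)‖ ≤ 2 * σ → ‖F z‖ ≤ K * Rp ^ (2 * (2 * σ)) := by
      intro z hz
      rw [hFG]
      exact hGb z hz
    have h3 := Pool.Agent.TH940.order_bound F hFd ((e + 1 : ℕ) : ℂ)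
      ((((e : ℝ) + 1 + σ : ℝ) : ℂ)) (R := 2 * σ)
      (M := K * Rp ^ (2 * (2 * σ))) (by positivity) (by rw [hz]; linarith) g4
    rw [← hn, hz] at h3
    have h4 : σ / (2 * σ) = 1 / 2 := by field_simp
    rw [h4] at h3
    have h5 : 1 / 2 ≤ K * Rp ^ (2 * (2 * σ)) * (1 / 2) ^ n := hlow.trans h3
    have hRpp : 0 < Rp ^ (2 * (2 * σ)) := Real.rpow_pos_of_pos hRp0 _
    have h6 : (2 : ℝ) ^ n ≤ 2 * K * Rp ^ (2 * (2 * σ)) := by
      have h7 : (2 : ℝ) ^ n * (1 / 2) ^ n = 1 := by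
        rw [← mul_pow]; norm_num
      have h8 : 0 < (2 : ℝ) ^ n := by positivity
      calc (2 : ℝ) ^ n = 2 * ((2 : ℝ) ^ n * (1 / 2)) := by ring
        _ ≤ 2 * ((2 : ℝ) ^ n * (K * Rp ^ (2 * (2 * σ)) * (1 / 2) ^ n)) := by gcongr
        _ = 2 * K * Rp ^ (2 * (2 * σ)) * ((2 : ℝ) ^ n * (1 / 2) ^ n) := by ring
        _ = _ := by rw [h7, mul_one]
    have h10 := Real.log_le_log (by positivity) h6
    have hlq : 0 ≤ Real.log (nm q) := Real.log_nonneg hq1
    have e10 : Real.log (2 * K * Rp ^ (2 * (2 * σ))) =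
        Real.log (2 * K) + 2 * (2 * σ) * (Real.log (2 * ω.im) + Real.log (nm q) / 2) := by
      rw [Real.log_mul (by positivity) hRpp.ne', Real.log_rpow hRp0, hRp,
        Real.log_mul (by positivity) hsq.ne', Real.log_sqrt (by linarith)]
    rw [Real.log_pow, e10] at h10
    rw [div_mul_eq_mul_div, le_div_iff₀ hlog2]
    have h12 := le_abs_self (Real.log (2 * K))
    have h13 : 0 ≤ |Real.log (2 * K)| := abs_nonneg _
    refine h10.trans ?_
    rw [hB]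
    have h14 : 0 ≤ σ * Real.log (2 * ω.im) * Real.log (nm q) :=
      mul_nonneg (mul_nonneg hσ0.le hlω) hlq
    nlinarith [mul_nonneg h13 hlq, mul_nonneg hσ0.le hlq]

end Pool.Agent.TH936.CW
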