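import Pool.Agent.TH936.CW.Lat

/-!
# The regularized sum of a periodic function as a combination of values of elliptic expressions
-/

set_option autoImplicit false

open Filter
open scoped Topology PeriodPair

namespace Pool.Agent.TH936.CW

open H667R3 Pool.Agent.W192.HK Pool.Agent.TH936.CM


variable {L : PeriodPair} {R : Subring ℂ} {Ω p q : ℂ}

/-- the regularized sum -/
noncomputable def SK (e : ℕ) (c : R → ℂ) (δ : ℝ) : ℂ := ∑' α : R, c α * gd e δ (α : ℂ)

open Classical in
/-- the combination of values of elliptic expressions -/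
noncomputable def BB (L : PeriodPair) (p q : ℂ) (e : ℕ) (Ω : ℂ) (n k : ℕ)
    [Fintype (R ⧸ sp (n : R))] [Fintype (R ⧸ sp (k : R))] (c : R → ℂ) : ℂ :=
  ∑ x : R ⧸ sp (n : R), c x.out * ∑ y : R ⧸ sp (k : R),
    if y = 0 then 0 else Dk L p q e (Ω * x.out / n) (Ω * y.out / k)

lemma odd_sum {n : ℕ} [Fintype (R ⧸ sp (n : R))] (c : R → ℂ)
    (hc : ∀ a b : R, a - b ∈ sp (n : R) → c a = c b) (hodd : ∀ a, c (-a) = -c a) :
    ∑ x : R ⧸ sp (n : R), c x.out = 0 := by
  have h1 : ∑ x : R ⧸ sp (n : R), c x.out = -∑ x : R ⧸ sp (n : R), c x.out := by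
    conv_lhs => rw [← Equiv.sum_comp (Equiv.neg (R ⧸ sp (n : R))) (fun x => c x.out)]
    rw [← Finset.sum_neg_distrib]
    refine Finset.sum_congr rfl fun x _ => ?_
    rw [Equiv.neg_apply, ← hodd]
    refine hc _ _ ?_
    have := out_sub (sp (n : R)) (-x.out)
    rwa [map_neg, Ideal.Quotient.mk_out] at this
  linear_combination (1 / 2 : ℂ) * h1

theorem lim_B (hL : IsLat L R Ω) (hpq : ∀ l ∈ L.lattice, eta L l = p * l + q * (starRingEnd ℂ) l) (e : ℕ)
    {n k m : ℕ} (hn : 0 < n) (hk : k = n * m + 1)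
    [Fintype (R ⧸ sp (n : R))] [Fintype (R ⧸ sp (k : R))]
    (c : R → ℂ) (hc : ∀ a b : R, a - b ∈ sp (n : R) → c a = c b)
    (hc0 : ∀ a ∈ sp (n : R), c a = 0) (hc1 : ∀ a : R, ‖c a‖ ≤ 1)
    (hodd : ∀ a, c (-a) = -c a) :
    Tendsto (fun δ : ℝ => k * (kp e Ω n)⁻¹ * SK e c (δ / k ^ 2) -
      (Fintype.card (R ⧸ sp (k : R)) : ℂ) * (kp e Ω n)⁻¹ * SK e c δ) (𝓝[>] 0)
      (𝓝 ((1 / 2) * ((q ^ e)⁻¹ * BB L p q e Ω n k c))) := by
  classical
  have hk0 : 0 < k := by omega
  have hnC : (n : ℂ) ≠ 0 := by exact_mod_cast hn.ne'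
  have hkC : (k : ℂ) ≠ 0 := by exact_mod_cast hk0.ne'
  have hnR : (0 : ℝ) < n := by exact_mod_cast hn
  have hkR : (0 : ℝ) < k := by exact_mod_cast hk0
  have hΩ := hL.ne
  have hκ : kp e Ω n ≠ 0 := kp_ne hn hΩ
  have hΩn : 0 < Complex.normSq Ω := Complex.normSq_pos.2 hΩ
  set z : R ⧸ sp (n : R) → ℂ := fun q => Ω * q.out / n with hz
  set t : R ⧸ sp (k : R) → ℂ := fun p => Ω * p.out / k with ht
  have hcs : ∀ δ : ℝ, 0 < δ → Summable (fun α : R => c α * gd e δ (α : ℂ)) := by
    intro δ hδ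
    have h1 := summ_gd hL e 0 (δ := δ / Complex.normSq Ω) (by positivity)
    have h2 : Summable (fun α : R => ‖gd e δ (α : ℂ)‖) := by
      have h3 := (h1.mul_left (gg e ((starRingEnd ℂ) Ω⁻¹) Ω⁻¹)).norm
      refine h3.congr fun α => ?_
      have e : (α : ℂ) = Ω⁻¹ * (0 + Ω * α) := by field_simp; ring
      conv_rhs => rw [e, gd_mul, Complex.normSq_inv]
      rw [div_eq_mul_inv]
    refine Summable.of_norm_bounded h2 fun α => ?_
    rw [norm_mul]
    exact mul_le_of_le_one_left (norm_nonneg _) (hc1 α)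
  -- the exact identity
  have hid : ∀ δ : ℝ, 0 < δ → k * (kp e Ω n)⁻¹ * SK e c (δ / k ^ 2) -
      (Fintype.card (R ⧸ sp (k : R)) : ℂ) * (kp e Ω n)⁻¹ * SK e c δ =
      ∑ q : R ⧸ sp (n : R), c q.out * ∑ p : R ⧸ sp (k : R),
        ((1 / 2) * (EK R Ω e (δ * n ^ 2 / Complex.normSq Ω) (z q + t p) +
          EK R Ω e (δ * n ^ 2 / Complex.normSq Ω) (z q - t p) -
          2 * EK R Ω e (δ * n ^ 2 / Complex.normSq Ω) (z q))) := by
    intro δ hδ
    have hδk : 0 < δ / k ^ 2 := by positivity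
    set δ' : ℝ := δ * n ^ 2 / Complex.normSq Ω with hδ'
    have hδ'0 : 0 < δ' := by positivity
    have e1 : SK e c (δ / k ^ 2) = kp e Ω n * ∑ q : R ⧸ sp (n : R), c q.out *
        EK R Ω e (δ' / k ^ 2) (z q) := by
      unfold SK
      rw [sum_EK hL e n hn c hc (hcs _ hδk)]
      have : δ / k ^ 2 * n ^ 2 / Complex.normSq Ω = δ' / k ^ 2 := by
        rw [hδ']
        ring
      rw [this]
    have e2 : SK e c δ = kp e Ω n * ∑ q : R ⧸ sp (n : R), c q.out * EK R Ω e δ' (z q) := by
      unfold SK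
      rw [sum_EK hL e n hn c hc (hcs _ hδ)]
    have e3 : ∀ q, k * EK R Ω e (δ' / k ^ 2) (z q) = ∑ p, EK R Ω e δ' (z q + t p) := by
      intro q
      rw [EK_dist hL e hδ'0 k hk0 (z q)]
      congr 1
      refine (EK_per hL e _ ?_).symm
      have : k * z q - z q = Ω * (m * q.out : R) := by
        simp only [hz]
        rw [hk]
        push_cast
        field_simp
        ring
      rw [this]
      exact hL.mem_mul _
    have e4 : ∀ q, ∑ p, EK R Ω e δ' (z q + t p) = ∑ p, EK R Ω e δ' (z q - t p) := by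
      intro q
      rw [← Equiv.sum_comp (Equiv.neg (R ⧸ sp (k : R))) (fun p => EK R Ω e δ' (z q + t p))]
      refine Finset.sum_congr rfl fun p _ => ?_
      refine EK_per hL e _ ?_
      have h1 : (-p).out - (-p.out) ∈ sp (k : R) := by
        have := out_sub (sp (k : R)) (-p.out)
        rwa [map_neg, Ideal.Quotient.mk_out] at this
      have h2 := lat_sub hL hk0 h1
      have e : z q + t (-p) - (z q - t p) = Ω * ((-p).out : R) / k - Ω * ((-p.out : R) : ℂ) / k := by
        simp only [ht]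
        push_cast
        ring
      rw [Equiv.neg_apply, e]
      exact h2
    rw [e1, e2]
    have e5 : k * (kp e Ω n)⁻¹ * (kp e Ω n * ∑ q : R ⧸ sp (n : R), c q.out *
        EK R Ω e (δ' / k ^ 2) (z q)) - (Fintype.card (R ⧸ sp (k : R)) : ℂ) * (kp e Ω n)⁻¹ *
        (kp e Ω n * ∑ q : R ⧸ sp (n : R), c q.out * EK R Ω e δ' (z q)) =
        ∑ q : R ⧸ sp (n : R), c q.out * (k * EK R Ω e (δ' / k ^ 2) (z q) -
          (Fintype.card (R ⧸ sp (k : R)) : ℂ) * EK R Ω e δ' (z q)) := by
      simp only [mul_sub, Finset.sum_sub_distrib, Finset.mul_sum]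
      congr 1
      · refine Finset.sum_congr rfl fun q _ => ?_
        field_simp
      · refine Finset.sum_congr rfl fun q _ => ?_
        field_simp
    rw [e5]
    refine Finset.sum_congr rfl fun q _ => ?_
    congr 1
    rw [e3, ← Finset.mul_sum, Finset.sum_sub_distrib, Finset.sum_add_distrib, ← e4, ← Finset.mul_sum,
      Finset.sum_const, Finset.card_univ, nsmul_eq_mul]
    ring
  -- the limit
  have hδl : Tendsto (fun δ : ℝ => δ * n ^ 2 / Complex.normSq Ω) (𝓝[>] 0) (𝓝[>] 0) := by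
    rw [tendsto_nhdsWithin_iff]
    constructor
    · have h1 : Continuous (fun δ : ℝ => δ * n ^ 2 / Complex.normSq Ω) := by fun_prop
      have h2 := (h1.tendsto 0).mono_left (nhdsWithin_le_nhds (s := Set.Ioi 0))
      simpa using h2
    · filter_upwards [self_mem_nhdsWithin] with δ (hδ : 0 < δ)
      show 0 < δ * n ^ 2 / Complex.normSq Ω
      positivity
  choose C hC using fun t => TT_Dk hpq e t
  have hlim : Tendsto (fun δ : ℝ => ∑ q : R ⧸ sp (n : R), c q.out * ∑ p : R ⧸ sp (k : R),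
        ((1 / 2) * (EK R Ω e (δ * n ^ 2 / Complex.normSq Ω) (z q + t p) +
          EK R Ω e (δ * n ^ 2 / Complex.normSq Ω) (z q - t p) -
          2 * EK R Ω e (δ * n ^ 2 / Complex.normSq Ω) (z q)))) (𝓝[>] 0)
      (𝓝 (∑ x : R ⧸ sp (n : R), c x.out * ∑ y : R ⧸ sp (k : R),
        ((1 / 2) * if y = 0 then 0 else (q ^ e)⁻¹ * (Dk L p q e (z x) (t y) + C (t y))))) := by
    refine tendsto_finsetSum _ fun x _ => ?_
    by_cases hq : c x.out = 0
    · simp only [hq, zero_mul]
      exact tendsto_const_nhds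
    refine Tendsto.const_mul _ (tendsto_finsetSum _ fun y _ => Tendsto.const_mul _ ?_)
    have hqn : (x.out : R) ∉ sp (n : R) := fun h => hq (hc0 _ h)
    have hzq : z x ∉ L.lattice := fun h => hqn ((lat_div_iff hL n hn _).1 h)
    by_cases hp : y = 0
    · rw [if_pos hp]
      have htp : t y ∈ L.lattice := by
        refine (lat_div_iff hL k hk0 _).2 ?_
        rw [← Ideal.Quotient.eq_zero_iff_mem, Ideal.Quotient.mk_out, hp]
      refine tendsto_const_nhds.congr fun δ => ?_
      have e1 : EK R Ω e (δ * n ^ 2 / Complex.normSq Ω) (z x + t y) =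
          EK R Ω e (δ * n ^ 2 / Complex.normSq Ω) (z x) := by
        refine EK_per hL e _ ?_
        rw [add_sub_cancel_left]
        exact htp
      have e2 : EK R Ω e (δ * n ^ 2 / Complex.normSq Ω) (z x - t y) =
          EK R Ω e (δ * n ^ 2 / Complex.normSq Ω) (z x) := by
        refine EK_per hL e _ ?_
        rw [sub_sub_cancel_left]
        exact neg_mem htp
      rw [e1, e2]
      ring
    · rw [if_neg hp]
      have hmix : ∀ b : R, Ω * x.out / n + Ω * b / k ∉ L.lattice := by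
        intro b hb
        obtain ⟨s, hs⟩ := (hL.mem _).1 hb
        apply hqn
        have h1 : (k : R) * x.out + n * b = n * k * s := by
          apply Subtype.ext
          push_cast
          field_simp at hs
          linear_combination hs
        rw [Ideal.mem_span_singleton']
        refine ⟨k * s - b - m * x.out, ?_⟩
        have h2 : (k : R) = n * m + 1 := by rw [hk]; push_cast; ring
        have h3 : (k : R) * x.out = n * m * x.out + x.out := by rw [h2]; ring
        linear_combination h3 - h1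
      have hmm : z x - t y ∉ L.lattice := by
        have := hmix (-y.out)
        convert this using 2
        simp only [hz, ht]
        push_cast
        ring
      rw [← hC (t y) (z x) hzq (hmix _) hmm]
      exact (lim_TT hL e hzq).comp hδl
  have hfin : (∑ x : R ⧸ sp (n : R), c x.out * ∑ y : R ⧸ sp (k : R),
        ((1 / 2) * if y = 0 then 0 else (q ^ e)⁻¹ * (Dk L p q e (z x) (t y) + C (t y)))) =
      (1 / 2) * ((q ^ e)⁻¹ * BB L p q e Ω n k c) := by
    have h0 := odd_sum c hc hodd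
    have h1 : ∀ x : R ⧸ sp (n : R), ∑ y : R ⧸ sp (k : R),
        ((1 / 2) * if y = 0 then 0 else (q ^ e)⁻¹ * (Dk L p q e (z x) (t y) + C (t y))) =
        (1 / 2) * (q ^ e)⁻¹ * (∑ y : R ⧸ sp (k : R), (if y = 0 then 0 else
          Dk L p q e (z x) (t y))) + (1 / 2) * (q ^ e)⁻¹ * ∑ y : R ⧸ sp (k : R),
          (if y = 0 then 0 else C (t y)) := by
      intro x
      rw [Finset.mul_sum, Finset.mul_sum, ← Finset.sum_add_distrib]
      refine Finset.sum_congr rfl fun y _ => ?_
      split_ifs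
      · ring
      · ring
    have h2 : ∀ x : R ⧸ sp (n : R), c x.out * ∑ y : R ⧸ sp (k : R),
        ((1 / 2) * if y = 0 then 0 else (q ^ e)⁻¹ * (Dk L p q e (z x) (t y) + C (t y))) =
        (1 / 2) * (q ^ e)⁻¹ * (c x.out * ∑ y : R ⧸ sp (k : R), (if y = 0 then 0 else
          Dk L p q e (z x) (t y))) + c x.out * ((1 / 2) * (q ^ e)⁻¹ * ∑ y : R ⧸ sp (k : R),
          (if y = 0 then 0 else C (t y))) := by
      intro x
      rw [h1]
      ring
    rw [Finset.sum_congr rfl (fun x _ => h2 x), Finset.sum_add_distrib, ← Finset.sum_mul, h0,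
      zero_mul, add_zero, ← Finset.mul_sum]
    unfold BB
    rw [mul_assoc]
  rw [← hfin]
  refine hlim.congr' ?_
  filter_upwards [self_mem_nhdsWithin] with δ (hδ : 0 < δ)
  rw [hid δ hδ]

end Pool.Agent.TH936.CW
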