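import Pool.Agent.TH936.CM.Sec
import Pool.Agent.W192.CY.Stk

/-!
# Second differences
-/

set_option autoImplicit false

open Filter
open scoped Topology

namespace Pool.Agent.TH936.CW

open Pool.Agent.W192.CY (Vk)


lemma dsl_eq {f : ℂ → ℂ} {z : ℂ} (hz : z ≠ 0) : f z = f 0 + z * dslope f 0 z := by
  rw [dslope_of_ne _ hz, slope_def_field, sub_zero]
  field_simp
  ring

/-- the bound for the second difference of a bounded function -/
lemma sec_diff {f : ℂ → ℂ} {ρ M : ℝ} (hρ : 1 < ρ) (hf : DifferentiableOn ℂ f (Metric.ball 0 ρ))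
    (hM : ∀ s ∈ Metric.ball (0 : ℂ) ρ, ‖f s‖ ≤ M) :
    ‖f 1 + f (-1) - 2 * f 0‖ ≤ 8 * M / ρ ^ 2 := by
  have hρ0 : 0 < ρ := by linarith
  have h0 : (0 : ℂ) ∈ Metric.ball (0 : ℂ) ρ := Metric.mem_ball_self hρ0
  have hn : Metric.ball (0 : ℂ) ρ ∈ 𝓝 (0 : ℂ) := Metric.ball_mem_nhds _ hρ0
  have e1 : ∀ s ∈ Metric.ball (0 : ℂ) ρ, ‖dslope f 0 s‖ ≤ 2 * M / ρ := by
    intro s hs
    refine Complex.norm_dslope_le_div_of_mapsTo_ball hf (fun w hw => ?_) hs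
    rw [mem_closedBall_iff_norm]
    refine (norm_sub_le _ _).trans ?_
    linarith [hM w hw, hM 0 h0]
  have hd1 : DifferentiableOn ℂ (dslope f 0) (Metric.ball 0 ρ) :=
    (Complex.differentiableOn_dslope hn).2 hf
  have e2 : ∀ s ∈ Metric.ball (0 : ℂ) ρ, ‖dslope (dslope f 0) 0 s‖ ≤ 4 * M / ρ ^ 2 := by
    intro s hs
    have h1 := Complex.norm_dslope_le_div_of_mapsTo_ball (R₂ := 4 * M / ρ) hd1 (fun w hw => by
      rw [mem_closedBall_iff_norm]
      refine (norm_sub_le _ _).trans ?_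
      have h2 := e1 w hw
      have h3 := e1 0 h0
      have h4 : 4 * M / ρ = 2 * M / ρ + 2 * M / ρ := by ring
      rw [h4]
      linarith) hs
    rw [div_div, ← sq] at h1
    exact h1
  have h1m : (1 : ℂ) ∈ Metric.ball (0 : ℂ) ρ := by
    rw [mem_ball_zero_iff, norm_one]
    exact hρ
  have h2m : (-1 : ℂ) ∈ Metric.ball (0 : ℂ) ρ := by
    rw [mem_ball_zero_iff, norm_neg, norm_one]
    exact hρ
  have e3 : f 1 + f (-1) - 2 * f 0 = dslope (dslope f 0) 0 1 + dslope (dslope f 0) 0 (-1) := by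
    have h3 := dsl_eq (f := f) (z := 1) one_ne_zero
    have h4 := dsl_eq (f := f) (z := -1) (neg_ne_zero.2 one_ne_zero)
    have h5 := dsl_eq (f := dslope f 0) (z := 1) one_ne_zero
    have h6 := dsl_eq (f := dslope f 0) (z := -1) (neg_ne_zero.2 one_ne_zero)
    rw [h3, h4, h5, h6]
    ring
  rw [e3]
  refine (norm_add_le _ _).trans ?_
  have h3 := e2 1 h1m
  have h4 := e2 (-1) h2m
  have h5 : 8 * M / ρ ^ 2 = 4 * M / ρ ^ 2 + 4 * M / ρ ^ 2 := by ring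
  rw [h5]
  exact add_le_add h3 h4

lemma sec_gen {f : ℂ → ℂ} {u t : ℂ} {K : ℝ} (hu : u ≠ 0) (ht : 8 * ‖t‖ ≤ ‖u‖)
    (hf : ∀ s, ‖s * t‖ < ‖u‖ / 4 → DifferentiableAt ℂ f s)
    (hK : ∀ s, ‖s * t‖ < ‖u‖ / 4 → ‖f s‖ ≤ K * ‖u‖⁻¹)
    (h0 : t = 0 → f 1 + f (-1) - 2 * f 0 = 0) :
    ‖f 1 + f (-1) - 2 * f 0‖ ≤ 128 * K * ‖t‖ ^ 2 * (‖u‖ ^ 3)⁻¹ := by
  by_cases ht0 : t = 0
  · rw [h0 ht0, norm_zero, ht0]
    simp
  have hu0 : 0 < ‖u‖ := norm_pos_iff.2 hu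
  have ht' : 0 < ‖t‖ := norm_pos_iff.2 ht0
  have hmem : ∀ s ∈ Metric.ball (0 : ℂ) (‖u‖ / (4 * ‖t‖)), ‖s * t‖ < ‖u‖ / 4 := by
    intro s hs
    rw [mem_ball_zero_iff, lt_div_iff₀ (by positivity)] at hs
    rw [norm_mul]
    linarith
  have h1 := sec_diff (f := f) (ρ := ‖u‖ / (4 * ‖t‖)) (M := K * ‖u‖⁻¹) (by
    rw [lt_div_iff₀ (by positivity)]
    linarith) (fun s hs => (hf s (hmem s hs)).differentiableWithinAt)
    (fun s hs => hK s (hmem s hs))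
  refine h1.trans (le_of_eq ?_)
  field_simp
  ring

lemma pinv {x : ℝ} (hx : 0 < x) (n : ℕ) : x ^ n * (x⁻¹) ^ (n + 1) = x⁻¹ := by
  rw [pow_succ, ← mul_assoc, ← mul_pow, mul_inv_cancel₀ hx.ne', one_pow, one_mul]

/-- the function of two variables -/
noncomputable def gg (n : ℕ) (v u : ℂ) : ℂ := v ^ n * (u⁻¹) ^ (n + 1)

lemma gg_norm (n : ℕ) (v u : ℂ) : ‖gg n v u‖ = ‖v‖ ^ n * (‖u‖⁻¹) ^ (n + 1) := by
  unfold gg
  rw [norm_mul, norm_pow, norm_pow, norm_inv]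

lemma line_lower {u t s : ℂ} (hs : ‖s * t‖ < ‖u‖ / 4) : ‖u‖ / 2 ≤ ‖u + s * t‖ := by
  have h1 : ‖u‖ ≤ ‖u + s * t‖ + ‖s * t‖ := by
    have : u = (u + s * t) - s * t := by ring
    calc ‖u‖ = ‖(u + s * t) - s * t‖ := by rw [← this]
      _ ≤ _ := norm_sub_le _ _
  have := norm_nonneg (s * t)
  linarith

lemma gg_sec (n : ℕ) {a b u t : ℂ} (hu : u ≠ 0) (ht : 8 * ‖t‖ ≤ ‖u‖) (ha : ‖a‖ ≤ 2 * ‖u‖)
    (hb : ‖b‖ = ‖t‖) :
    ‖gg n (a + b) (u + t) + gg n (a - b) (u - t) - 2 * gg n a u‖ ≤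
      128 * (3 ^ n * 2 ^ (n + 1)) * ‖t‖ ^ 2 * (‖u‖ ^ 3)⁻¹ := by
  have hu0 : 0 < ‖u‖ := norm_pos_iff.2 hu
  have hne : ∀ s : ℂ, ‖s * t‖ < ‖u‖ / 4 → u + s * t ≠ 0 := by
    intro s hs h
    have h1 := line_lower hs
    rw [h, norm_zero] at h1
    linarith
  have h1 := sec_gen (f := fun s => gg n (a + s * b) (u + s * t)) (u := u) (t := t)
    (K := 3 ^ n * 2 ^ (n + 1)) hu ht ?_ ?_ ?_
  · have e1 : gg n (a + 1 * b) (u + 1 * t) = gg n (a + b) (u + t) := by rw [one_mul, one_mul]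
    have e2 : gg n (a + -1 * b) (u + -1 * t) = gg n (a - b) (u - t) := by
      congr 1 <;> ring
    have e3 : gg n (a + 0 * b) (u + 0 * t) = gg n a u := by
      congr 1 <;> ring
    simp only [e1, e2, e3] at h1
    exact h1
  · intro s hs
    unfold gg
    have h2 : DifferentiableAt ℂ (fun s : ℂ => u + s * t) s := by fun_prop
    exact DifferentiableAt.mul (by fun_prop) ((h2.inv (hne s hs)).pow _)
  · intro s hs
    rw [gg_norm]
    have h2 := line_lower hs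
    have h3 : ‖a + s * b‖ ≤ 3 * ‖u‖ := by
      refine (norm_add_le _ _).trans ?_
      rw [norm_mul, hb, ← norm_mul]
      linarith
    have h4 : ‖u + s * t‖⁻¹ ≤ 2 * ‖u‖⁻¹ := by
      calc ‖u + s * t‖⁻¹ ≤ (‖u‖ / 2)⁻¹ := inv_anti₀ (by positivity) h2
        _ = 2 * ‖u‖⁻¹ := by field_simp
    calc ‖a + s * b‖ ^ n * ‖u + s * t‖⁻¹ ^ (n + 1)
        ≤ (3 * ‖u‖) ^ n * (2 * ‖u‖⁻¹) ^ (n + 1) := by gcongr
      _ = 3 ^ n * 2 ^ (n + 1) * ‖u‖⁻¹ := by
        rw [mul_pow, mul_pow]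
        linear_combination (3 ^ n * 2 ^ (n + 1)) * pinv hu0 n
  · intro h
    have hb0 : b = 0 := by
      rw [← norm_eq_zero, hb, h, norm_zero]
    simp only [h, hb0, mul_zero, add_zero]
    ring

/-! ### the regularized function -/

/-- the regularized function -/
noncomputable def gd (n : ℕ) (δ : ℝ) (u : ℂ) : ℂ :=
  gg n ((starRingEnd ℂ) u) u * (Vk (n + 1) (δ * Complex.normSq u) : ℂ)

lemma Vk_nonneg (m : ℕ) {x : ℝ} (hx : 0 ≤ x) : 0 ≤ Vk m x := by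
  unfold Vk
  have : 0 ≤ ∑ j ∈ Finset.range m, x ^ j / (j.factorial : ℝ) :=
    Finset.sum_nonneg fun j _ => by positivity
  have h2 := Real.exp_pos (-x)
  positivity

lemma Vk_le_one (m : ℕ) {x : ℝ} (hx : 0 ≤ x) : Vk m x ≤ 1 := by
  unfold Vk
  rw [Real.exp_neg, inv_mul_le_iff₀ (Real.exp_pos _), mul_one]
  exact Real.sum_le_exp_of_nonneg hx m

lemma Vk_decay (m : ℕ) {x : ℝ} (hx : 0 ≤ x) : x * Vk m x ≤ m := by
  unfold Vk
  have h1 : x * (Real.exp (-x) * ∑ j ∈ Finset.range m, x ^ j / (j.factorial : ℝ)) =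
      Real.exp (-x) * ∑ j ∈ Finset.range m, x ^ (j + 1) / (j.factorial : ℝ) := by
    rw [mul_left_comm, Finset.mul_sum]
    congr 1
    refine Finset.sum_congr rfl fun j _ => ?_
    rw [pow_succ]
    ring
  rw [h1, Real.exp_neg, inv_mul_le_iff₀ (Real.exp_pos _)]
  have h2 : ∀ j ∈ Finset.range m, x ^ (j + 1) / (j.factorial : ℝ) ≤
      m * (x ^ (j + 1) / ((j + 1).factorial : ℝ)) := by
    intro j hj
    rw [Nat.factorial_succ]
    have hj' : ((j : ℝ) + 1) ≤ m := by exact_mod_cast Finset.mem_range.1 hj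
    have hf : (0 : ℝ) < j.factorial := by exact_mod_cast j.factorial_pos
    push_cast
    rw [mul_div_assoc', div_le_div_iff₀ hf (by positivity)]
    have h3 : 0 ≤ x ^ (j + 1) * (j.factorial : ℝ) := by positivity
    nlinarith
  refine (Finset.sum_le_sum h2).trans ?_
  rw [← Finset.mul_sum, mul_comm (Real.exp x)]
  refine mul_le_mul_of_nonneg_left ?_ (by positivity)
  have h4 := Real.sum_le_exp_of_nonneg hx (m + 1)
  rw [Finset.sum_range_succ'] at h4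
  simp only [pow_zero, Nat.factorial_zero, Nat.cast_one, div_one] at h4
  linarith

lemma gg_conj_norm (n : ℕ) (u : ℂ) : ‖gg n ((starRingEnd ℂ) u) u‖ ≤ ‖u‖⁻¹ := by
  rw [gg_norm, RCLike.norm_conj]
  by_cases h : u = 0
  · rw [h]
    simp
  · have hu0 : 0 < ‖u‖ := norm_pos_iff.2 h
    exact (pinv hu0 n).le

lemma gd_norm_le (n : ℕ) (δ : ℝ) (hδ : 0 ≤ δ) (u : ℂ) : ‖gd n δ u‖ ≤ ‖u‖⁻¹ := by
  unfold gd
  have h0 : 0 ≤ δ * Complex.normSq u := mul_nonneg hδ (Complex.normSq_nonneg u)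
  rw [norm_mul, Complex.norm_real, Real.norm_eq_abs, abs_of_nonneg (Vk_nonneg _ h0)]
  calc _ ≤ ‖u‖⁻¹ * 1 := mul_le_mul (gg_conj_norm n u) (Vk_le_one _ h0) (Vk_nonneg _ h0)
        (by positivity)
    _ = _ := mul_one _

lemma gd_bound (n : ℕ) (δ : ℝ) (hδ : 0 < δ) (u : ℂ) :
    ‖gd n δ u‖ ≤ (n + 1) * δ⁻¹ * (‖u‖ ^ 3)⁻¹ := by
  unfold gd
  have h0 : 0 ≤ δ * Complex.normSq u := mul_nonneg hδ.le (Complex.normSq_nonneg u)
  rw [norm_mul, Complex.norm_real, Real.norm_eq_abs, abs_of_nonneg (Vk_nonneg _ h0)]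
  by_cases h : u = 0
  · rw [gg_norm, h]
    simp
  have hu0 : 0 < ‖u‖ := norm_pos_iff.2 h
  have h2 := Vk_decay (n + 1) h0
  rw [Complex.normSq_eq_norm_sq] at h2 h0 ⊢
  have h3 : Vk (n + 1) (δ * ‖u‖ ^ 2) ≤ (n + 1) * (δ * ‖u‖ ^ 2)⁻¹ := by
    rw [← div_eq_mul_inv, le_div_iff₀ (by positivity), mul_comm]
    exact_mod_cast h2
  calc _ ≤ ‖u‖⁻¹ * ((n + 1) * (δ * ‖u‖ ^ 2)⁻¹) :=
        mul_le_mul (gg_conj_norm n u) h3 (Vk_nonneg _ h0) (by positivity)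
    _ = (n + 1) * δ⁻¹ * (‖u‖ ^ 3)⁻¹ := by field_simp

lemma gd_tendsto (n : ℕ) (u : ℂ) :
    Tendsto (fun δ : ℝ => gd n δ u) (𝓝[>] 0) (𝓝 (gg n ((starRingEnd ℂ) u) u)) := by
  have h1 : Continuous (fun δ : ℝ => gd n δ u) := by
    unfold gd Vk
    fun_prop
  have h2 := (h1.tendsto 0).mono_left (nhdsWithin_le_nhds (s := Set.Ioi 0))
  have h3 : gd n 0 u = gg n ((starRingEnd ℂ) u) u := by
    unfold gd Vk
    rw [zero_mul, neg_zero, Real.exp_zero, one_mul, Finset.sum_range_succ']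
    simp
  rwa [h3] at h2

/-- the weight function on the complex numbers -/
noncomputable def VC (m : ℕ) (x : ℂ) : ℂ :=
  Complex.exp (-x) * ∑ j ∈ Finset.range m, x ^ j / (j.factorial : ℂ)

lemma VC_ofReal (m : ℕ) (x : ℝ) : VC m (x : ℂ) = (Vk m x : ℂ) := by
  unfold VC Vk
  push_cast
  rfl

lemma VC_bound (m : ℕ) {w : ℂ} {x : ℝ} (hx : 0 ≤ x) (h1 : 7 / 16 * x ≤ w.re)
    (h2 : ‖w‖ ≤ 25 / 16 * x) : ‖VC m w‖ ≤ 4 ^ m := by
  unfold VC
  rw [norm_mul, Complex.norm_exp, Complex.neg_re]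
  have e1 : Real.exp (-w.re) ≤ Real.exp (-(7 / 16 * x)) := Real.exp_le_exp.2 (by linarith)
  have e2 : ‖∑ j ∈ Finset.range m, w ^ j / (j.factorial : ℂ)‖ ≤
      4 ^ m * Real.exp (7 / 16 * x) := by
    have h3 : ∀ j ∈ Finset.range m, ‖w ^ j / (j.factorial : ℂ)‖ ≤
        4 ^ m * ((7 / 16 * x) ^ j / (j.factorial : ℝ)) := by
      intro j hj
      rw [norm_div, norm_pow, Complex.norm_natCast]
      have hf : (0 : ℝ) < j.factorial := by exact_mod_cast j.factorial_pos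
      rw [mul_div_assoc']
      refine div_le_div_of_nonneg_right ?_ hf.le
      calc ‖w‖ ^ j ≤ (25 / 16 * x) ^ j := by gcongr
        _ ≤ (4 * (7 / 16 * x)) ^ j := by
          refine pow_le_pow_left₀ (by positivity) ?_ j
          linarith
        _ = 4 ^ j * (7 / 16 * x) ^ j := mul_pow _ _ _
        _ ≤ 4 ^ m * (7 / 16 * x) ^ j := by
          refine mul_le_mul_of_nonneg_right ?_ (by positivity)
          exact pow_le_pow_right₀ (by norm_num) (Finset.mem_range.1 hj).le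
    refine (norm_sum_le _ _).trans ((Finset.sum_le_sum h3).trans ?_)
    rw [← Finset.mul_sum]
    refine mul_le_mul_of_nonneg_left ?_ (by positivity)
    exact Real.sum_le_exp_of_nonneg (by positivity) m
  calc _ ≤ Real.exp (-(7 / 16 * x)) * (4 ^ m * Real.exp (7 / 16 * x)) :=
        mul_le_mul e1 e2 (norm_nonneg _) (Real.exp_pos _).le
    _ = 4 ^ m * (Real.exp (-(7 / 16 * x)) * Real.exp (7 / 16 * x)) := by ring
    _ = 4 ^ m := by rw [← Real.exp_add, neg_add_cancel, Real.exp_zero, mul_one]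

lemma VC_diff (m : ℕ) : Differentiable ℂ (VC m) := by
  unfold VC
  fun_prop

/-- the second difference of the regularized function -/
theorem gd_sec (n : ℕ) {δ : ℝ} (hδ : 0 ≤ δ) {u t : ℂ} (hu : u ≠ 0) (ht : 8 * ‖t‖ ≤ ‖u‖) :
    ‖gd n δ (u + t) + gd n δ (u - t) - 2 * gd n δ u‖ ≤
      128 * (2 ^ n * 2 ^ (n + 1) * 4 ^ (n + 1)) * ‖t‖ ^ 2 * (‖u‖ ^ 3)⁻¹ := by
  have hu0 : 0 < ‖u‖ := norm_pos_iff.2 hu
  have hne : ∀ s : ℂ, ‖s * t‖ < ‖u‖ / 4 → u + s * t ≠ 0 := by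
    intro s hs h
    have h1 := line_lower hs
    rw [h, norm_zero] at h1
    linarith
  set f : ℂ → ℂ := fun s => gg n ((starRingEnd ℂ) u + s * (starRingEnd ℂ) t) (u + s * t) *
    VC (n + 1) (δ * ((u + s * t) * ((starRingEnd ℂ) u + s * (starRingEnd ℂ) t))) with hf
  have hreal : ∀ s : ℝ, f s = gd n δ (u + s * t) := by
    intro s
    have e1 : (starRingEnd ℂ) (u + s * t) = (starRingEnd ℂ) u + s * (starRingEnd ℂ) t := by
      rw [map_add, map_mul, Complex.conj_ofReal]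
    have e2 : (u + s * t) * ((starRingEnd ℂ) u + s * (starRingEnd ℂ) t) = (Complex.normSq (u + s * t) : ℂ) := by
      rw [← e1, Complex.mul_conj]
    simp only [hf]
    unfold gd
    rw [e1, e2, ← Complex.ofReal_mul, VC_ofReal]
  have h1 := sec_gen (f := f) (u := u) (t := t)
    (K := 2 ^ n * 2 ^ (n + 1) * 4 ^ (n + 1)) hu ht ?_ ?_ ?_
  · have e1 : f 1 = gd n δ (u + t) := by
      have := hreal 1
      rw [Complex.ofReal_one, one_mul] at this
      exact this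
    have e2 : f (-1) = gd n δ (u - t) := by
      have := hreal (-1)
      rw [Complex.ofReal_neg, Complex.ofReal_one, neg_one_mul, ← sub_eq_add_neg] at this
      exact this
    have e3 : f 0 = gd n δ u := by
      have := hreal 0
      rw [Complex.ofReal_zero, zero_mul, add_zero] at this
      exact this
    rw [e1, e2, e3] at h1
    exact h1
  · intro s hs
    simp only [hf]
    have h2 : DifferentiableAt ℂ (fun s : ℂ => u + s * t) s := by fun_prop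
    have h3 : DifferentiableAt ℂ (fun s : ℂ => gg n ((starRingEnd ℂ) u + s * (starRingEnd ℂ) t) (u + s * t)) s := by
      unfold gg
      exact DifferentiableAt.mul (by fun_prop) ((h2.inv (hne s hs)).pow _)
    refine h3.mul ?_
    have h4 : DifferentiableAt ℂ (fun s : ℂ => (δ : ℂ) * ((u + s * t) * ((starRingEnd ℂ) u + s * (starRingEnd ℂ) t))) s := by
      fun_prop
    exact ((VC_diff (n + 1)) _).comp s h4
  · intro s hs
    simp only [hf]
    rw [norm_mul, gg_norm]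
    have h2 := line_lower hs
    have hst : ‖s * (starRingEnd ℂ) t‖ = ‖s * t‖ := by rw [norm_mul, norm_mul, RCLike.norm_conj]
    have h3 : ‖(starRingEnd ℂ) u + s * (starRingEnd ℂ) t‖ ≤ 5 / 4 * ‖u‖ := by
      refine (norm_add_le _ _).trans ?_
      rw [hst, RCLike.norm_conj]
      linarith
    have h3' : ‖u + s * t‖ ≤ 5 / 4 * ‖u‖ := by
      refine (norm_add_le _ _).trans ?_
      linarith
    have h4 : ‖u + s * t‖⁻¹ ≤ 2 * ‖u‖⁻¹ := by
      calc ‖u + s * t‖⁻¹ ≤ (‖u‖ / 2)⁻¹ := inv_anti₀ (by positivity) h2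
        _ = 2 * ‖u‖⁻¹ := by field_simp
    have h5 : ‖VC (n + 1) (δ * ((u + s * t) * ((starRingEnd ℂ) u + s * (starRingEnd ℂ) t)))‖ ≤ 4 ^ (n + 1) := by
      refine VC_bound (n + 1) (x := δ * ‖u‖ ^ 2) (by positivity) ?_ ?_
      · have e1 : (δ * ((u + s * t) * ((starRingEnd ℂ) u + s * (starRingEnd ℂ) t)) : ℂ).re =
            δ * ((u + s * t) * ((starRingEnd ℂ) u + s * (starRingEnd ℂ) t)).re := by
          rw [Complex.re_ofReal_mul]
        rw [e1]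
        have e2 : (u + s * t) * ((starRingEnd ℂ) u + s * (starRingEnd ℂ) t) = (‖u‖ ^ 2 : ℝ) +
            (u * (s * (starRingEnd ℂ) t) + s * t * (starRingEnd ℂ) u + s * t * (s * (starRingEnd ℂ) t)) := by
          have e3 : u * (starRingEnd ℂ) u = ((‖u‖ ^ 2 : ℝ) : ℂ) := by
            rw [Complex.mul_conj, Complex.normSq_eq_norm_sq]
          rw [← e3]
          ring
        have e4 : ‖u * (s * (starRingEnd ℂ) t) + s * t * (starRingEnd ℂ) u + s * t * (s * (starRingEnd ℂ) t)‖ ≤ 9 / 16 * ‖u‖ ^ 2 := by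
          refine (norm_add_le _ _).trans ?_
          have e5 : ‖u * (s * (starRingEnd ℂ) t) + s * t * (starRingEnd ℂ) u‖ ≤ ‖u‖ * ‖s * t‖ + ‖s * t‖ * ‖u‖ := by
            refine (norm_add_le _ _).trans ?_
            rw [norm_mul, hst, norm_mul (s * t), RCLike.norm_conj]
          have e6 : ‖s * t * (s * (starRingEnd ℂ) t)‖ = ‖s * t‖ * ‖s * t‖ := by
            rw [norm_mul, hst]
          rw [e6]
          have h6 := norm_nonneg (s * t)
          nlinarith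
        have e5 := Complex.abs_re_le_norm (u * (s * (starRingEnd ℂ) t) + s * t * (starRingEnd ℂ) u + s * t * (s * (starRingEnd ℂ) t))
        have e6 := neg_abs_le (u * (s * (starRingEnd ℂ) t) + s * t * (starRingEnd ℂ) u + s * t * (s * (starRingEnd ℂ) t)).re
        rw [e2, Complex.add_re, Complex.ofReal_re]
        have e7 : 7 / 16 * ‖u‖ ^ 2 ≤ ‖u‖ ^ 2 +
            (u * (s * (starRingEnd ℂ) t) + s * t * (starRingEnd ℂ) u + s * t * (s * (starRingEnd ℂ) t)).re := by linarith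
        calc 7 / 16 * (δ * ‖u‖ ^ 2) = δ * (7 / 16 * ‖u‖ ^ 2) := by ring
          _ ≤ _ := mul_le_mul_of_nonneg_left e7 hδ
      · rw [norm_mul, norm_mul, Complex.norm_real, Real.norm_eq_abs, abs_of_nonneg hδ]
        calc δ * (‖u + s * t‖ * ‖(starRingEnd ℂ) u + s * (starRingEnd ℂ) t‖) ≤ δ * ((5 / 4 * ‖u‖) * (5 / 4 * ‖u‖)) := by
              gcongr
          _ = 25 / 16 * (δ * ‖u‖ ^ 2) := by ring
    calc ‖(starRingEnd ℂ) u + s * (starRingEnd ℂ) t‖ ^ n * ‖u + s * t‖⁻¹ ^ (n + 1) *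
          ‖VC (n + 1) (δ * ((u + s * t) * ((starRingEnd ℂ) u + s * (starRingEnd ℂ) t)))‖
        ≤ (2 * ‖u‖) ^ n * (2 * ‖u‖⁻¹) ^ (n + 1) * 4 ^ (n + 1) := by
          have h6 : ‖(starRingEnd ℂ) u + s * (starRingEnd ℂ) t‖ ≤ 2 * ‖u‖ := by linarith
          gcongr
      _ = 2 ^ n * 2 ^ (n + 1) * 4 ^ (n + 1) * ‖u‖⁻¹ := by
        rw [mul_pow, mul_pow]
        linear_combination (2 ^ n * 2 ^ (n + 1) * 4 ^ (n + 1)) * pinv hu0 n
  · intro h
    simp only [hf, h, map_zero, mul_zero, add_zero]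
    ring

lemma gd_mul (n : ℕ) (δ : ℝ) (a w : ℂ) : gd n δ (a * w) = gg n ((starRingEnd ℂ) a) a *
    gd n (δ * Complex.normSq a) w := by
  unfold gd gg
  rw [Complex.normSq_mul, map_mul, mul_pow, mul_inv, mul_pow, ← mul_assoc δ]
  ring

lemma gg_nat (n k : ℕ) : gg n ((starRingEnd ℂ) ((k : ℂ)⁻¹)) ((k : ℂ)⁻¹) = k := by
  unfold gg
  rw [map_inv₀, inv_inv]
  have : (starRingEnd ℂ) (k : ℂ) = k := map_natCast _ _
  rw [this]
  by_cases hk : (k : ℂ) = 0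
  · rw [hk]
    simp
  · rw [inv_pow, pow_succ]
    field_simp

end Pool.Agent.TH936.CW
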