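import Pool.Agent.TH936.CW.Kro
import Pool.Agent.TH936.CW.Dif

/-!
# Polynomial functions of bounded degree, and extension of functions
-/

set_option autoImplicit false

open Filter
open scoped Topology

namespace Pool.Agent.TH936.CW

open H667R3


/-- polynomial functions of degree at most `N` -/
def Bd (N : ℕ) (F : ℂ → ℂ) : Prop :=
  ∃ Q : Polynomial ℂ, Q.natDegree ≤ N ∧ ∀ v, F v = Q.eval v

/-- the Lagrange basis -/
noncomputable def lg (N k : ℕ) : Polynomial ℂ :=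
  Lagrange.basis (Finset.range (N + 1)) (fun k : ℕ => (k : ℂ)) k

lemma inj_nat (s : Set ℕ) : Set.InjOn (fun k : ℕ => (k : ℂ)) s := fun a _ b _ h => by
  have h' : (a : ℂ) = (b : ℂ) := h
  exact_mod_cast h'

lemma lg_deg {N k : ℕ} (hk : k ∈ Finset.range (N + 1)) : (lg N k).natDegree ≤ N := by
  unfold lg
  rw [Lagrange.natDegree_basis (inj_nat _) hk, Finset.card_range]
  omega

lemma Bd.lag {N : ℕ} {F : ℂ → ℂ} (h : Bd N F) (v : ℂ) :
    F v = ∑ k ∈ Finset.range (N + 1), F k * (lg N k).eval v := by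
  obtain ⟨Q, hQ, hF⟩ := h
  have h1 : Q = Lagrange.interpolate (Finset.range (N + 1)) (fun k : ℕ => (k : ℂ))
      fun i => Q.eval (i : ℂ) := by
    refine Lagrange.eq_interpolate (inj_nat _) ?_
    rw [Finset.card_range]
    refine (Polynomial.degree_le_natDegree).trans_lt ?_
    exact_mod_cast Nat.lt_succ_of_le hQ
  rw [hF]
  conv_lhs => rw [h1]
  rw [Lagrange.interpolate_apply, Polynomial.eval_finsetSum]
  refine Finset.sum_congr rfl fun k _ => ?_
  rw [Polynomial.eval_mul, Polynomial.eval_C, hF]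
  rfl

lemma Bd.of_lag {N : ℕ} {F : ℂ → ℂ}
    (h : ∀ v, F v = ∑ k ∈ Finset.range (N + 1), F k * (lg N k).eval v) : Bd N F := by
  refine ⟨∑ k ∈ Finset.range (N + 1), Polynomial.C (F k) * lg N k, ?_, fun v => ?_⟩
  · refine Polynomial.natDegree_sum_le_of_forall_le _ _ fun k hk => ?_
    exact (Polynomial.natDegree_C_mul_le _ _).trans (lg_deg hk)
  · rw [h v, Polynomial.eval_finsetSum]
    refine Finset.sum_congr rfl fun k _ => ?_
    rw [Polynomial.eval_mul, Polynomial.eval_C]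

lemma Bd.mono {N M : ℕ} {F : ℂ → ℂ} (h : Bd N F) (hNM : N ≤ M) : Bd M F := by
  obtain ⟨Q, hQ, hF⟩ := h
  exact ⟨Q, hQ.trans hNM, hF⟩

lemma Bd.add {N : ℕ} {F G : ℂ → ℂ} (hF : Bd N F) (hG : Bd N G) : Bd N (fun v => F v + G v) := by
  obtain ⟨Q, hQ, hF⟩ := hF
  obtain ⟨P, hP, hG⟩ := hG
  refine ⟨Q + P, (Polynomial.natDegree_add_le _ _).trans (max_le hQ hP), fun v => ?_⟩
  beta_reduce
  rw [Polynomial.eval_add, hF, hG]

lemma Bd.cmul {N : ℕ} {F : ℂ → ℂ} (hF : Bd N F) (a : ℂ) : Bd N (fun v => a * F v) := by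
  obtain ⟨Q, hQ, hF⟩ := hF
  refine ⟨Polynomial.C a * Q, (Polynomial.natDegree_C_mul_le _ _).trans hQ, fun v => ?_⟩
  beta_reduce
  rw [Polynomial.eval_mul, Polynomial.eval_C, hF]

lemma Bd.sub {N : ℕ} {F G : ℂ → ℂ} (hF : Bd N F) (hG : Bd N G) : Bd N (fun v => F v - G v) := by
  obtain ⟨Q, hQ, hF⟩ := hF
  obtain ⟨P, hP, hG⟩ := hG
  refine ⟨Q - P, (Polynomial.natDegree_sub_le _ _).trans (max_le hQ hP), fun v => ?_⟩
  beta_reduce
  rw [Polynomial.eval_sub, hF, hG]

lemma Bd.shift {N : ℕ} {F : ℂ → ℂ} (hF : Bd N F) (a : ℂ) : Bd N (fun v => F (v + a)) := by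
  obtain ⟨Q, hQ, hF⟩ := hF
  refine ⟨Q.comp (Polynomial.X + Polynomial.C a), ?_, fun v => ?_⟩
  · refine (Polynomial.natDegree_comp_le).trans ?_
    rw [Polynomial.natDegree_X_add_C, mul_one]
    exact hQ
  · beta_reduce
    rw [Polynomial.eval_comp, Polynomial.eval_add, Polynomial.eval_X, Polynomial.eval_C, hF]

lemma Bd.gg (n : ℕ) (u : ℂ) : Bd n (fun v => gg n v u) := by
  refine ⟨Polynomial.C ((u⁻¹) ^ (n + 1)) * Polynomial.X ^ n,
    (Polynomial.natDegree_C_mul_le _ _).trans (Polynomial.natDegree_X_pow_le n), fun v => ?_⟩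
  rw [Polynomial.eval_mul, Polynomial.eval_C, Polynomial.eval_pow, Polynomial.eval_X, mul_comm]
  rfl

lemma Bd.tsum {ι : Type*} {N : ℕ} {F : ι → ℂ → ℂ} (h : ∀ i, Bd N (F i))
    (hs : ∀ v, Summable (fun i => F i v)) : Bd N (fun v => ∑' i, F i v) := by
  refine Bd.of_lag fun v => ?_
  have h1 : ∀ k ∈ Finset.range (N + 1), Summable (fun i => F i k * (lg N k).eval v) :=
    fun k _ => (hs k).mul_right _
  rw [tsum_congr fun i => (h i).lag v, Summable.tsum_finsetSum h1]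
  refine Finset.sum_congr rfl fun k _ => ?_
  rw [tsum_mul_right]

lemma Bd.lim {α : Type*} {l : Filter α} [l.NeBot] {N : ℕ} {F : α → ℂ → ℂ} {G : ℂ → ℂ}
    (h : ∀ᶠ a in l, Bd N (F a)) (hl : ∀ v, Tendsto (fun a => F a v) l (𝓝 (G v))) : Bd N G := by
  refine Bd.of_lag fun v => ?_
  have h1 : Tendsto (fun a => ∑ k ∈ Finset.range (N + 1), F a k * (lg N k).eval v) l
      (𝓝 (∑ k ∈ Finset.range (N + 1), G k * (lg N k).eval v)) :=
    tendsto_finsetSum _ fun k _ => (hl k).mul_const _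
  refine tendsto_nhds_unique (hl v) (h1.congr' ?_)
  filter_upwards [h] with a ha
  exact (ha.lag v).symm

/-- the values of a polynomial in `ζ, ℘, ℘'` -/
lemma Bd.evz (L : PeriodPair) (p q : ℂ) (P : PP) : ∃ N, ∀ z, Bd N (fun v => evz L p q v z P) := by
  induction P using MvPolynomial.induction_on with
  | C a =>
    refine ⟨0, fun z => ⟨Polynomial.C a, by rw [Polynomial.natDegree_C], fun v => ?_⟩⟩
    show ev _ _ _ _ = _
    rw [ev_C, Polynomial.eval_C]
  | add P Q hP hQ =>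
    obtain ⟨N, hN⟩ := hP
    obtain ⟨M, hM⟩ := hQ
    refine ⟨max N M, fun z => ?_⟩
    have h1 := ((hN z).mono (le_max_left N M)).add ((hM z).mono (le_max_right N M))
    have h2 : (fun v => CW.evz L p q v z (P + Q)) =
        fun v => CW.evz L p q v z P + CW.evz L p q v z Q := by
      funext v
      unfold CW.evz
      rw [ev_add]
    rw [h2]
    exact h1
  | mul_X P i hP =>
    obtain ⟨N, hN⟩ := hP
    refine ⟨N + 1, fun z => ?_⟩
    have hX : Bd 1 (fun v => CW.evz L p q v z (MvPolynomial.X i)) := by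
      fin_cases i
      · refine ⟨Polynomial.C (zeta L z - p * z) - Polynomial.C q * Polynomial.X, ?_, fun v => ?_⟩
        · refine (Polynomial.natDegree_sub_le _ _).trans (max_le ?_ ?_)
          · rw [Polynomial.natDegree_C]
            exact Nat.zero_le _
          · exact (Polynomial.natDegree_C_mul_le _ _).trans Polynomial.natDegree_X_le
        · show ev (Xx L p q v z) (L.weierstrassP z) (L.derivWeierstrassP z) (MvPolynomial.X 0) = _
          rw [ev_X0]
          unfold Xx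
          simp
      · refine ⟨Polynomial.C (L.weierstrassP z), by rw [Polynomial.natDegree_C]; exact Nat.zero_le _,
          fun v => ?_⟩
        show ev (Xx L p q v z) (L.weierstrassP z) (L.derivWeierstrassP z) (MvPolynomial.X 1) = _
        rw [ev_X1, Polynomial.eval_C]
      · refine ⟨Polynomial.C (L.derivWeierstrassP z),
          by rw [Polynomial.natDegree_C]; exact Nat.zero_le _, fun v => ?_⟩
        show ev (Xx L p q v z) (L.weierstrassP z) (L.derivWeierstrassP z) (MvPolynomial.X 2) = _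
        rw [ev_X2, Polynomial.eval_C]
    obtain ⟨Q1, hQ1, hF1⟩ := hN z
    obtain ⟨Q2, hQ2, hF2⟩ := hX
    refine ⟨Q1 * Q2, (Polynomial.natDegree_mul_le).trans (add_le_add hQ1 hQ2), fun v => ?_⟩
    rw [Polynomial.eval_mul, ← hF1, ← hF2]
    show ev _ _ _ _ = ev _ _ _ _ * ev _ _ _ _
    rw [ev_mul]

/-! ### extension -/

/-- the extension of a function with removable singularities -/
noncomputable def ext (f : ℂ → ℂ) (z : ℂ) : ℂ := limUnder (𝓝[≠] z) f

lemma ext_eq {f A : ℂ → ℂ} {z₀ : ℂ} (hA : AnalyticAt ℂ A z₀) (h : ∀ᶠ z in 𝓝[≠] z₀, f z = A z) :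
    Tendsto f (𝓝[≠] z₀) (𝓝 (ext f z₀)) ∧ ext f z₀ = A z₀ := by
  have h1 : Tendsto A (𝓝[≠] z₀) (𝓝 (A z₀)) := hA.continuousAt.tendsto.mono_left nhdsWithin_le_nhds
  have h2 : Tendsto f (𝓝[≠] z₀) (𝓝 (A z₀)) := h1.congr' (h.mono fun z hz => hz.symm)
  have h3 : ext f z₀ = A z₀ := h2.limUnder_eq
  rw [h3]
  exact ⟨h2, rfl⟩

lemma ext_diff {f : ℂ → ℂ} (h : ∀ z₀, ∃ A : ℂ → ℂ, AnalyticAt ℂ A z₀ ∧
    ∀ᶠ z in 𝓝[≠] z₀, f z = A z) : Differentiable ℂ (ext f) := by
  intro z₀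
  obtain ⟨A, hA, hf⟩ := h z₀
  have h1 := eventually_eventually_nhdsWithin.2 hf
  have h2 : ∀ᶠ z in 𝓝[≠] z₀, ext f z = A z := by
    filter_upwards [h1, self_mem_nhdsWithin,
      hA.eventually_analyticAt.filter_mono nhdsWithin_le_nhds] with z hz hz0 hzA
    have h3 : 𝓝[{z₀}ᶜ] z = 𝓝 z := isOpen_compl_singleton.nhdsWithin_eq hz0
    rw [h3] at hz
    exact (ext_eq hzA (hz.filter_mono nhdsWithin_le_nhds)).2
  have h3 : ext f z₀ = A z₀ := (ext_eq hA hf).2
  have h4 : ext f =ᶠ[𝓝 z₀] A := by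
    rw [Filter.EventuallyEq, eventually_nhdsWithin_iff] at *
    filter_upwards [h2] with z hz
    by_cases hz0 : z = z₀
    · rw [hz0, h3]
    · exact hz hz0
  exact (hA.congr h4.symm).differentiableAt

end Pool.Agent.TH936.CW
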