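import Pool.Agent.TH936.CW.Tid
import Pool.Agent.TH936.CM.Act

/-!
# Automorphisms and the values of the periodic zeta function at torsion points
-/

set_option autoImplicit false

open Filter
open scoped Topology PeriodPair

namespace Pool.Agent.TH936.CW

open H667R3 Pool.Agent.W245.EB Pool.Agent.W192.HK Pool.Agent.TH936.CM


variable {L : PeriodPair} {p q : ℂ}

/-- the coefficient of the conjugate is not zero -/
theorem q_ne (hpq : ∀ l ∈ L.lattice, eta L l = p * l + q * (starRingEnd ℂ) l) : q ≠ 0 := by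
  intro hq
  have hp : ∀ l ∈ L.lattice, eta L l = p * l := by
    intro l hl
    rw [hpq l hl, hq]
    ring
  set G : ℂ → ℂ := fun z => sigma L z ^ 2 * Complex.exp (-(p * z ^ 2)) with hG
  have hGd : Differentiable ℂ G := by
    have := differentiable_sigma L
    exact (this.pow 2).mul (by fun_prop)
  have h1 : ∀ l ∈ L.lattice, l / 2 ∉ L.lattice → ∀ z, G (z + l) = G z := by
    intro l hl hl2 z
    obtain ⟨C, hC, h⟩ := sigma_add_coe L hl
    have h2 := h (-(l / 2))
    have e1 : -(l / 2) + l = l / 2 := by ring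
    rw [e1, sigma_neg, hp l hl] at h2
    have hs := sigma_ne_zero L hl2
    have e2 : C * Complex.exp (p * l * -(l / 2)) = -1 := by
      refine mul_right_cancel₀ hs ?_
      linear_combination h2
    have e3 : C ^ 2 * Complex.exp (-(p * l ^ 2)) = 1 := by
      have : Complex.exp (-(p * l ^ 2)) = Complex.exp (p * l * -(l / 2)) ^ 2 := by
        rw [← Complex.exp_nat_mul]
        congr 1
        push_cast
        ring
      rw [this, ← mul_pow, e2]
      ring
    simp only [hG]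
    rw [h z, hp l hl]
    have e4 : Complex.exp (-(p * (z + l) ^ 2)) = Complex.exp (-(p * z ^ 2)) *
        Complex.exp (-(p * l ^ 2)) * (Complex.exp (p * l * z) ^ 2)⁻¹ := by
      rw [← Complex.exp_nat_mul, ← Complex.exp_neg, ← Complex.exp_add, ← Complex.exp_add]
      congr 1
      push_cast
      ring
    rw [e4]
    have hE := Complex.exp_ne_zero (p * l * z)
    field_simp
    linear_combination (sigma L z ^ 2) * e3
  have h2 : ∀ l ∈ L.lattice, ∀ z, G (z + l) = G z := by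
    intro l hl z
    by_cases hl2 : l / 2 ∈ L.lattice
    · have h3 : (l - L.ω₁) / 2 ∉ L.lattice := by
        intro h
        apply L.ω₁_div_two_notMem_lattice
        have := sub_mem hl2 h
        rwa [show l / 2 - (l - L.ω₁) / 2 = L.ω₁ / 2 by ring] at this
      have h4 := h1 (l - L.ω₁) (sub_mem hl L.ω₁_mem_lattice) h3 (z + L.ω₁)
      rw [h1 L.ω₁ L.ω₁_mem_lattice L.ω₁_div_two_notMem_lattice z] at h4
      rw [← h4]
      congr 1
      ring
    · exact h1 l hl hl2 z
  have h3 := per_const L hGd h2 (L.ω₁ / 2)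
  have h4 : G 0 = 0 := by
    simp only [hG]
    rw [sigma_zero]
    simp
  rw [h4] at h3
  simp only [hG] at h3
  have h5 := sigma_ne_zero L L.ω₁_div_two_notMem_lattice
  rcases mul_eq_zero.1 h3 with h | h
  · exact h5 (pow_eq_zero_iff two_ne_zero |>.1 h)
  · exact Complex.exp_ne_zero _ h

/-- the other coefficient is fixed -/
theorem p_fix (hpq : ∀ l ∈ L.lattice, eta L l = p * l + q * (starRingEnd ℂ) l) {α : ℂ} (hα : α ≠ 0)
    (him : α.im ≠ 0) (hm : ∀ w ∈ L.lattice, α * w ∈ L.lattice) {c : ℂ}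
    (hc : ∀ z, α * z ∉ L.lattice → α ^ 2 * ℘[L] (α * z) = ∑ x ∈ ker hα hm, ℘[L] (z - x.out) + c)
    {σ : ℂ ≃+* ℂ} (hσα : σ α = α) (hσc : σ c = c) : σ p = p := by
  obtain ⟨c₂, hc₂⟩ := zeta_mul hα hm hc
  have h1 : ∀ l ∈ L.lattice, (p * α ^ 2 - (ker hα hm).card * p + c) * l +
      q * (α * (starRingEnd ℂ) α - (ker hα hm).card) * (starRingEnd ℂ) l = 0 := by
    intro l hl
    obtain ⟨z, hz⟩ : ∃ z, α * z ∉ L.lattice := by
      refine ⟨α⁻¹ * (L.ω₁ / 2), ?_⟩
      rw [mul_inv_cancel_left₀ hα]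
      exact L.ω₁_div_two_notMem_lattice
    have hz' : α * (z + l) ∉ L.lattice := by
      rw [mul_add]
      intro h
      exact hz ((add_mem_iff L (hm l hl)).1 h)
    have e1 := hc₂ z hz
    have e2 := hc₂ (z + l) hz'
    rw [mul_add, zeta_add_coe L hz (hm l hl), hpq _ (hm l hl)] at e2
    have e3 : ∑ x ∈ ker hα hm, zeta L (z + l - x.out) = ∑ x ∈ ker hα hm, zeta L (z - x.out) +
        (ker hα hm).card * (p * l + q * (starRingEnd ℂ) l) := by
      rw [← nsmul_eq_mul, ← Finset.sum_const, ← Finset.sum_add_distrib]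
      refine Finset.sum_congr rfl fun x hx => ?_
      have e4 : z + l - x.out = z - x.out + l := by ring
      rw [e4, zeta_add_coe L (sub_out_notMem hz hx) hl, hpq l hl]
    rw [e3, map_mul] at e2
    linear_combination e2 - e1
  obtain ⟨h2, h3⟩ := lin_zero L h1
  have h4 : α * (starRingEnd ℂ) α = (ker hα hm).card := by
    have := (mul_eq_zero.1 h3).resolve_left (q_ne hpq)
    linear_combination this
  have h5 : α ^ 2 - (ker hα hm).card ≠ 0 := by
    rw [← h4]
    intro h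
    have h6 : α * (α - (starRingEnd ℂ) α) = 0 := by linear_combination h
    have h7 := (mul_eq_zero.1 h6).resolve_left hα
    apply him
    exact Complex.conj_eq_iff_im.1 (by linear_combination -h7)
  have h6 : p * (α ^ 2 - (ker hα hm).card) = -c := by linear_combination h2
  have h7 := congrArg σ h6
  rw [map_mul, map_sub, map_pow, map_natCast, map_neg, hσα, hσc, ← h6] at h7
  exact mul_right_cancel₀ h5 h7

/-- the periodic zeta function -/
noncomputable def E1 (L : PeriodPair) (p q z : ℂ) : ℂ := Xx L p q ((starRingEnd ℂ) z) z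

lemma E1_per (hpq : ∀ l ∈ L.lattice, eta L l = p * l + q * (starRingEnd ℂ) l) {z l : ℂ} (hz : z ∉ L.lattice)
    (hl : l ∈ L.lattice) : E1 L p q (z + l) = E1 L p q z := by
  unfold E1
  rw [map_add]
  exact Xx_add L p q hpq hz hl _

lemma E1_per' (hpq : ∀ l ∈ L.lattice, eta L l = p * l + q * (starRingEnd ℂ) l) {z w : ℂ} (hz : z ∉ L.lattice)
    (h : w - z ∈ L.lattice) : E1 L p q w = E1 L p q z := by
  have := E1_per hpq hz h
  rwa [add_sub_cancel] at this

lemma E1_add {z w : ℂ} (hz : z ∉ L.lattice) (hw : w ∉ L.lattice) (h1 : z + w ∉ L.lattice)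
    (h2 : z - w ∉ L.lattice) : E1 L p q (z + w) = E1 L p q z + E1 L p q w +
      (℘'[L] z - ℘'[L] w) / (2 * (℘[L] z - ℘[L] w)) := by
  unfold E1 Xx
  rw [zeta_add L hz hw h1 h2, map_add]
  ring

/-- the defect is additive -/
lemma df_add_one {σ : ℂ ≃+* ℂ} {z z' w w' : ℂ} (h : Rl L σ z z') (h' : Rl L σ w w')
    (hz : z ∉ L.lattice) (hw : w ∉ L.lattice) (h1 : z + w ∉ L.lattice)
    (h2 : z - w ∉ L.lattice) :
    σ (E1 L p q (z + w)) - E1 L p q (z' + w') = (σ (E1 L p q z) - E1 L p q z') +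
      (σ (E1 L p q w) - E1 L p q w') := by
  have hz' : z' ∉ L.lattice := fun hc => hz (h.mem_iff.2 hc)
  have hw' : w' ∉ L.lattice := fun hc => hw (h'.mem_iff.2 hc)
  have h1' : z' + w' ∉ L.lattice := fun hc => h1 ((h.sum_mem_iff h').2 hc)
  have h2' : z' - w' ∉ L.lattice := fun hc => h2 ((h.sub_mem_iff h').2 hc)
  rw [E1_add hz hw h1 h2, E1_add hz' hw' h1' h2']
  obtain ⟨a1, a2⟩ := h.vals hz
  obtain ⟨a3, a4⟩ := h'.vals hw
  simp only [map_add, map_div₀, map_sub, map_mul, map_ofNat, a1, a2, a3, a4]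
  ring

/-- **The values at torsion points.** -/
theorem E1_map (hpq : ∀ l ∈ L.lattice, eta L l = p * l + q * (starRingEnd ℂ) l) {σ : ℂ ≃+* ℂ}
    (hg2 : σ L.g₂ = L.g₂) (hg3 : σ L.g₃ = L.g₃) {z z' : ℂ} (h : Rl L σ z z')
    (hz : z ∉ L.lattice) {N : ℕ} (hN : 0 < N) (hNz : (N : ℂ) * z ∈ L.lattice) :
    σ (E1 L p q z) = E1 L p q z' := by
  classical
  obtain ⟨s, hs⟩ := exists_gen L ((Finset.range (N + 2)).image fun j : ℕ => (j : ℂ) * z - z)
  obtain ⟨s', hs'⟩ := Rl.exists (L := L) (σ := σ) hg2 hg3 s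
  have hsj : ∀ j : ℕ, j < N + 2 → s + ((j : ℂ) * z - z) ∉ L.lattice := fun j hj =>
    (hs _ (Finset.mem_image.2 ⟨j, Finset.mem_range.2 hj, rfl⟩)).2
  have hs1 : ∀ j : ℕ, j < N + 1 → s + (j : ℂ) * z ∉ L.lattice := by
    intro j hj
    have := hsj (j + 1) (by omega)
    push_cast at this
    rwa [show ((j : ℂ) + 1) * z - z = j * z by ring] at this
  have key : ∀ j : ℕ, j ≤ N → σ (E1 L p q (s + j * z)) - E1 L p q (s' + j * z') =
      (σ (E1 L p q s) - E1 L p q s') + j * (σ (E1 L p q z) - E1 L p q z') := by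
    intro j
    induction j with
    | zero =>
      intro _
      simp
    | succ j ih =>
      intro hj
      have h1 := ih (by omega)
      have h2 : Rl L σ (s + j * z) (s' + j * z') := hs'.add hg2 hg3 (h.nat_mul hg2 hg3 j)
      have h3 := df_add_one (p := p) (q := q) h2 h (hs1 j (by omega)) hz (by
        have := hs1 (j + 1) (by omega)
        push_cast at this
        rwa [show s + ((j : ℂ) + 1) * z = s + j * z + z by ring] at this) (by
        have := hsj j (by omega)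
        rwa [← add_sub_assoc] at this)
      rw [h1] at h3
      push_cast
      rw [show s + ((j : ℂ) + 1) * z = s + j * z + z by ring,
        show s' + ((j : ℂ) + 1) * z' = s' + j * z' + z' by ring, h3]
      ring
  have h1 := key N le_rfl
  have hs0 : s ∉ L.lattice := by
    have := hs1 0 (by omega)
    simpa using this
  have hs0' : s' ∉ L.lattice := fun hc => hs0 (hs'.mem_iff.2 hc)
  have hNz' : (N : ℂ) * z' ∈ L.lattice := (h.nat_mul hg2 hg3 N).mem_iff.1 hNz
  rw [E1_per hpq hs0 hNz, E1_per hpq hs0' hNz'] at h1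
  have h2 : (N : ℂ) * (σ (E1 L p q z) - E1 L p q z') = 0 := by linear_combination -h1
  have hN0 : (N : ℂ) ≠ 0 := by exact_mod_cast hN.ne'
  have h3 := (mul_eq_zero.1 h2).resolve_left hN0
  linear_combination h3

/-! ### the polynomial is fixed -/

lemma map_Uu {σ : ℂ ≃+* ℂ} {g : ℂ} (hp : σ p = p) (hg : σ g = g) (i : ℕ) :
    MvPolynomial.map (σ : ℂ →+* ℂ) (Uu p g i) = Uu p g i := by
  induction i with
  | zero =>
    unfold Uu
    exact map_one _
  | succ i ih =>
    unfold Uu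
    rw [map_add, map_mul, map_Dv σ hp hg, ih, MvPolynomial.map_X]

lemma map_Pp {σ : ℂ ≃+* ℂ} (hp : σ p = p) (hg2 : σ L.g₂ = L.g₂) (hg3 : σ L.g₃ = L.g₃) (n : ℕ) :
    MvPolynomial.map (σ : ℂ →+* ℂ) (Pp L p n) = Pp L p n := by
  have hA : MvPolynomial.map (σ : ℂ →+* ℂ) (Aa L p (n + 1)) = Aa L p (n + 1) := by
    unfold Aa
    rw [map_sum]
    refine Finset.sum_congr rfl fun i _ => ?_
    have hr : σ (rh L p (n + 1 - i)) = rh L p (n + 1 - i) :=
      (Fx_Mm L hp hg2 hg3 (n + 1 - i)).fx _ le_rfl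
    rw [map_mul, MvPolynomial.map_C, RingEquiv.coe_toRingHom, map_mul, map_natCast, hr,
      map_Uu hp hg2]
  have hD : ∀ k : ℕ, MvPolynomial.map (σ : ℂ →+* ℂ) ((Dv p L.g₂)^[k] (Aa L p (n + 1))) =
      (Dv p L.g₂)^[k] (Aa L p (n + 1)) := by
    intro k
    induction k with
    | zero => exact hA
    | succ k ih =>
      rw [Function.iterate_succ_apply', map_Dv σ hp hg2, ih]
  unfold Pp
  rw [map_mul, MvPolynomial.map_C, hD, RingEquiv.coe_toRingHom, map_div₀, map_one, map_natCast]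

/-- the value of the elliptic expression -/
noncomputable def ek (L : PeriodPair) (p q : ℂ) (n : ℕ) (z : ℂ) : ℂ :=
  evz L p q ((starRingEnd ℂ) z) z (Pp L p n)

lemma ek_per (hpq : ∀ l ∈ L.lattice, eta L l = p * l + q * (starRingEnd ℂ) l) (n : ℕ) {z w : ℂ}
    (hz : z ∉ L.lattice) (h : w - z ∈ L.lattice) : ek L p q n w = ek L p q n z := by
  have := evz_add L p q hpq hz h ((starRingEnd ℂ) z) (Pp L p n)
  unfold ek
  rw [← this, ← map_add, add_sub_cancel]

theorem ek_map (hpq : ∀ l ∈ L.lattice, eta L l = p * l + q * (starRingEnd ℂ) l) {σ : ℂ ≃+* ℂ}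
    (hp : σ p = p) (hg2 : σ L.g₂ = L.g₂) (hg3 : σ L.g₃ = L.g₃) (n : ℕ) {z z' : ℂ}
    (h : Rl L σ z z') (hz : z ∉ L.lattice) {N : ℕ} (hN : 0 < N)
    (hNz : (N : ℂ) * z ∈ L.lattice) : σ (ek L p q n z) = ek L p q n z' := by
  unfold ek evz
  rw [map_ev, map_Pp hp hg2 hg3]
  obtain ⟨a1, a2⟩ := h.vals hz
  rw [a1, a2]
  have := E1_map hpq hg2 hg3 h hz hN hNz
  unfold E1 at this
  rw [this]

/-! ### the automorphisms acting linearly -/

variable {R : Subring ℂ} {ω Ω : ℂ}

open Classical in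
/-- a finite set of algebraic numbers such that the automorphisms that fix it act linearly -/
theorem exists_lin2 (hR : QR R ω) (hL : IsLat L R Ω) (h2 : IsAlgebraic ℚ L.g₂)
    (h3 : IsAlgebraic ℚ L.g₃) (hpq : ∀ l ∈ L.lattice, eta L l = p * l + q * (starRingEnd ℂ) l) :
    ∃ S : Finset ℂ, (∀ x ∈ S, IsAlgebraic ℚ x) ∧
    ∀ σ : ℂ ≃+* ℂ, (∀ x ∈ S, σ x = x) → (∀ r : R, σ (r : ℂ) = r) ∧ σ L.g₂ = L.g₂ ∧
      σ L.g₃ = L.g₃ ∧ (∀ z z', Rl L σ z z' → ∀ r : R, Rl L σ (r * z) (r * z')) ∧ σ p = p := by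
  obtain ⟨S, hS, hσ⟩ := exists_lin hR hL h2 h3
  have hα := QR.om_ne hR
  have hm : ∀ w ∈ L.lattice, ω * w ∈ L.lattice := fun w hw => hL.mul ⟨ω, QR.om_mem hR⟩ w hw
  obtain ⟨c, hc, hcc⟩ := wp_mul_alg h2 h3 hα hm
  refine ⟨insert c S, ?_, ?_⟩
  · intro x hx
    rcases Finset.mem_insert.1 hx with rfl | hx
    · exact mem_QB.1 hc
    · exact hS x hx
  · intro σ hx
    obtain ⟨a, b, c', d⟩ := hσ σ (fun x h => hx x (Finset.mem_insert_of_mem h))
    refine ⟨a, b, c', d, ?_⟩
    exact p_fix hpq hα hR.im.ne' hm hcc (a ⟨ω, QR.om_mem hR⟩) (hx c (Finset.mem_insert_self _ _))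

end Pool.Agent.TH936.CW
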