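import Pool.Agent.TH936.CW.Cen
import Pool.Agent.TH936.CM.Eqv

/-!
# Automorphisms of the complex numbers and the central values, general weight
-/

set_option autoImplicit false

open Filter
open scoped Topology PeriodPair

namespace Pool.Agent.TH936.CW

open H667R3 Pool.Agent.W245.EB Pool.Agent.W192.HK Pool.Agent.TH936.CM


variable {R : Subring ℂ} {L : PeriodPair} {Ω p₀ q₀ : ℂ}

lemma Dk_per (hpq : ∀ l ∈ L.lattice, eta L l = p₀ * l + q₀ * (starRingEnd ℂ) l) (e : ℕ) {z z' t t' : ℂ}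
    (h1 : z' - z ∈ L.lattice) (h2 : t' - t ∈ L.lattice) (hz : z ∉ L.lattice)
    (hp : z + t ∉ L.lattice) (hm : z - t ∉ L.lattice) :
    Dk L p₀ q₀ e z' t' = Dk L p₀ q₀ e z t := by
  unfold Dk
  rw [ek_per hpq e hp (w := z' + t') (by
      rw [add_sub_add_comm]
      exact add_mem h1 h2),
    ek_per hpq e hm (w := z' - t') (by
      rw [sub_sub_sub_comm]
      exact sub_mem h1 h2), ek_per hpq e hz h1]

lemma Dk_map (hpq : ∀ l ∈ L.lattice, eta L l = p₀ * l + q₀ * (starRingEnd ℂ) l) {σ : ℂ ≃+* ℂ}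
    (hp : σ p₀ = p₀) (hg2 : σ L.g₂ = L.g₂) (hg3 : σ L.g₃ = L.g₃) (e : ℕ) {z z' t t' : ℂ}
    (h1 : Rl L σ z z') (h2 : Rl L σ t t') (hz : z ∉ L.lattice)
    (hzp : z + t ∉ L.lattice) (hzm : z - t ∉ L.lattice) {N : ℕ} (hN : 0 < N)
    (hNz : (N : ℂ) * z ∈ L.lattice) (hNt : (N : ℂ) * t ∈ L.lattice) :
    σ (Dk L p₀ q₀ e z t) = Dk L p₀ q₀ e z' t' := by
  unfold Dk
  have e1 := ek_map hpq hp hg2 hg3 e (h1.add hg2 hg3 h2) hzp hN (by
    rw [mul_add]
    exact add_mem hNz hNt)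
  have h3 := h1.add hg2 hg3 h2.neg
  rw [← sub_eq_add_neg, ← sub_eq_add_neg] at h3
  have e2 := ek_map hpq hp hg2 hg3 e h3 hzm hN (by
    rw [mul_sub]
    exact sub_mem hNz hNt)
  have e3 := ek_map hpq hp hg2 hg3 e h1 hz hN hNz
  rw [map_sub, map_add, map_mul, map_ofNat, e1, e2, e3]

set_option maxHeartbeats 1000000 in
theorem BB_map (hL : IsLat L R Ω) (hpq : ∀ l ∈ L.lattice, eta L l = p₀ * l + q₀ * (starRingEnd ℂ) l)
    {σ : ℂ ≃+* ℂ} (hp₀ : σ p₀ = p₀) (hg2 : σ L.g₂ = L.g₂) (hg3 : σ L.g₃ = L.g₃) (w : ℕ)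
    {n k m : ℕ} (hn : 0 < n) (hkm : k = n * m + 1)
    [Fintype (R ⧸ sp (n : R))] [Fintype (R ⧸ sp (k : R))] {u v : R}
    (huv : u * v - 1 ∈ sp ((n * k : ℕ) : R))
    (hu : ∀ r : R, Rl L σ (Ω * r / (n * k : ℕ)) (Ω * (u * r : R) / (n * k : ℕ)))
    {c c' : R → ℂ} (hcc : ∀ x, σ (c x) = c' x)
    (hc' : ∀ a b : R, a - b ∈ sp (n : R) → c' a = c' b)
    (hc0 : ∀ a ∈ sp (n : R), c' a = 0) {e : ℂ} (he : ∀ x, c' (u * x) = e * c' x) :
    e * σ (BB L p₀ q₀ w Ω n k c) = BB L p₀ q₀ w Ω n k c' := by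
  classical
  have hk : 0 < k := by omega
  have hnC : (n : ℂ) ≠ 0 := by exact_mod_cast hn.ne'
  have hkC : (k : ℂ) ≠ 0 := by exact_mod_cast hk.ne'
  have hsub : ∀ m : ℕ, m ∣ n * k → u * v - 1 ∈ sp (m : R) := by
    intro m hm
    obtain ⟨a, ha⟩ := hm
    obtain ⟨w, hw⟩ := Ideal.mem_span_singleton'.1 huv
    rw [Ideal.mem_span_singleton']
    refine ⟨w * a, ?_⟩
    rw [← hw, ha]
    push_cast
    ring
  have hun := hsub n (Dvd.intro _ rfl)
  have huk := hsub k (Dvd.intro_left _ rfl)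
  have hz : ∀ r : R, Rl L σ (Ω * r / n) (Ω * (u * r : R) / n) := by
    intro r
    have h1 := hu (k * r)
    have e1 : Ω * ((k * r : R) : ℂ) / (n * k : ℕ) = Ω * r / n := by
      push_cast
      field_simp
    have e2 : Ω * ((u * (k * r) : R) : ℂ) / (n * k : ℕ) = Ω * (u * r : R) / n := by
      push_cast
      field_simp
    rwa [e1, e2] at h1
  have ht : ∀ r : R, Rl L σ (Ω * r / k) (Ω * (u * r : R) / k) := by
    intro r
    have h1 := hu (n * r)
    have e1 : Ω * ((n * r : R) : ℂ) / (n * k : ℕ) = Ω * r / k := by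
      push_cast
      field_simp
    have e2 : Ω * ((u * (n * r) : R) : ℂ) / (n * k : ℕ) = Ω * (u * r : R) / k := by
      push_cast
      field_simp
    rwa [e1, e2] at h1
  unfold BB
  rw [map_sum, Finset.mul_sum, ← Equiv.sum_comp (Units.mulLeft (uu n u v hun))
    (fun q : R ⧸ sp (n : R) => c' q.out * ∑ p : R ⧸ sp (k : R),
      if p = 0 then 0 else Dk L p₀ q₀ w (Ω * q.out / n) (Ω * p.out / k))]
  refine Finset.sum_congr rfl fun q _ => ?_
  rw [map_mul, hcc, map_sum, ← mul_assoc, ← he, Units.mulLeft_apply,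
    ← hc' _ _ (uu_out n u v hun q)]
  by_cases hq : c' ((uu n u v hun : R ⧸ sp (n : R)) * q).out = 0
  · rw [hq, zero_mul, zero_mul]
  congr 1
  have hqn : (q.out : R) ∉ sp (n : R) := by
    intro h
    apply hq
    rw [hc' _ _ (uu_out n u v hun q), he, hc0 _ h, mul_zero]
  have hqn' : (u * q.out : R) ∉ sp (n : R) := by
    intro h
    apply hq
    rw [hc' _ _ (uu_out n u v hun q), hc0 _ h]
  have hmix : ∀ x : R, x ∉ sp (n : R) → ∀ b : R, Ω * x / n + Ω * b / k ∉ L.lattice := by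
    intro x hx b hb
    obtain ⟨s, hs⟩ := (hL.mem _).1 hb
    have hΩ := hL.ne
    apply hx
    have h1 : (k : R) * x + n * b = n * k * s := by
      apply Subtype.ext
      push_cast
      field_simp at hs
      linear_combination hs
    rw [Ideal.mem_span_singleton']
    refine ⟨k * s - b - m * x, ?_⟩
    have h2 : (k : R) = n * m + 1 := by rw [hkm]; push_cast; ring
    have h3 : (k : R) * x = n * m * x + x := by rw [h2]; ring
    linear_combination h3 - h1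
  have hmix' : ∀ x : R, x ∉ sp (n : R) → ∀ b : R, Ω * x / n - Ω * b / k ∉ L.lattice := by
    intro x hx b
    have := hmix x hx (-b)
    convert this using 2
    push_cast
    ring
  have hzq : Ω * (q.out : R) / n ∉ L.lattice := fun h => hqn ((lat_div_iff hL n hn _).1 h)
  have hzq' : Ω * ((u * q.out : R) : ℂ) / n ∉ L.lattice :=
    fun h => hqn' ((lat_div_iff hL n hn _).1 h)
  rw [← Equiv.sum_comp (Units.mulLeft (uu k u v huk))
    (fun p : R ⧸ sp (k : R) => if p = 0 then 0 else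
      Dk L p₀ q₀ w (Ω * (((uu n u v hun : R ⧸ sp (n : R)) * q).out : R) / n) (Ω * p.out / k))]
  refine Finset.sum_congr rfl fun p _ => ?_
  rw [Units.mulLeft_apply]
  beta_reduce
  by_cases hp : p = 0
  · rw [if_pos hp, hp, mul_zero, if_pos rfl, map_zero]
  · have hp' : (uu k u v huk : R ⧸ sp (k : R)) * p ≠ 0 := by
      intro h
      exact hp ((Units.mul_right_eq_zero _).1 h)
    rw [if_neg hp, if_neg hp']
    have hΩ1 : ∀ x : R, ((n * k : ℕ) : ℂ) * (Ω * x / n) ∈ L.lattice := by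
      intro x
      have : ((n * k : ℕ) : ℂ) * (Ω * x / n) = Ω * (k * x : R) := by
        push_cast
        field_simp
      rw [this]
      exact hL.mem_mul _
    have hΩ2 : ∀ x : R, ((n * k : ℕ) : ℂ) * (Ω * x / k) ∈ L.lattice := by
      intro x
      have : ((n * k : ℕ) : ℂ) * (Ω * x / k) = Ω * (n * x : R) := by
        push_cast
        field_simp
      rw [this]
      exact hL.mem_mul _
    rw [Dk_map hpq hp₀ hg2 hg3 w (hz q.out) (ht p.out) hzq (hmix _ hqn _) (hmix' _ hqn _)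
      (Nat.mul_pos hn hk) (hΩ1 _) (hΩ2 _)]
    refine (Dk_per hpq w ?_ ?_ hzq' (hmix _ hqn' _) (hmix' _ hqn' _)).symm
    · exact lat_sub hL hn (uu_out n u v hun q)
    · exact lat_sub hL hk (uu_out k u v huk p)

theorem galK (h2 : H_FP) {ω : ℂ} (hR : QR R ω) (hL : IsLat L R Ω)
    (hpq : ∀ l ∈ L.lattice, eta L l = p₀ * l + q₀ * (starRingEnd ℂ) l) {q : Ideal R}
    {s : Finset (Ideal R)} {n k m : ℕ} (hn : 0 < n) (hkm : k = n * m + 1) (hnq : (n : R) ∈ q)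
    (hnb : ∀ b ∈ s, (n : R) ∈ b) [Fintype (R ⧸ sp (n : R))] [Fintype (R ⧸ sp (k : R))]
    (hfin : Finite (R ⧸ sp ((n * k : ℕ) : R))) {σ : ℂ ≃+* ℂ} (hσR : ∀ r : R, σ (r : ℂ) = r)
    (hσ2 : σ L.g₂ = L.g₂) (hσ3 : σ L.g₃ = L.g₃) (hσp : σ p₀ = p₀)
    (hlin : ∀ z z', Rl L σ z z' → ∀ r : R, Rl L σ (r * z) (r * z')) {θ θ' : Ideal R → ℂ} {w : ℕ}
    (hθ : HC (2 * w + 1) q θ) (hθ' : HC (2 * w + 1) q θ') (hσθ : ∀ I, σ (θ I) = θ' I) :
    ∑ b ∈ s, θ b * ((nm b : ℂ) ^ w)⁻¹ * BB L p₀ q₀ w Ω n k (ck w θ b) = 0 ↔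
      ∑ b ∈ s, θ' b * ((nm b : ℂ) ^ w)⁻¹ * BB L p₀ q₀ w Ω n k (ck w θ' b) = 0 := by
  have hk : 0 < k := by omega
  have hnk : 0 < n * k := Nat.mul_pos hn hk
  obtain ⟨u, v, huv, hu⟩ := exists_unit hL σ hσ2 hσ3 hlin (n * k) hnk hfin
  have hq1 : HC (2 * (w + 1) - 1) q θ := hθ
  have hqt := hq1.ne_top (Nat.succ_le_succ (Nat.zero_le _))
  obtain ⟨-, f2, f3, f4, f5⟩ := h2 R ω hR (2 * w + 1) q θ hθ hqt
  obtain ⟨-, f2', f3', f4', f5'⟩ := h2 R ω hR (2 * w + 1) q θ' hθ' hqt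
  have hfp : ∀ x : R, σ (fp (2 * w + 1) θ x) = fp (2 * w + 1) θ' x := by
    intro x
    unfold fp
    rw [map_div₀, map_pow, hσθ, hσR]
  have hconj : ∀ (φ : Ideal R → ℂ), (∀ α : R, fp (2 * w + 1) φ α = 0 ↔ ¬ IsCoprime (sp α) q) →
      (∀ α : R, IsCoprime (sp α) q → ‖fp (2 * w + 1) φ α‖ = 1) → ∀ x : R,
      (starRingEnd ℂ) (fp (2 * w + 1) φ x) = (fp (2 * w + 1) φ x)⁻¹ := by
    intro φ g3 g4 x
    by_cases h : IsCoprime (sp x) q
    · have h6 := g4 x h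
      rw [Complex.inv_def, Complex.normSq_eq_norm_sq, h6]
      simp
    · rw [(g3 x).2 h, map_zero, inv_zero]
  have hcc : ∀ b x, σ (ck w θ b x) = ck w θ' b x := by
    intro b x
    unfold ck
    split_ifs
    · rw [hconj θ f3 f4, hconj θ' f3' f4', map_inv₀, hfp]
    · exact map_zero σ
  have hnmσ : ∀ b : Ideal R, σ (nm b : ℂ) = (nm b : ℂ) := by
    intro b
    unfold nm
    push_cast
    exact map_natCast σ _
  -- `u` is a unit modulo `q`
  have hin : ∀ I : Ideal R, (n : R) ∈ I → u * v - 1 ∈ I := by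
    intro I hI
    obtain ⟨w, hw⟩ := Ideal.mem_span_singleton'.1 huv
    rw [← hw]
    push_cast
    rw [← mul_assoc]
    exact I.mul_mem_right _ (I.mul_mem_left _ hI)
  have hucop : IsCoprime (sp u) q := by
    rw [Ideal.isCoprime_iff_sup_eq, Ideal.eq_top_iff_one]
    have h6 : (1 : R) = u * v - (u * v - 1) := by ring
    rw [h6]
    refine Ideal.sub_mem _ ?_ (Ideal.mem_sup_right (hin q hnq))
    exact Ideal.mem_sup_left (Ideal.mul_mem_right _ _ (Ideal.mem_span_singleton_self u))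
  set e : ℂ := (starRingEnd ℂ) (fp (2 * w + 1) θ' u) with he
  have he0 : e ≠ 0 := by
    rw [he]
    refine (map_ne_zero _).2 ?_
    rw [Ne, f3', not_not]
    exact hucop
  have hmem : ∀ b ∈ s, ∀ x : R, u * x ∈ b ↔ x ∈ b := by
    intro b hb x
    constructor
    · intro h
      have h6 : x = v * (u * x) - (u * v - 1) * x := by ring
      rw [h6]
      exact b.sub_mem (b.mul_mem_left _ h) (b.mul_mem_right _ (hin b (hnb b hb)))
    · exact fun h => b.mul_mem_left _ h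
  have hcu : ∀ b ∈ s, ∀ x : R, ck w θ' b (u * x) = e * ck w θ' b x := by
    intro b hb x
    unfold ck
    by_cases hx : x ∈ b
    · rw [if_pos hx, if_pos ((hmem b hb x).2 hx), f2', map_mul]
    · rw [if_neg hx, if_neg (fun h => hx ((hmem b hb x).1 h)), mul_zero]
  have hmain : e * σ (∑ b ∈ s, θ b * ((nm b : ℂ) ^ w)⁻¹ * BB L p₀ q₀ w Ω n k (ck w θ b)) =
      ∑ b ∈ s, θ' b * ((nm b : ℂ) ^ w)⁻¹ * BB L p₀ q₀ w Ω n k (ck w θ' b) := by
    rw [map_sum, Finset.mul_sum]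
    refine Finset.sum_congr rfl fun b hb => ?_
    obtain ⟨g1, g2, -, -⟩ := ck_facts h2 hR hθ' hnq (hnb b hb)
    rw [map_mul, map_mul, map_inv₀, map_pow, hnmσ, hσθ, mul_left_comm,
      BB_map hL hpq hσp hσ2 hσ3 w hn hkm huv hu (hcc b) g1 g2 (hcu b hb)]
  constructor
  · intro h
    rw [← hmain, h, map_zero, mul_zero]
  · intro h
    rw [h] at hmain
    exact (map_eq_zero σ).1 ((mul_eq_zero.1 hmain).resolve_left he0)

end Pool.Agent.TH936.CW
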