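import Pool.Agent.TH936.CM.Tor
import Pool.Agent.H667R3.W7

/-!
# Taylor coefficients at zero that are fixed by an automorphism
-/

set_option autoImplicit false

open Filter
open scoped Topology PeriodPair

namespace Pool.Agent.TH936.CW

open H667R3

/-- the Taylor coefficients up to `N` are fixed -/
structure Fx (σ : ℂ ≃+* ℂ) (N : ℕ) (f : ℂ → ℂ) : Prop where
  an : AnalyticAt ℂ f 0
  fx : ∀ n ≤ N, σ (iteratedDeriv n f 0) = iteratedDeriv n f 0

variable {σ : ℂ ≃+* ℂ} {N : ℕ} {f g : ℂ → ℂ}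

lemma cd {f : ℂ → ℂ} (h : AnalyticAt ℂ f 0) (n : ℕ) : ContDiffAt ℂ n f 0 := h.contDiffAt

lemma Fx.mono (h : Fx σ N f) {M : ℕ} (hM : M ≤ N) : Fx σ M f :=
  ⟨h.an, fun n hn => h.fx n (hn.trans hM)⟩

lemma Fx.const {a : ℂ} (ha : σ a = a) : Fx σ N (fun _ => a) := by
  refine ⟨analyticAt_const, fun n _ => ?_⟩
  rw [iteratedDeriv_const]
  split_ifs
  · exact ha
  · exact map_zero σ

lemma Fx.id : Fx σ N (fun z => z) := by
  refine ⟨analyticAt_id, fun n _ => ?_⟩
  rw [iteratedDeriv_fun_id_zero]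
  split_ifs
  · exact map_one σ
  · exact map_zero σ

lemma Fx.congr (h : Fx σ N f) (he : f =ᶠ[𝓝 0] g) : Fx σ N g := by
  refine ⟨h.an.congr he, fun n hn => ?_⟩
  rw [← he.iteratedDeriv_eq n]
  exact h.fx n hn

lemma Fx.add (hf : Fx σ N f) (hg : Fx σ N g) : Fx σ N (fun z => f z + g z) := by
  refine ⟨hf.an.add hg.an, fun n hn => ?_⟩
  have : iteratedDeriv n (fun z => f z + g z) 0 = iteratedDeriv n f 0 + iteratedDeriv n g 0 :=
    iteratedDeriv_add (cd hf.an n) (cd hg.an n)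
  rw [this, map_add, hf.fx n hn, hg.fx n hn]

lemma Fx.mul (hf : Fx σ N f) (hg : Fx σ N g) : Fx σ N (fun z => f z * g z) := by
  refine ⟨hf.an.mul hg.an, fun n hn => ?_⟩
  have h1 : iteratedDeriv n (fun z => f z * g z) 0 = ∑ i ∈ Finset.range (n + 1),
      n.choose i * iteratedDeriv i f 0 * iteratedDeriv (n - i) g 0 :=
    iteratedDeriv_mul (cd hf.an n) (cd hg.an n)
  rw [h1, map_sum]
  refine Finset.sum_congr rfl fun i hi => ?_
  have hi' : i ≤ n := by
    have := Finset.mem_range.1 hi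
    omega
  rw [map_mul, map_mul, map_natCast, hf.fx i (hi'.trans hn), hg.fx (n - i) (by omega)]

lemma Fx.cmul {a : ℂ} (ha : σ a = a) (hf : Fx σ N f) : Fx σ N (fun z => a * f z) :=
  (Fx.const ha).mul hf

lemma iter_zmul {f : ℂ → ℂ} (hf : AnalyticAt ℂ f 0) (n : ℕ) :
    iteratedDeriv n (fun z => z * f z) 0 = n * iteratedDeriv (n - 1) f 0 := by
  have h1 : iteratedDeriv n (fun z => z * f z) 0 = ∑ i ∈ Finset.range (n + 1),
      n.choose i * iteratedDeriv i (fun z : ℂ => z) 0 * iteratedDeriv (n - i) f 0 :=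
    iteratedDeriv_mul (cd analyticAt_id n) (cd hf n)
  rw [h1]
  rcases Nat.eq_zero_or_pos n with rfl | hn
  · simp
  · rw [Finset.sum_eq_single 1]
    · rw [iteratedDeriv_fun_id_zero]
      simp
    · intro i _ hi
      rw [iteratedDeriv_fun_id_zero, if_neg hi]
      simp
    · intro h
      exact absurd (Finset.mem_range.2 (by omega)) h

lemma Fx.zmul (hf : Fx σ N f) : Fx σ (N + 1) (fun z => z * f z) := by
  refine ⟨analyticAt_id.mul hf.an, fun n hn => ?_⟩
  rw [iter_zmul hf.an, map_mul, map_natCast, hf.fx (n - 1) (by omega)]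

lemma Fx.zderiv (hf : Fx σ N f) : Fx σ N (fun z => z * deriv f z) := by
  refine ⟨analyticAt_id.mul hf.an.deriv, fun n hn => ?_⟩
  rw [iter_zmul hf.an.deriv, map_mul, map_natCast]
  rcases Nat.eq_zero_or_pos n with rfl | hn'
  · simp
  · rw [← iteratedDeriv_succ', Nat.sub_add_cancel hn', hf.fx n hn]

lemma Fx.of_deriv (hf : AnalyticAt ℂ f 0) (h0 : σ (f 0) = f 0) (h : Fx σ N (deriv f)) :
    Fx σ (N + 1) f := by
  refine ⟨hf, fun n hn => ?_⟩
  rcases Nat.eq_zero_or_pos n with rfl | hn'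
  · rw [iteratedDeriv_zero]
    exact h0
  · obtain ⟨m, rfl⟩ : ∃ m, n = m + 1 := ⟨n - 1, by omega⟩
    rw [iteratedDeriv_succ']
    exact h.fx m (by omega)

variable (L : PeriodPair)

/-- the regular part of `℘` at `0` -/
noncomputable def Rw (z : ℂ) : ℂ := L.weierstrassPExcept 0 z

lemma Rw_eq {z : ℂ} : ℘[L] z = Rw L z + 1 / z ^ 2 := by
  have := L.weierstrassPExcept_add (0 : L.lattice) z
  simp only [ZeroMemClass.coe_zero, sub_zero] at this
  rw [← this]
  unfold Rw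
  simp

lemma Rw_an : AnalyticAt ℂ (Rw L) 0 := L.analyticAt_weierstrassPExcept 0

lemma near : ∀ᶠ z in 𝓝[≠] (0 : ℂ), z ∉ L.lattice := by
  have h2 : ((L.lattice : Set ℂ) \ {0})ᶜ ∈ 𝓝 (0 : ℂ) := L.compl_lattice_sdiff_singleton_mem_nhds 0
  filter_upwards [nhdsWithin_le_nhds h2, self_mem_nhdsWithin] with z hz hz' h
  exact hz ⟨h, hz'⟩

lemma Rw_ode : ∀ᶠ z in 𝓝 (0 : ℂ), 12 * Rw L z + 4 * (z * deriv (Rw L) z) =
    z * (z * ((z * deriv (Rw L) z) * (z * deriv (Rw L) z) +
      (-4) * (z * (z * (Rw L z * (Rw L z * Rw L z)))) + (-12) * (Rw L z * Rw L z) +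
      L.g₂ * (z * (z * Rw L z)) + L.g₂ + L.g₃ * (z * z))) := by
  have hR := Rw_an L
  have hR' := hR.deriv
  refine (ContinuousAt.eventuallyEq_nhds_iff_eventuallyEq_nhdsNE (f := fun z => 12 * Rw L z +
    4 * (z * deriv (Rw L) z)) (g := fun z => z * (z * ((z * deriv (Rw L) z) *
      (z * deriv (Rw L) z) +
      (-4) * (z * (z * (Rw L z * (Rw L z * Rw L z)))) + (-12) * (Rw L z * Rw L z) +
      L.g₂ * (z * (z * Rw L z)) + L.g₂ + L.g₃ * (z * z)))) ?_ ?_).1 ?_
  rotate_left 2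
  · filter_upwards [near L, self_mem_nhdsWithin,
      (hR.eventually_analyticAt).filter_mono nhdsWithin_le_nhds] with z hz hz0 hza
    have hz0' : z ≠ 0 := hz0
    have h1 := L.derivWeierstrassP_sq z hz
    have h2 : ℘'[L] z = deriv (Rw L) z - 2 / z ^ 3 := by
      have h3 := hasDerivAt_weierstrassP L hz
      have h4 : HasDerivAt (fun z => Rw L z + 1 / z ^ 2) (deriv (Rw L) z - 2 / z ^ 3) z := by
        have h5 := hza.differentiableAt.hasDerivAt
        have h6 : HasDerivAt (fun z : ℂ => 1 / z ^ 2) (-2 / z ^ 3) z := by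
          have h7 := (hasDerivAt_pow 2 z).inv (pow_ne_zero 2 hz0')
          have h8 : (fun z : ℂ => 1 / z ^ 2) = (fun z : ℂ => z ^ 2)⁻¹ := by
            funext z
            simp
          rw [h8]
          refine h7.congr_deriv ?_
          push_cast
          field_simp
        refine (h5.add h6).congr_deriv ?_
        ring
      have h5 : ℘[L] = fun z => Rw L z + 1 / z ^ 2 := funext fun z => Rw_eq L
      rw [h5] at h3
      exact h3.unique h4
    rw [h2, Rw_eq L] at h1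
    field_simp at h1
    refine mul_left_cancel₀ (pow_ne_zero 2 hz0') ?_
    linear_combination (-1 : ℂ) * h1
  · fun_prop
  · fun_prop

lemma Fx_Rw (h2 : σ L.g₂ = L.g₂) (h3 : σ L.g₃ = L.g₃) (N : ℕ) : Fx σ N (Rw L) := by
  have hR := Rw_an L
  have hode := Rw_ode L
  induction N with
  | zero =>
    refine ⟨hR, fun n hn => ?_⟩
    have hn0 : n = 0 := by omega
    subst hn0
    have h0 := hode.self_of_nhds
    simp only [zero_mul, mul_zero, add_zero] at h0
    have h1 : Rw L 0 = 0 := by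
      rcases mul_eq_zero.1 h0 with h | h
      · norm_num at h
      · exact h
    rw [iteratedDeriv_zero, h1, map_zero]
  | succ N ih =>
    refine ⟨hR, fun n hn => ?_⟩
    by_cases hnN : n ≤ N
    · exact ih.fx n hnN
    have hn' : n = N + 1 := by omega
    subst hn'
    have i1 : Fx σ N (fun z => z * deriv (Rw L) z) := ih.zderiv
    have c4 : σ (-4) = -4 := by rw [map_neg, map_ofNat]
    have c12 : σ (-12) = -12 := by rw [map_neg, map_ofNat]
    have hin : Fx σ N (fun z => (z * deriv (Rw L) z) * (z * deriv (Rw L) z) +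
      (-4) * (z * (z * (Rw L z * (Rw L z * Rw L z)))) + (-12) * (Rw L z * Rw L z) +
      L.g₂ * (z * (z * Rw L z)) + L.g₂ + L.g₃ * (z * z)) := by
      refine Fx.add (Fx.add (Fx.add (Fx.add (Fx.add (i1.mul i1) (Fx.cmul c4 ?_))
        (Fx.cmul c12 (ih.mul ih))) (Fx.cmul h2 ?_)) (Fx.const h2)) (Fx.cmul h3 ?_)
      · exact Fx.id.mul (Fx.id.mul (ih.mul (ih.mul ih)))
      · exact Fx.id.mul (Fx.id.mul ih)
      · exact Fx.id.mul Fx.id
    have hrhs := (hin.zmul.zmul).congr (EventuallyEq.symm hode)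
    have hf := hrhs.fx (N + 1) (by omega)
    have e1 : iteratedDeriv (N + 1) (fun z => 12 * Rw L z + 4 * (z * deriv (Rw L) z)) 0 =
        (4 * N + 16 : ℕ) * iteratedDeriv (N + 1) (Rw L) 0 := by
      have a1 : iteratedDeriv (N + 1) (fun z => 12 * Rw L z + 4 * (z * deriv (Rw L) z)) 0 =
          iteratedDeriv (N + 1) (fun z => 12 * Rw L z) 0 +
          iteratedDeriv (N + 1) (fun z => 4 * (z * deriv (Rw L) z)) 0 :=
        iteratedDeriv_add (cd (by fun_prop) _) (cd (by fun_prop) _)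
      rw [a1, iteratedDeriv_const_mul_field, iteratedDeriv_const_mul_field, iter_zmul hR.deriv,
        Nat.add_sub_cancel, ← iteratedDeriv_succ']
      push_cast
      ring
    have e2 : (fun z => 12 * Rw L z + 4 * (z * deriv (Rw L) z)) = fun z => 12 * Rw L z +
        4 * (z * deriv (Rw L) z) := rfl
    rw [e1, map_mul, map_natCast] at hf
    refine mul_left_cancel₀ ?_ hf
    exact_mod_cast (by omega : 4 * N + 16 ≠ 0)

lemma zreg_an : AnalyticAt ℂ (zreg L) 0 := by
  unfold zreg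
  refine AnalyticAt.div ?_ ?_ ?_
  · exact ((differentiable_Pi' L).analyticAt 0).deriv
  · exact (differentiable_Pi' L).analyticAt 0
  · rw [Pi'_zero]
    exact one_ne_zero

lemma zreg_zero : zreg L 0 = 0 := by
  have h1 : deriv (Pi' L) 0 = 0 := by
    have h2 : HasDerivAt (Pi' L) (deriv (Pi' L) 0) 0 := ((differentiable_Pi' L) 0).hasDerivAt
    have h3 : HasDerivAt (fun z => Pi' L (-z)) (-deriv (Pi' L) 0) 0 := by
      have h4 : HasDerivAt (Pi' L) (deriv (Pi' L) 0) (-0) := by rwa [neg_zero]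
      have h6 := h4.comp (0 : ℂ) (hasDerivAt_neg (0 : ℂ))
      refine h6.congr_deriv ?_
      ring
    have h5 : (fun z => Pi' L (-z)) = Pi' L := funext fun z => Pi'_neg L z
    rw [h5] at h3
    have := h2.unique h3
    linear_combination (1 / 2 : ℂ) * this
  unfold zreg
  rw [h1, zero_div]

lemma zreg_deriv : deriv (zreg L) =ᶠ[𝓝 0] fun z => -Rw L z := by
  have hR := Rw_an L
  have hz := zreg_an L
  rw [← ContinuousAt.eventuallyEq_nhds_iff_eventuallyEq_nhdsNE]
  · have h1 : ∀ᶠ z in 𝓝[≠] (0 : ℂ), z ∉ L.lattice := near L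
    filter_upwards [h1, self_mem_nhdsWithin] with z hz1 hz0
    have hz0' : z ≠ 0 := hz0
    have h2 : HasDerivAt (fun z => zeta L z - 1 / z) (-℘[L] z + 1 / z ^ 2) z := by
      have h3 : HasDerivAt (fun z : ℂ => 1 / z) (-(z ^ 2)⁻¹) z := by
        simpa using hasDerivAt_inv hz0'
      refine ((hasDerivAt_zeta L hz1).sub h3).congr_deriv ?_
      rw [one_div]
      ring
    have h4 : zreg L =ᶠ[𝓝 z] fun z => zeta L z - 1 / z := by
      filter_upwards [(isOpen_compl L).mem_nhds hz1] with u hu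
      exact zreg_eq hu
    have h5 := (h2.congr_of_eventuallyEq h4).deriv
    rw [h5, Rw_eq L]
    ring
  · exact hz.deriv.continuousAt
  · exact hR.continuousAt.neg

lemma Fx_zreg (h2 : σ L.g₂ = L.g₂) (h3 : σ L.g₃ = L.g₃) (N : ℕ) : Fx σ N (zreg L) := by
  have h4 : Fx σ N (fun z => (-1 : ℂ) * Rw L z) :=
    Fx.cmul (by rw [map_neg, map_one]) (Fx_Rw L h2 h3 N)
  refine Fx.mono (Fx.of_deriv (zreg_an L) (by rw [zreg_zero, map_zero])
    (h4.congr ?_)) (Nat.le_succ N)
  filter_upwards [zreg_deriv L] with z hz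
  rw [hz]
  ring

/-- `θ(w) / w` -/
noncomputable def Tt (p : ℂ) (w : ℂ) : ℂ := Complex.exp (-(p * w ^ 2 / 2)) * Pi' L w

lemma Tt_diff (p : ℂ) : Differentiable ℂ (Tt L p) := by
  unfold Tt
  exact Differentiable.mul (by fun_prop) (differentiable_Pi' L)

lemma Tt_zero (p : ℂ) : Tt L p 0 = 1 := by
  unfold Tt
  rw [Pi'_zero]
  simp

/-- `w / θ(w)` -/
noncomputable def Mm (p : ℂ) (w : ℂ) : ℂ := (Tt L p w)⁻¹

lemma Mm_an (p : ℂ) : AnalyticAt ℂ (Mm L p) 0 :=
  ((Tt_diff L p).analyticAt 0).inv (by rw [Tt_zero]; exact one_ne_zero)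

lemma Mm_deriv (p : ℂ) : deriv (Mm L p) =ᶠ[𝓝 0] fun w => Mm L p w * (p * w - zreg L w) := by
  have h1 : ∀ᶠ w in 𝓝 (0 : ℂ), Pi' L w ≠ 0 :=
    (differentiable_Pi' L).continuous.continuousAt.eventually_ne (by
      rw [Pi'_zero]; exact one_ne_zero)
  filter_upwards [h1] with w hw
  have h2 : HasDerivAt (Pi' L) (deriv (Pi' L) w) w := ((differentiable_Pi' L) w).hasDerivAt
  have h3 : HasDerivAt (fun w : ℂ => Complex.exp (-(p * w ^ 2 / 2)))
      (Complex.exp (-(p * w ^ 2 / 2)) * (-(p * w))) w := by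
    refine HasDerivAt.cexp ?_
    have h4 := (((hasDerivAt_pow 2 w).const_mul p).div_const 2).neg
    refine h4.congr_deriv ?_
    push_cast
    ring
  have h5 : HasDerivAt (Tt L p) (Complex.exp (-(p * w ^ 2 / 2)) * (-(p * w)) * Pi' L w +
      Complex.exp (-(p * w ^ 2 / 2)) * deriv (Pi' L) w) w := h3.mul h2
  have hne : Tt L p w ≠ 0 := mul_ne_zero (Complex.exp_ne_zero _) hw
  have h6 := (h5.inv hne).deriv
  have h7 : Mm L p = (Tt L p)⁻¹ := rfl
  rw [h7, h6]
  simp only [Pi.inv_apply]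
  unfold zreg
  have hE : Complex.exp (-(p * w ^ 2 / 2)) ≠ 0 := Complex.exp_ne_zero _
  have h8 : Tt L p w = Complex.exp (-(p * w ^ 2 / 2)) * Pi' L w := rfl
  rw [h8]
  field_simp
  ring

lemma Fx_Mm {p : ℂ} (hp : σ p = p) (h2 : σ L.g₂ = L.g₂) (h3 : σ L.g₃ = L.g₃) (N : ℕ) :
    Fx σ N (Mm L p) := by
  have hM0 : Mm L p 0 = 1 := by
    unfold Mm
    rw [Tt_zero, inv_one]
  induction N with
  | zero =>
    refine ⟨Mm_an L p, fun n hn => ?_⟩
    have hn0 : n = 0 := by omega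
    subst hn0
    rw [iteratedDeriv_zero, hM0, map_one]
  | succ N ih =>
    refine Fx.of_deriv (Mm_an L p) (by rw [hM0, map_one]) ?_
    have h4 : Fx σ N (fun w => Mm L p w * (p * w + (-1) * zreg L w)) :=
      ih.mul ((Fx.cmul hp Fx.id).add (Fx.cmul (by rw [map_neg, map_one]) (Fx_zreg L h2 h3 N)))
    refine h4.congr ?_
    filter_upwards [Mm_deriv L p] with w hw
    rw [hw]
    ring

end Pool.Agent.TH936.CW
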