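import Pool.Agent.TH936.CM.Tor

/-!
# A Liouville theorem in two variables, and the quasi-periods
-/

set_option autoImplicit false

open Filter
open scoped Topology PeriodPair

namespace Pool.Agent.TH936.CW

open H667R3

variable (L : PeriodPair)


lemma det_ne : L.ω₁ * (starRingEnd ℂ) L.ω₂ - (starRingEnd ℂ) L.ω₁ * L.ω₂ ≠ 0 := by
  intro h
  have h1 : (starRingEnd ℂ) (L.ω₁ * (starRingEnd ℂ) L.ω₂) = L.ω₁ * (starRingEnd ℂ) L.ω₂ := by
    rw [map_mul, Complex.conj_conj]
    linear_combination -h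
  obtain ⟨r, hr⟩ := Complex.conj_eq_iff_real.1 h1
  have h2 := LinearIndependent.pair_iff.1 L.indep (Complex.normSq L.ω₂) (-r) (by
    simp only [Complex.real_smul]
    rw [Complex.ofReal_neg, ← hr, Complex.normSq_eq_conj_mul_self]
    ring)
  have h3 : L.ω₂ = 0 := Complex.normSq_eq_zero.1 h2.1
  have h4 := LinearIndependent.pair_iff.1 L.indep 0 1 (by
    rw [h3]
    simp)
  exact one_ne_zero h4.2

lemma lin_zero {a c : ℂ} (h : ∀ l ∈ L.lattice, a * l + c * (starRingEnd ℂ) l = 0) : a = 0 ∧ c = 0 := by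
  have h1 := h _ L.ω₁_mem_lattice
  have h2 := h _ L.ω₂_mem_lattice
  have h3 := det_ne L
  constructor
  · have : a * (L.ω₁ * (starRingEnd ℂ) L.ω₂ - (starRingEnd ℂ) L.ω₁ * L.ω₂) = 0 := by
      linear_combination ((starRingEnd ℂ) L.ω₂) * h1 - ((starRingEnd ℂ) L.ω₁) * h2
    exact (mul_eq_zero.1 this).resolve_right h3
  · have : c * (L.ω₁ * (starRingEnd ℂ) L.ω₂ - (starRingEnd ℂ) L.ω₁ * L.ω₂) = 0 := by
      linear_combination L.ω₁ * h2 - L.ω₂ * h1
    exact (mul_eq_zero.1 this).resolve_right h3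

/-- the quasi-periods are a real linear function of the period -/
lemma exists_pq : ∃ p q : ℂ, ∀ l ∈ L.lattice, eta L l = p * l + q * (starRingEnd ℂ) l := by
  have h3 := det_ne L
  set D := L.ω₁ * (starRingEnd ℂ) L.ω₂ - (starRingEnd ℂ) L.ω₁ * L.ω₂ with hD
  set p : ℂ := (eta L L.ω₁ * (starRingEnd ℂ) L.ω₂ - eta L L.ω₂ * (starRingEnd ℂ) L.ω₁) / D with hp
  set q : ℂ := (eta L L.ω₂ * L.ω₁ - eta L L.ω₁ * L.ω₂) / D with hq
  have e1 : eta L L.ω₁ = p * L.ω₁ + q * (starRingEnd ℂ) L.ω₁ := by
    rw [hp, hq]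
    field_simp
    rw [hD]
    ring
  have e2 : eta L L.ω₂ = p * L.ω₂ + q * (starRingEnd ℂ) L.ω₂ := by
    rw [hp, hq]
    field_simp
    rw [hD]
    ring
  refine ⟨p, q, fun l hl => ?_⟩
  obtain ⟨m, n, rfl⟩ := PeriodPair.mem_lattice.1 hl
  have hm : (m : ℂ) * L.ω₁ ∈ L.lattice := intCast_mul_mem L L.ω₁_mem_lattice m
  have hn : (n : ℂ) * L.ω₂ ∈ L.lattice := intCast_mul_mem L L.ω₂_mem_lattice n
  rw [eta_add L hm hn, eta_zsmul L L.ω₁_mem_lattice, eta_zsmul L L.ω₂_mem_lattice, e1, e2,
    map_add, map_mul, map_mul]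
  have f1 : (starRingEnd ℂ) (m : ℂ) = m := map_intCast _ _
  have f2 : (starRingEnd ℂ) (n : ℂ) = n := map_intCast _ _
  rw [f1, f2]
  ring

lemma dense_compl : Dense ((L.lattice : Set ℂ)ᶜ) := by
  have hc : (L.lattice : Set ℂ).Countable := Wg.wp_inj_count L
  exact hc.dense_compl ℝ

lemma per_const {g : ℂ → ℂ} (hg : Differentiable ℂ g)
    (hper : ∀ l ∈ L.lattice, ∀ z, g (z + l) = g z) : ∀ z, g z = g 0 := by
  have h1 := eq_of_periodic L g (fun z _ => hg z) (fun z _ l hl => hper l hl z) g (hg 0)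
    (Eventually.of_forall fun _ => rfl)
  have h2 : ∀ z, g z = g (L.ω₁ / 2) := by
    have h3 : g = fun _ => g (L.ω₁ / 2) := by
      refine Continuous.ext_on (dense_compl L) hg.continuous continuous_const ?_
      intro z hz
      exact h1 z _ hz L.ω₁_div_two_notMem_lattice
    intro z
    exact congrFun h3 z
  intro z
  rw [h2 z, h2 0]

lemma hasDeriv_poly (n : ℕ) (c : ℕ → ℂ) (v : ℂ) :
    HasDerivAt (fun v : ℂ => ∑ j ∈ Finset.range (n + 2), c j * v ^ j)
      (∑ j ∈ Finset.range (n + 1), (((j : ℂ) + 1) * c (j + 1)) * v ^ j) v := by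
  have h1 : HasDerivAt (fun v : ℂ => ∑ j ∈ Finset.range (n + 2), c j * v ^ j)
      (∑ j ∈ Finset.range (n + 2), c j * (j * v ^ (j - 1))) v :=
    HasDerivAt.fun_sum fun j _ => (hasDerivAt_pow j v).const_mul (c j)
  refine h1.congr_deriv ?_
  rw [Finset.sum_range_succ']
  simp only [Nat.cast_zero, zero_mul, mul_zero, add_zero, Nat.add_sub_cancel]
  refine Finset.sum_congr rfl fun j _ => ?_
  push_cast
  ring

/-- **Liouville's theorem in two variables.** -/
theorem liou : ∀ (n : ℕ) (d : ℕ → ℂ → ℂ), (∀ j, Differentiable ℂ (d j)) →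
    (∀ l ∈ L.lattice, ∀ z v, ∑ j ∈ Finset.range (n + 1), d j (z + l) * (v + (starRingEnd ℂ) l) ^ j =
      ∑ j ∈ Finset.range (n + 1), d j z * v ^ j) →
    ∃ C : ℂ, ∀ z v, ∑ j ∈ Finset.range (n + 1), d j z * v ^ j = C := by
  intro n
  induction n with
  | zero =>
    intro d hd h
    refine ⟨d 0 0, fun z v => ?_⟩
    simp only [zero_add, Finset.range_one, Finset.sum_singleton, pow_zero, mul_one] at h ⊢
    exact per_const L (hd 0) (fun l hl z => h l hl z 0) z
  | succ n ih =>
    intro d hd h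
    obtain ⟨C, hC⟩ := ih (fun j z => ((j : ℂ) + 1) * d (j + 1) z)
      (fun j => (hd (j + 1)).const_mul _) (fun l hl z v => by
        have h1 := hasDeriv_poly n (fun j => d j (z + l)) (v + (starRingEnd ℂ) l)
        have h2 : HasDerivAt (fun v : ℂ => ∑ j ∈ Finset.range (n + 2), d j (z + l) *
            (v + (starRingEnd ℂ) l) ^ j) (∑ j ∈ Finset.range (n + 1), (((j : ℂ) + 1) * d (j + 1) (z + l)) *
            (v + (starRingEnd ℂ) l) ^ j) v := by
          have := h1.comp_add_const v ((starRingEnd ℂ) l)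
          exact this
        have h3 := hasDeriv_poly n (fun j => d j z) v
        have h4 : (fun v : ℂ => ∑ j ∈ Finset.range (n + 2), d j (z + l) * (v + (starRingEnd ℂ) l) ^ j) =
            fun v => ∑ j ∈ Finset.range (n + 2), d j z * v ^ j := funext fun v => h l hl z v
        rw [h4] at h2
        exact h2.unique h3)
    -- `D z v = d 0 z + C v`
    have hD : ∀ z v, ∑ j ∈ Finset.range (n + 2), d j z * v ^ j = d 0 z + C * v := by
      intro z v
      have h1 : ∀ v, HasDerivAt (fun v : ℂ => ∑ j ∈ Finset.range (n + 2), d j z * v ^ j - C * v)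
          0 v := by
        intro v
        have h2 := hasDeriv_poly n (fun j => d j z) v
        have h3 : HasDerivAt (fun v : ℂ => C * v) C v := by
          simpa using (hasDerivAt_id v).const_mul C
        refine (h2.sub h3).congr_deriv ?_
        rw [hC z v, sub_self]
      have h2 := is_const_of_deriv_eq_zero (fun v => (h1 v).differentiableAt)
        (fun v => (h1 v).deriv) v 0
      simp only [mul_zero, sub_zero] at h2
      have h3 : ∑ j ∈ Finset.range (n + 2), d j z * (0 : ℂ) ^ j = d 0 z := by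
        rw [Finset.sum_range_succ']
        simp
      rw [h3] at h2
      linear_combination h2
    have h0 : ∀ l ∈ L.lattice, ∀ z, d 0 (z + l) + C * (starRingEnd ℂ) l = d 0 z := by
      intro l hl z
      have h1 := h l hl z 0
      rw [hD, hD] at h1
      linear_combination h1
    have hd0 : Differentiable ℂ (deriv (d 0)) := (hd 0).deriv
    have hper : ∀ l ∈ L.lattice, ∀ z, deriv (d 0) (z + l) = deriv (d 0) z := by
      intro l hl z
      have h1 : HasDerivAt (fun z => d 0 (z + l) + C * (starRingEnd ℂ) l) (deriv (d 0) (z + l)) z :=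
        (((hd 0) (z + l)).hasDerivAt.comp_add_const z l).add_const _
      have h2 : (fun z => d 0 (z + l) + C * (starRingEnd ℂ) l) = d 0 := funext fun z => h0 l hl z
      rw [h2] at h1
      exact h1.deriv.symm
    set a := deriv (d 0) 0 with ha
    have hconst := per_const L hd0 hper
    have hlin : ∀ z, d 0 z = a * z + d 0 0 := by
      intro z
      have h1 : ∀ z, HasDerivAt (fun z => d 0 z - a * z) 0 z := by
        intro z
        have h3 : HasDerivAt (fun v : ℂ => a * v) a z := by
          simpa using (hasDerivAt_id z).const_mul a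
        refine (((hd 0) z).hasDerivAt.sub h3).congr_deriv ?_
        rw [hconst z, sub_self]
      have h2 := is_const_of_deriv_eq_zero (fun v => (h1 v).differentiableAt)
        (fun v => (h1 v).deriv) z 0
      simp only [mul_zero, sub_zero] at h2
      linear_combination h2
    obtain ⟨ha0, hC0⟩ := lin_zero L (a := a) (c := C) (fun l hl => by
      have h1 := h0 l hl 0
      rw [zero_add, hlin l] at h1
      linear_combination h1)
    refine ⟨d 0 0, fun z v => ?_⟩
    rw [hD, hlin z, ha0, hC0]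
    ring

end Pool.Agent.TH936.CW
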