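import Pool.Agent.TH936.CW.Pol
import Pool.Agent.TH936.CW.Fix
import Pool.Agent.TH936.CW.Lio

/-!
# The elliptic part of the Eisenstein-Kronecker numbers
-/

set_option autoImplicit false

open Filter
open scoped Topology PeriodPair

namespace Pool.Agent.TH936.CW

open H667R3

/-- the polynomials `H^{(i)} / H` -/
noncomputable def Uu (p g : ℂ) : ℕ → PP
  | 0 => 1
  | i + 1 => Dv p g (Uu p g i) + MvPolynomial.X 0 * Uu p g i

variable (L : PeriodPair) (p q : ℂ)

/-- the logarithmic derivative of `H` -/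
noncomputable def Xx (v z : ℂ) : ℂ := zeta L z - p * z - q * v

/-- the value of a polynomial -/
noncomputable def evz (v z : ℂ) (P : PP) : ℂ := ev (Xx L p q v z) (℘[L] z) (℘'[L] z) P

lemma evz_deriv {z : ℂ} (hz : z ∉ L.lattice) (v : ℂ) (P : PP) :
    HasDerivAt (fun z => evz L p q v z P) (evz L p q v z (Dv p L.g₂ P)) z := by
  refine ev_deriv (x := Xx L p q v) (y := ℘[L]) (y' := ℘'[L]) ?_ (hasDerivAt_weierstrassP L hz)
    (hasDerivAt_wp'_all L hz) P
  have h1 := ((hasDerivAt_zeta L hz).sub ((hasDerivAt_id z).const_mul p)).sub_const (q * v)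
  refine h1.congr_deriv ?_
  ring

/-- `H` -/
noncomputable def Hh (v z : ℂ) : ℂ := Complex.exp (-(q * v * z) - p * z ^ 2 / 2) * sigma L z

lemma Hh_diff (v : ℂ) : Differentiable ℂ (Hh L p q v) := by
  unfold Hh
  exact Differentiable.mul (by fun_prop) (differentiable_sigma L)

lemma Hh_ne (v : ℂ) {z : ℂ} (hz : z ∉ L.lattice) : Hh L p q v z ≠ 0 :=
  mul_ne_zero (Complex.exp_ne_zero _) (sigma_ne_zero L hz)

lemma Hh_deriv (v : ℂ) {z : ℂ} (hz : z ∉ L.lattice) :
    HasDerivAt (Hh L p q v) (Xx L p q v z * Hh L p q v z) z := by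
  have h1 : HasDerivAt (fun z : ℂ => Complex.exp (-(q * v * z) - p * z ^ 2 / 2))
      (Complex.exp (-(q * v * z) - p * z ^ 2 / 2) * (-(q * v) - p * z)) z := by
    refine HasDerivAt.cexp ?_
    have h2 : HasDerivAt (fun z : ℂ => -(q * v * z)) (-(q * v)) z := by
      have h4 := ((hasDerivAt_id z).const_mul (q * v)).neg
      rw [mul_one] at h4
      exact h4
    have h3 : HasDerivAt (fun z : ℂ => p * z ^ 2 / 2) (p * z) z := by
      have h4 := ((hasDerivAt_pow 2 z).const_mul p).div_const 2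
      refine h4.congr_deriv ?_
      push_cast
      ring
    exact h2.sub h3
  have h2 : HasDerivAt (sigma L) (zeta L z * sigma L z) z := hasDerivAt_sigma L hz
  refine (h1.mul h2).congr_deriv ?_
  unfold Xx Hh
  ring

lemma iter_H (v : ℂ) (i : ℕ) : ∀ z, z ∉ L.lattice →
    iteratedDeriv i (Hh L p q v) z = evz L p q v z (Uu p L.g₂ i) * Hh L p q v z := by
  induction i with
  | zero =>
    intro z _
    rw [iteratedDeriv_zero]
    have : evz L p q v z (Uu p L.g₂ 0) = 1 := by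
      simp [evz, ev, Uu]
    rw [this, one_mul]
  | succ i ih =>
    intro z hz
    rw [iteratedDeriv_succ]
    have h1 : iteratedDeriv i (Hh L p q v) =ᶠ[𝓝 z] fun z => evz L p q v z (Uu p L.g₂ i) *
        Hh L p q v z := by
      filter_upwards [(isOpen_compl L).mem_nhds hz] with w hw
      exact ih w hw
    rw [h1.deriv_eq]
    have h2 := (evz_deriv L p q hz v (Uu p L.g₂ i)).mul (Hh_deriv L p q v hz)
    have h3 := h2.deriv
    have h4 : deriv (fun z => evz L p q v z (Uu p L.g₂ i) * Hh L p q v z) z =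
      evz L p q v z (Dv p L.g₂ (Uu p L.g₂ i)) * Hh L p q v z +
        evz L p q v z (Uu p L.g₂ i) * (Xx L p q v z * Hh L p q v z) := h3
    rw [h4]
    have h5 : evz L p q v z (Uu p L.g₂ (i + 1)) = evz L p q v z (Dv p L.g₂ (Uu p L.g₂ i)) +
        Xx L p q v z * evz L p q v z (Uu p L.g₂ i) := by
      unfold evz
      rw [Uu, ev_add, ev_mul, ev_X0]
    rw [h5]
    ring

/-- the Taylor coefficients -/
noncomputable def rh (j : ℕ) : ℂ := iteratedDeriv j (Mm L p) 0

/-- the generating polynomial -/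
noncomputable def Aa (m : ℕ) : PP := ∑ i ∈ Finset.range (m + 1),
  MvPolynomial.C (m.choose i * rh L p (m - i)) * Uu p L.g₂ i

/-- the numerator -/
noncomputable def Nn (m : ℕ) (v z : ℂ) : ℂ := ∑ i ∈ Finset.range (m + 1),
  m.choose i * rh L p (m - i) * iteratedDeriv i (Hh L p q v) z

lemma Nn_an (m : ℕ) (v z : ℂ) : AnalyticAt ℂ (Nn L p q m v) z := by
  unfold Nn
  refine Finset.analyticAt_fun_sum _ fun i _ => ?_
  refine analyticAt_const.mul ?_
  exact ((Hh_diff L p q v).analyticAt z).iterated_deriv i |>.congr (by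
    rw [iteratedDeriv_eq_iterate])

lemma Aa_eq (m : ℕ) (v : ℂ) {z : ℂ} (hz : z ∉ L.lattice) :
    evz L p q v z (Aa L p m) * Hh L p q v z = Nn L p q m v z := by
  unfold evz Aa Nn
  rw [ev_sum, Finset.sum_mul]
  refine Finset.sum_congr rfl fun i _ => ?_
  rw [iter_H L p q v i z hz, ev_mul, ev_C]
  unfold evz
  ring

lemma exp_iter (a : ℂ) (n : ℕ) : iteratedDeriv n (fun w : ℂ => Complex.exp (a * w)) 0 = a ^ n := by
  have h := congrFun (iteratedDeriv_cexp_const_mul n a) 0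
  rw [h]
  simp

lemma Nn_zero (n : ℕ) (v : ℂ) : Nn L p q (n + 1) v 0 = (n + 1) * (-(q * v)) ^ n := by
  have h1 : Nn L p q (n + 1) v 0 = iteratedDeriv (n + 1)
      (fun w => Hh L p q v w * Mm L p w) 0 := by
    have h2 : iteratedDeriv (n + 1) (fun w => Hh L p q v w * Mm L p w) 0 =
        ∑ i ∈ Finset.range (n + 1 + 1),
      (n + 1).choose i * iteratedDeriv i (Hh L p q v) 0 * iteratedDeriv (n + 1 - i) (Mm L p) 0 :=
      iteratedDeriv_mul (cd ((Hh_diff L p q v).analyticAt 0) _) (cd (Mm_an L p) _)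
    rw [h2]
    unfold Nn
    refine Finset.sum_congr rfl fun i _ => ?_
    unfold rh
    ring
  have h3 : (fun w => Hh L p q v w * Mm L p w) =ᶠ[𝓝 0]
      fun w => w * Complex.exp (-(q * v) * w) := by
    have h1 : ∀ᶠ w in 𝓝 (0 : ℂ), Pi' L w ≠ 0 :=
      (differentiable_Pi' L).continuous.continuousAt.eventually_ne (by
        rw [Pi'_zero]; exact one_ne_zero)
    filter_upwards [h1] with w hw
    unfold Hh Mm Tt
    rw [sigma_eq_mul]
    have e1 : Complex.exp (-(q * v * w) - p * w ^ 2 / 2) = Complex.exp (-(q * v) * w) *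
        Complex.exp (-(p * w ^ 2 / 2)) := by
      rw [← Complex.exp_add]
      congr 1
      ring
    rw [e1]
    have h2 := Complex.exp_ne_zero (-(p * w ^ 2 / 2))
    field_simp
  rw [h1, h3.iteratedDeriv_eq, iter_zmul (by fun_prop), exp_iter]
  push_cast
  simp

/-- the regular factor -/
noncomputable def Ht (v z : ℂ) : ℂ := Complex.exp (-(q * v * z) - p * z ^ 2 / 2) * Pi' L z

lemma Ht_an (v z : ℂ) : AnalyticAt ℂ (Ht L p q v) z := by
  have : Differentiable ℂ (Ht L p q v) := by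
    unfold Ht
    exact Differentiable.mul (by fun_prop) (differentiable_Pi' L)
  exact this.analyticAt z

lemma Ht_zero (v : ℂ) : Ht L p q v 0 = 1 := by
  unfold Ht
  rw [Pi'_zero]
  simp

lemma dsl {f : ℂ → ℂ} (h : AnalyticAt ℂ f 0) : AnalyticAt ℂ (dslope f 0) 0 := by
  obtain ⟨P, hP⟩ := h
  exact ⟨_, hP.has_fpower_series_dslope_fslope⟩

lemma Aa_near (n : ℕ) (v : ℂ) : ∃ Ψ : ℂ → ℂ, AnalyticAt ℂ Ψ 0 ∧ ∀ᶠ z in 𝓝[≠] (0 : ℂ),
    evz L p q v z (Aa L p (n + 1)) = (n + 1) * (-(q * v)) ^ n / z + Ψ z := by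
  set Φ : ℂ → ℂ := fun z => Nn L p q (n + 1) v z / Ht L p q v z with hΦ
  have hΦa : AnalyticAt ℂ Φ 0 := (Nn_an L p q _ v 0).div (Ht_an L p q v 0) (by
    rw [Ht_zero]; exact one_ne_zero)
  have hΦ0 : Φ 0 = (n + 1) * (-(q * v)) ^ n := by
    rw [hΦ]
    simp only
    rw [Ht_zero, div_one, Nn_zero]
  refine ⟨dslope Φ 0, dsl hΦa, ?_⟩
  filter_upwards [near L, self_mem_nhdsWithin] with z hz hz0
  have hz0' : z ≠ 0 := hz0
  rw [dslope_of_ne _ hz0', slope_def_field, sub_zero, hΦ0]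
  have h1 := Aa_eq L p q (n + 1) v hz
  have h2 : Hh L p q v z = z * Ht L p q v z := by
    unfold Hh Ht
    rw [sigma_eq_mul]
    ring
  have h3 := Hh_ne L p q v hz
  rw [h2] at h1 h3
  have h4 : Ht L p q v z ≠ 0 := right_ne_zero_of_mul h3
  have h5 : Φ z = z * evz L p q v z (Aa L p (n + 1)) := by
    rw [hΦ]
    simp only
    rw [← h1]
    field_simp
  rw [h5]
  field_simp
  ring

lemma iter_near (v : ℂ) (P : PP) (a : ℂ) (Ψ : ℂ → ℂ) (hΨ : AnalyticAt ℂ Ψ 0)
    (h : ∀ᶠ z in 𝓝[≠] (0 : ℂ), evz L p q v z P = a / z + Ψ z) (k : ℕ) :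
    ∀ᶠ z in 𝓝[≠] (0 : ℂ), evz L p q v z ((Dv p L.g₂)^[k] P) =
      a * ((-1) ^ k * k.factorial) / z ^ (k + 1) + iteratedDeriv k Ψ z := by
  induction k with
  | zero =>
    filter_upwards [h] with z hz
    simp [hz]
  | succ k ih =>
    have h1 := eventually_eventually_nhdsWithin.2 ih
    have hΨk : AnalyticAt ℂ (iteratedDeriv k Ψ) 0 := by
      rw [iteratedDeriv_eq_iterate]
      exact hΨ.iterated_deriv k
    filter_upwards [h1, near L, self_mem_nhdsWithin,
      hΨk.eventually_analyticAt.filter_mono nhdsWithin_le_nhds] with z hz1 hz2 hz0 hz3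
    have hz0' : z ≠ 0 := hz0
    have h2 : 𝓝[≠] (0 : ℂ) ≤ 𝓝[≠] 0 := le_rfl
    have h3 : 𝓝[{0}ᶜ] z = 𝓝 z := isOpen_compl_singleton.nhdsWithin_eq hz0
    rw [h3] at hz1
    have h4 := evz_deriv L p q hz2 v ((Dv p L.g₂)^[k] P)
    rw [← Function.iterate_succ_apply' (Dv p L.g₂) k P] at h4
    have h5 : HasDerivAt (fun z : ℂ => a * ((-1) ^ k * k.factorial) / z ^ (k + 1))
        (a * ((-1) ^ (k + 1) * (k + 1).factorial) / z ^ (k + 2)) z := by
      have h6 := ((hasDerivAt_pow (k + 1) z).inv (pow_ne_zero _ hz0')).const_mul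
        (a * ((-1) ^ k * k.factorial))
      have h7 : (fun z : ℂ => a * ((-1) ^ k * k.factorial) / z ^ (k + 1)) =
          fun z => a * ((-1) ^ k * k.factorial) * (fun z : ℂ => z ^ (k + 1))⁻¹ z := by
        funext z
        rw [div_eq_mul_inv]
        rfl
      rw [h7]
      refine h6.congr_deriv ?_
      rw [Nat.factorial_succ, Nat.add_sub_cancel]
      push_cast
      field_simp
      ring
    have h6 : HasDerivAt (iteratedDeriv k Ψ) (iteratedDeriv (k + 1) Ψ z) z := by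
      rw [iteratedDeriv_succ]
      exact hz3.differentiableAt.hasDerivAt
    have h7 := (h5.add h6).congr_of_eventuallyEq (f₁ := fun z =>
      evz L p q v z ((Dv p L.g₂)^[k] P)) hz1
    exact h4.unique h7

/-- the polynomial giving the Eisenstein-Kronecker functions -/
noncomputable def Pp (n : ℕ) : PP :=
  MvPolynomial.C (1 / ((n + 1).factorial : ℂ)) * (Dv p L.g₂)^[n] (Aa L p (n + 1))

theorem Pp_near (n : ℕ) (v : ℂ) : ∃ Ψ : ℂ → ℂ, AnalyticAt ℂ Ψ 0 ∧ ∀ᶠ z in 𝓝[≠] (0 : ℂ),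
    evz L p q v z (Pp L p n) = q ^ n * (v ^ n / z ^ (n + 1)) + Ψ z := by
  obtain ⟨Ψ, hΨ, h⟩ := Aa_near L p q n v
  have h1 := iter_near L p q v _ _ Ψ hΨ h n
  have hΨk : AnalyticAt ℂ (iteratedDeriv n Ψ) 0 := by
    rw [iteratedDeriv_eq_iterate]
    exact hΨ.iterated_deriv n
  refine ⟨fun z => 1 / ((n + 1).factorial : ℂ) * iteratedDeriv n Ψ z,
    analyticAt_const.mul hΨk, ?_⟩
  filter_upwards [h1, self_mem_nhdsWithin] with z hz hz0
  have hz0' : z ≠ 0 := hz0
  have e1 : evz L p q v z (Pp L p n) = 1 / ((n + 1).factorial : ℂ) *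
      evz L p q v z ((Dv p L.g₂)^[n] (Aa L p (n + 1))) := by
    unfold evz Pp
    rw [ev_mul, ev_C]
  rw [e1, hz, mul_add]
  congr 1
  have hf : (n.factorial : ℂ) ≠ 0 := by exact_mod_cast n.factorial_ne_zero
  have hn : (n : ℂ) + 1 ≠ 0 := by exact_mod_cast n.succ_ne_zero
  rw [Nat.factorial_succ]
  push_cast
  have e2 : (-(q * v)) ^ n * (-1) ^ n = q ^ n * v ^ n := by
    rw [← mul_pow, ← mul_pow]
    congr 1
    ring
  field_simp
  exact e2

lemma Xx_add (hpq : ∀ l ∈ L.lattice, eta L l = p * l + q * (starRingEnd ℂ) l) {z l : ℂ}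
    (hz : z ∉ L.lattice) (hl : l ∈ L.lattice) (v : ℂ) :
    Xx L p q (v + (starRingEnd ℂ) l) (z + l) = Xx L p q v z := by
  unfold Xx
  rw [zeta_add_coe L hz hl, hpq l hl]
  ring

lemma evz_add (hpq : ∀ l ∈ L.lattice, eta L l = p * l + q * (starRingEnd ℂ) l) {z l : ℂ}
    (hz : z ∉ L.lattice) (hl : l ∈ L.lattice) (v : ℂ) (P : PP) :
    evz L p q (v + (starRingEnd ℂ) l) (z + l) P = evz L p q v z P := by
  unfold evz
  rw [Xx_add L p q hpq hz hl, Pool.Agent.W245.EB.wp_add_lattice L hl,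
    Pool.Agent.W245.EB.wp'_add_lattice L hl]

lemma evz_an (v : ℂ) {z : ℂ} (hz : z ∉ L.lattice) (P : PP) :
    AnalyticAt ℂ (fun z => evz L p q v z P) z := by
  rw [Complex.analyticAt_iff_eventually_differentiableAt]
  filter_upwards [(isOpen_compl L).mem_nhds hz] with w hw
  exact (evz_deriv L p q hw v P).differentiableAt

end Pool.Agent.TH936.CW
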