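import Pool.Agent.TH936.CW.Eone
import Pool.Agent.TH936.CM.Alg

/-!
# The regularized Eisenstein-Kronecker series
-/

set_option autoImplicit false

open Filter
open scoped Topology PeriodPair

namespace Pool.Agent.TH936.CW

open H667R3 Pool.Agent.W192.HK Pool.Agent.TH936.CM


variable {L : PeriodPair} {R : Subring ℂ} {Ω : ℂ}

lemma summ_gd (hL : IsLat L R Ω) (e : ℕ) (z : ℂ) {δ : ℝ} (hδ : 0 < δ) :
    Summable (fun β : R => gd e δ (z + Ω * β)) :=
  Summable.of_norm_bounded ((summ3 hL z).mul_left ((e + 1) * δ⁻¹)) fun _ => gd_bound e δ hδ _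

/-- the regularized series -/
noncomputable def EK (R : Subring ℂ) (Ω : ℂ) (e : ℕ) (δ : ℝ) (z : ℂ) : ℂ :=
  ∑' β : R, gd e δ (z + Ω * β)

lemma EK_add (e : ℕ) (δ : ℝ) (z : ℂ) (r : R) : EK R Ω e δ (z + Ω * r) = EK R Ω e δ z := by
  unfold EK
  rw [← (Equiv.addLeft r).tsum_eq (fun β : R => gd e δ (z + Ω * β))]
  refine tsum_congr fun β => ?_
  congr 1
  rw [Equiv.coe_addLeft]
  push_cast
  ring

lemma EK_per (hL : IsLat L R Ω) (e : ℕ) (δ : ℝ) {z w : ℂ} (h : w - z ∈ L.lattice) :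
    EK R Ω e δ w = EK R Ω e δ z := by
  obtain ⟨r, hr⟩ := (hL.mem _).1 h
  have : w = z + Ω * r := by rw [← hr]; ring
  rw [this, EK_add]

/-- the distribution relation -/
theorem EK_dist (hL : IsLat L R Ω) (e : ℕ) {δ : ℝ} (hδ : 0 < δ) (k : ℕ) (hk : 0 < k)
    [Fintype (R ⧸ sp (k : R))] (z : ℂ) :
    ∑ q : R ⧸ sp (k : R), EK R Ω e δ (z + Ω * q.out / k) = k * EK R Ω e (δ / k ^ 2) (k * z) := by
  have hk0 : (k : ℂ) ≠ 0 := by exact_mod_cast hk.ne'
  have hkr : (0 : ℝ) < k := by exact_mod_cast hk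
  have e1 : ∀ α : R, gd e δ (z + Ω * α / k) = k * gd e (δ / k ^ 2) (k * z + Ω * α) := by
    intro α
    have h1 : z + Ω * α / k = (k : ℂ)⁻¹ * (k * z + Ω * α) := by field_simp
    rw [h1, gd_mul, gg_nat]
    congr 2
    rw [Complex.normSq_inv, Complex.normSq_natCast]
    field_simp
  have hs : Summable (fun α : R => gd e δ (z + Ω * α / k)) := by
    refine ((summ_gd hL e (k * z) (δ := δ / k ^ 2) (by positivity)).mul_left (k : ℂ)).congr
      fun α => ?_
    rw [e1]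
  have h2 := tsum_prt k hk _ hs
  have h3 : ∑' α : R, gd e δ (z + Ω * α / k) = k * EK R Ω e (δ / k ^ 2) (k * z) := by
    rw [tsum_congr e1, tsum_mul_left]
    rfl
  rw [← h3, h2]
  refine Finset.sum_congr rfl fun q _ => ?_
  unfold EK
  refine tsum_congr fun β => ?_
  congr 1
  push_cast
  field_simp
  ring

/-- the factor -/
noncomputable def kp (e : ℕ) (Ω : ℂ) (n : ℕ) : ℂ := gg e ((starRingEnd ℂ) ((n : ℂ) / Ω)) ((n : ℂ) / Ω)

lemma kp_ne {e : ℕ} {n : ℕ} (hn : 0 < n) (hΩ : Ω ≠ 0) : kp e Ω n ≠ 0 := by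
  have hn0 : (n : ℂ) ≠ 0 := by exact_mod_cast hn.ne'
  have h : (n : ℂ) / Ω ≠ 0 := div_ne_zero hn0 hΩ
  unfold kp gg
  exact mul_ne_zero (pow_ne_zero _ ((map_ne_zero _).2 h)) (pow_ne_zero _ (inv_ne_zero h))

/-- sums of periodic functions -/
theorem sum_EK (hL : IsLat L R Ω) (e : ℕ) {δ : ℝ} (n : ℕ) (hn : 0 < n)
    [Fintype (R ⧸ sp (n : R))] (c : R → ℂ) (hc : ∀ a b : R, a - b ∈ sp (n : R) → c a = c b)
    (hcs : Summable (fun α : R => c α * gd e δ (α : ℂ))) :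
    ∑' α : R, c α * gd e δ (α : ℂ) = kp e Ω n * ∑ q : R ⧸ sp (n : R),
      c q.out * EK R Ω e (δ * n ^ 2 / Complex.normSq Ω) (Ω * q.out / n) := by
  have hn0 : (n : ℂ) ≠ 0 := by exact_mod_cast hn.ne'
  have hΩ := hL.ne
  rw [tsum_prt n hn _ hcs, Finset.mul_sum]
  refine Finset.sum_congr rfl fun q _ => ?_
  unfold EK
  rw [← tsum_mul_left, ← tsum_mul_left]
  refine tsum_congr fun β => ?_
  have e1 : c (q.out + n * β) = c q.out := by
    refine hc _ _ ?_
    rw [add_sub_cancel_left, Ideal.mem_span_singleton']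
    exact ⟨β, by ring⟩
  have e2 : ((q.out + n * β : R) : ℂ) = (n / Ω) * (Ω * q.out / n + Ω * β) := by
    push_cast
    field_simp
  rw [e1, e2, gd_mul]
  have e3 : δ * Complex.normSq ((n : ℂ) / Ω) = δ * n ^ 2 / Complex.normSq Ω := by
    rw [Complex.normSq_div, Complex.normSq_natCast]
    ring
  rw [e3]
  unfold kp
  ring

/-! ### the limit of the second difference -/

lemma tm_latE (hL : IsLat L R Ω) (e : ℕ) (z t : ℂ) (β : R) : tm L e ((starRingEnd ℂ) z) t (latE hL β) z =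
    gg e ((starRingEnd ℂ) (z + t + Ω * β)) (z + t + Ω * β) + gg e ((starRingEnd ℂ) (z - t + Ω * β)) (z - t + Ω * β) -
      2 * gg e ((starRingEnd ℂ) (z + Ω * β)) (z + Ω * β) := by
  unfold tm
  rw [latE_coe]
  have e1 : (starRingEnd ℂ) z + (starRingEnd ℂ) (Ω * β) + (starRingEnd ℂ) t = (starRingEnd ℂ) (z + t + Ω * β) := by
    rw [map_add (starRingEnd ℂ) (z + t), map_add (starRingEnd ℂ) z]
    ring
  have e2 : (starRingEnd ℂ) z + (starRingEnd ℂ) (Ω * β) - (starRingEnd ℂ) t = (starRingEnd ℂ) (z - t + Ω * β) := by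
    rw [map_add (starRingEnd ℂ) (z - t), map_sub (starRingEnd ℂ) z]
    ring
  have e3 : (starRingEnd ℂ) z + (starRingEnd ℂ) (Ω * β) = (starRingEnd ℂ) (z + Ω * β) := by rw [map_add]
  have e4 : z + Ω * β + t = z + t + Ω * β := by ring
  have e5 : z + Ω * β - t = z - t + Ω * β := by ring
  rw [e1, e2, e3, e4, e5]

/-- the constant of the bound -/
noncomputable def Kd (e : ℕ) : ℝ := 128 * (2 ^ e * 2 ^ (e + 1) * 4 ^ (e + 1))

theorem lim_TT (hL : IsLat L R Ω) (e : ℕ) {z t : ℂ} (hz : z ∉ L.lattice) :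
    Tendsto (fun δ : ℝ => EK R Ω e δ (z + t) + EK R Ω e δ (z - t) - 2 * EK R Ω e δ z) (𝓝[>] 0)
      (𝓝 (TT L e ((starRingEnd ℂ) z) t z)) := by
  classical
  have hTT : TT L e ((starRingEnd ℂ) z) t z = ∑' β : R, (gg e ((starRingEnd ℂ) (z + t + Ω * β)) (z + t + Ω * β) +
      gg e ((starRingEnd ℂ) (z - t + Ω * β)) (z - t + Ω * β) - 2 * gg e ((starRingEnd ℂ) (z + Ω * β)) (z + Ω * β)) := by
    unfold TT
    rw [← (latE hL).tsum_eq]
    exact tsum_congr fun β => tm_latE hL e z t β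
  rw [hTT]
  set bnd : R → ℝ := fun β => if 8 * ‖t‖ ≤ ‖z + Ω * β‖ then
    Kd e * ‖t‖ ^ 2 * (‖z + Ω * β‖ ^ 3)⁻¹ else ‖z + t + Ω * β‖⁻¹ + ‖z - t + Ω * β‖⁻¹ +
      2 * ‖z + Ω * β‖⁻¹ with hbnd
  have hb : Summable bnd := by
    refine ((summ3 hL z).mul_left (Kd e * ‖t‖ ^ 2)).congr_cofinite ?_
    filter_upwards [finite_small hL hz (8 * ‖t‖)] with β hβ
    simp only [hbnd]
    rw [if_pos hβ]
  have key : Tendsto (fun δ : ℝ => ∑' β : R, (gd e δ (z + t + Ω * β) + gd e δ (z - t + Ω * β) -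
      2 * gd e δ (z + Ω * β))) (𝓝[>] 0)
      (𝓝 (∑' β : R, (gg e ((starRingEnd ℂ) (z + t + Ω * β)) (z + t + Ω * β) +
      gg e ((starRingEnd ℂ) (z - t + Ω * β)) (z - t + Ω * β) -
        2 * gg e ((starRingEnd ℂ) (z + Ω * β)) (z + Ω * β)))) := by
    refine tendsto_tsum_of_dominated_convergence (bound := bnd) hb ?_ ?_
    · intro β
      exact ((gd_tendsto e _).add (gd_tendsto e _)).sub ((gd_tendsto e _).const_mul 2)
    · filter_upwards [self_mem_nhdsWithin] with δ hδ β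
      have hδ0 : 0 ≤ δ := le_of_lt hδ
      simp only [hbnd]
      split_ifs with h
      · have h1 := gd_sec e hδ0 (lat_ne hL hz β) h
        have e1 : z + t + Ω * β = z + Ω * β + t := by ring
        have e2 : z - t + Ω * β = z + Ω * β - t := by ring
        rw [e1, e2]
        exact h1
      · refine (norm_sub_le _ _).trans (add_le_add ((norm_add_le _ _).trans (add_le_add ?_ ?_)) ?_)
        · exact gd_norm_le e _ hδ0 _
        · exact gd_norm_le e _ hδ0 _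
        · rw [norm_mul, Complex.norm_ofNat]
          exact mul_le_mul_of_nonneg_left (gd_norm_le e _ hδ0 _) (by norm_num)
  refine key.congr' ?_
  filter_upwards [self_mem_nhdsWithin] with δ hδ
  have s1 := summ_gd hL e (z + t) hδ
  have s2 := summ_gd hL e (z - t) hδ
  have s3 := (summ_gd hL e z hδ).mul_left 2
  rw [(s1.add s2).tsum_sub s3, s1.tsum_add s2, tsum_mul_left]
  rfl

/-- the second difference of the elliptic expression -/
noncomputable def Dk (L : PeriodPair) (p q : ℂ) (e : ℕ) (z t : ℂ) : ℂ :=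
  ek L p q e (z + t) + ek L p q e (z - t) - 2 * ek L p q e z

theorem TT_Dk {p q : ℂ} (hpq : ∀ l ∈ L.lattice, eta L l = p * l + q * (starRingEnd ℂ) l) (e : ℕ) (t : ℂ) :
    ∃ C : ℂ, ∀ z, z ∉ L.lattice → z + t ∉ L.lattice → z - t ∉ L.lattice →
      TT L e ((starRingEnd ℂ) z) t z = (q ^ e)⁻¹ * (Dk L p q e z t + C) := by
  obtain ⟨C, hC⟩ := TT_eq hpq e t
  refine ⟨C, fun z h0 h1 h2 => ?_⟩
  have h3 := hC ((starRingEnd ℂ) z) z h0 h1 h2
  have hq : q ^ e ≠ 0 := pow_ne_zero _ (q_ne hpq)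
  rw [eq_inv_mul_iff_mul_eq₀ hq, h3]
  unfold Dk ek
  rw [map_add, map_sub]

lemma Dk_zero {p q : ℂ} (hpq : ∀ l ∈ L.lattice, eta L l = p * l + q * (starRingEnd ℂ) l) (e : ℕ) {z t : ℂ}
    (hz : z ∉ L.lattice) (ht : t ∈ L.lattice) : Dk L p q e z t = 0 := by
  unfold Dk
  rw [ek_per hpq e hz (w := z + t) (by rwa [add_sub_cancel_left]),
    ek_per hpq e hz (w := z - t) (by rw [sub_sub_cancel_left]; exact neg_mem ht)]
  ring

end Pool.Agent.TH936.CW
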