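import Pool.Agent.TH936.CW.Alg
import Pool.Agent.TH936.CM.Cen

/-!
# The central value as a limit of regularized sums over the ring, general weight
-/

set_option autoImplicit false

open Filter
open scoped Topology

namespace Pool.Agent.TH936.CW

open Pool.Agent.W192.HK Pool.Agent.TH936.CM
open Pool.Agent.W192.CM (nu)
open Pool.Agent.W192.CY (Vk)


variable {R : Subring ℂ}

lemma Vk_decay2 (m : ℕ) {x : ℝ} (hx : 0 ≤ x) : x ^ 2 * Vk m x ≤ m * (m + 1) := by
  unfold Vk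
  have h1 : x ^ 2 * (Real.exp (-x) * ∑ j ∈ Finset.range m, x ^ j / (j.factorial : ℝ)) =
      Real.exp (-x) * ∑ j ∈ Finset.range m, x ^ (j + 2) / (j.factorial : ℝ) := by
    rw [mul_left_comm, Finset.mul_sum]
    congr 1
    refine Finset.sum_congr rfl fun j _ => ?_
    rw [pow_add]
    ring
  rw [h1, Real.exp_neg, inv_mul_le_iff₀ (Real.exp_pos _)]
  have h2 : ∀ j ∈ Finset.range m, x ^ (j + 2) / (j.factorial : ℝ) ≤
      m * (m + 1) * (x ^ (j + 2) / ((j + 2).factorial : ℝ)) := by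
    intro j hj
    rw [Nat.factorial_succ, Nat.factorial_succ]
    have hj' : ((j : ℝ) + 1) ≤ m := by exact_mod_cast Finset.mem_range.1 hj
    have hf : (0 : ℝ) < j.factorial := by exact_mod_cast j.factorial_pos
    have hj0 : (0 : ℝ) ≤ j := Nat.cast_nonneg j
    push_cast
    rw [mul_div_assoc', div_le_div_iff₀ hf (by positivity)]
    have h3 : 0 ≤ x ^ (j + 2) * (j.factorial : ℝ) := by positivity
    have h4 : ((j : ℝ) + 1 + 1) * (j + 1) ≤ m * (m + 1) := by nlinarith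
    calc x ^ (j + 2) * (((j : ℝ) + 1 + 1) * ((j + 1) * j.factorial))
        = (x ^ (j + 2) * j.factorial) * (((j : ℝ) + 1 + 1) * (j + 1)) := by ring
      _ ≤ (x ^ (j + 2) * j.factorial) * (m * (m + 1)) := mul_le_mul_of_nonneg_left h4 h3
      _ = _ := by ring
  refine (Finset.sum_le_sum h2).trans ?_
  rw [← Finset.mul_sum, mul_comm (Real.exp x)]
  refine mul_le_mul_of_nonneg_left ?_ (by positivity)
  have h4 := Real.sum_le_exp_of_nonneg hx (m + 2)
  rw [Finset.sum_range_succ', Finset.sum_range_succ'] at h4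
  simp only [pow_zero, Nat.factorial_zero, Nat.cast_one, div_one, zero_add, Nat.factorial_one,
    pow_one] at h4
  linarith

open Classical in
/-- the coefficient function -/
noncomputable def ck (e : ℕ) (θ : Ideal R → ℂ) (b : Ideal R) (α : R) : ℂ :=
  if α ∈ b then (starRingEnd ℂ) (fp (2 * e + 1) θ α) else 0

lemma quo_gen {b : Ideal R} {ψ : Ideal R → ℂ}
    (hm : ∀ I J : Ideal R, ψ (I * J) = ψ I * ψ J)
    (hn : ∀ I J : Ideal R, nm (I * J) = nm I * nm J)
    (hsp : ∀ α : R, nm (sp α) = Complex.normSq (α : ℂ))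
    (hb : ψ b ≠ 0) (hb1 : 0 < nm b) {α : R} (hq : quo b α * b = sp α) (V : ℝ → ℂ) (c : ℝ) :
    ψ (quo b α) * V (c * nm (quo b α)) =
      (ψ b)⁻¹ * (ψ (sp α) * V (c / nm b * Complex.normSq (α : ℂ))) := by
  have h1 : ψ (sp α) = ψ (quo b α) * ψ b := by rw [← hq, hm]
  have h2 : Complex.normSq (α : ℂ) = nm (quo b α) * nm b := by rw [← hsp, ← hq, hn]
  rw [h1, h2]
  have h3 : c / nm b * (nm (quo b α) * nm b) = c * nm (quo b α) := by
    field_simp
  rw [h3]
  field_simp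

set_option maxHeartbeats 1000000 in
theorem lim_LK (h1 : H_BASIC) (h2 : H_FP) (h3 : H_CNT) (h4 : H_DEC) (h5 : H_AFE) {ω : ℂ}
    (hR : QR R ω) {q : Ideal R} {θ : Ideal R → ℂ} {e : ℕ} (hθ : HC (2 * e + 1) q θ)
    {s : Finset (Ideal R)} {hh : Ideal R} {μ : R} {T : Finset R} (hS : Sys q s hh μ T) :
    ∃ F : ℂ → ℂ, Differentiable ℂ F ∧
      (∀ z : ℂ, ((e + 1 : ℕ) : ℝ) + 1 / 2 < z.re →
        HasSum (fun I : Ideal R => θ I * (nm I : ℂ) ^ (-z)) (F z)) ∧
      Tendsto (fun δ : ℝ => ∑ b ∈ s, θ b * ((nm b : ℂ) ^ e)⁻¹ * SK e (ck e θ b) (δ / nm b))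
        (𝓝[>] 0) (𝓝 ((nu R : ℂ) * (starRingEnd ℂ) (F ((e + 1 : ℕ) : ℂ)))) := by
  classical
  have hθ' : HC (2 * (e + 1) - 1) q θ := hθ
  obtain ⟨F, hF1, hF2, hF3⟩ := h5 R ω hR (e + 1) (Nat.succ_le_succ (Nat.zero_le _)) q θ hθ' s hh μ
    T hS
  have hqt := hθ'.ne_top (Nat.succ_le_succ (Nat.zero_le _))
  obtain ⟨-, b2, b3, b4, b5, -, -, -, b9⟩ := h1 R ω hR
  obtain ⟨f1, -⟩ := h2 R ω hR (2 * e + 1) q θ hθ hqt
  obtain ⟨c1, c2, -⟩ := h3 R ω hR
  obtain ⟨d1, d2⟩ := h4 R ω hR s hS.cs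
  refine ⟨F, hF1, hF2, ?_⟩
  have hω := hR.im
  have hpi := Real.pi_pos
  have hν : (nu R : ℂ) ≠ 0 := by
    have : nu R ≠ 0 := by
      unfold nu
      have := b9
      exact Nat.card_pos.ne'
    exact_mod_cast this
  have hθ0 : θ ⊥ = 0 := (hθ.zero ⊥).2 (Or.inl rfl)
  have hpos : ∀ I : Ideal R, I ≠ ⊥ → 0 < nm I := fun I hI => by linarith [b3 I hI]
  have hQ := hpos q hθ.ne
  set C0 : ℝ := ω.im ^ 2 * nm q / Real.pi ^ 2 with hC0
  have hC0p : 0 < C0 := by positivity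
  -- size of the terms
  have hle : ∀ I : Ideal R, ‖θ I / (nm I : ℂ) ^ (e + 1)‖ ≤ 1 := by
    intro I
    by_cases h : θ I = 0
    · rw [h, zero_div, norm_zero]
      exact zero_le_one
    · have h' := h
      rw [hθ.zero, not_or, not_not] at h'
      have h6 := f1 I h'.1 h'.2
      have h7 := b3 I h'.1
      have h8 : ‖θ I‖ ≤ nm I ^ (e + 1) := by
        refine le_of_sq_le_sq ?_ (by positivity)
        rw [h6, ← pow_mul]
        exact pow_le_pow_right₀ h7 (by omega)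
      rw [norm_div, norm_pow, Complex.norm_real, Real.norm_eq_abs, abs_of_pos (hpos I h'.1)]
      exact div_le_one_of_le₀ h8 (by positivity)
  set Cm : ℝ := ((e + 1 : ℕ) : ℝ) * (((e + 1 : ℕ) : ℝ) + 1) with hCm
  have hCm0 : 0 ≤ Cm := by positivity
  have hdec : ∀ (I : Ideal R) (X : ℝ), 0 < X → I ≠ ⊥ →
      Vk (e + 1) (nm I / X) ≤ Cm * X ^ 2 * (nm I) ^ (-(2 : ℝ)) := by
    intro I X hX hI
    have hn := hpos I hI
    rw [Real.rpow_neg hn.le, Real.rpow_two]
    have h6 := Vk_decay2 (e + 1) (x := nm I / X) (by positivity)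
    have h7 : Vk (e + 1) (nm I / X) ≤ Cm / (nm I / X) ^ 2 := by
      rw [le_div_iff₀ (by positivity), mul_comm]
      exact h6
    refine h7.trans (le_of_eq ?_)
    field_simp
  have hsum2 := c2 2 (by norm_num)
  have hbd : ∀ (g : Ideal R → ℂ) (X : ℝ), 0 < X → (∀ I, ‖g I‖ ≤ 1) → g ⊥ = 0 → ∀ I,
      ‖g I * (Vk (e + 1) (nm I / X) : ℂ)‖ ≤ Cm * X ^ 2 * (nm I) ^ (-(2 : ℝ)) := by
    intro g X hX hg hg0 I
    by_cases hI : I = ⊥
    · rw [hI, hg0, zero_mul, norm_zero]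
      exact mul_nonneg (by positivity) (Real.rpow_nonneg (Nat.cast_nonneg _) _)
    · have hx : 0 ≤ nm I / X := div_nonneg (hpos I hI).le hX.le
      rw [norm_mul, Complex.norm_real, Real.norm_eq_abs, abs_of_nonneg (Vk_nonneg _ hx)]
      calc ‖g I‖ * Vk (e + 1) (nm I / X) ≤ 1 * Vk (e + 1) (nm I / X) :=
            mul_le_mul_of_nonneg_right (hg I) (Vk_nonneg _ hx)
        _ = Vk (e + 1) (nm I / X) := one_mul _
        _ ≤ _ := hdec I X hX hI
  -- the limit of the sums over ideals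
  have hlim1 : Tendsto (fun δ : ℝ => ∑' I : Ideal R, θ I / (nm I : ℂ) ^ (e + 1) *
      (Vk (e + 1) (nm I / δ⁻¹) : ℂ)) (𝓝[>] 0) (𝓝 (F ((e + 1 : ℕ) : ℂ))) := by
    have hd : Tendsto (fun δ : ℝ => ∑' I : Ideal R, (starRingEnd ℂ) (θ I) / (nm I : ℂ) ^ (e + 1) *
        (Vk (e + 1) (nm I / (C0 * δ)) : ℂ)) (𝓝[>] 0) (𝓝 0) := by
      have hs : Tendsto (fun δ : ℝ => Cm * (C0 * δ) ^ 2 * ∑' I : Ideal R, (nm I) ^ (-(2 : ℝ)))
          (𝓝[>] 0) (𝓝 0) := by
        have h6 : Continuous (fun δ : ℝ => Cm * (C0 * δ) ^ 2 *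
            ∑' I : Ideal R, (nm I) ^ (-(2 : ℝ))) := by fun_prop
        have h7 := (h6.tendsto 0).mono_left (nhdsWithin_le_nhds (s := Set.Ioi 0))
        simpa using h7
      refine squeeze_zero_norm' ?_ hs
      filter_upwards [self_mem_nhdsWithin] with δ (hδ : 0 < δ)
      have hX : 0 < C0 * δ := by positivity
      rw [← tsum_mul_left]
      refine tsum_of_norm_bounded (hsum2.mul_left _).hasSum fun I => ?_
      refine hbd (fun I => (starRingEnd ℂ) (θ I) / (nm I : ℂ) ^ (e + 1)) _ hX (fun I => ?_) ?_ I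
      · have := hle I
        rw [norm_div] at this ⊢
        rwa [RCLike.norm_conj]
      · rw [hθ0, map_zero, zero_div]
    have hd2 := hd.const_mul (Wc ω (e + 1) q hh μ T θ)
    rw [mul_zero] at hd2
    have hd3 := (tendsto_const_nhds (x := F ((e + 1 : ℕ) : ℂ)) (f := 𝓝[>] (0 : ℝ))).sub hd2
    rw [sub_zero] at hd3
    refine hd3.congr' ?_
    filter_upwards [self_mem_nhdsWithin] with δ (hδ : 0 < δ)
    have h6 := hF3 δ⁻¹ (C0 * δ) (by positivity) (by positivity) (by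
      rw [hC0]
      field_simp)
    rw [h6]
    ring
  have hlim2 : Tendsto (fun δ : ℝ => ∑' I : Ideal R, (starRingEnd ℂ) (θ I) / (nm I : ℂ) ^ (e + 1) *
      (Vk (e + 1) (δ * nm I) : ℂ)) (𝓝[>] 0) (𝓝 ((starRingEnd ℂ) (F ((e + 1 : ℕ) : ℂ)))) := by
    have h6 := (Complex.continuous_conj.tendsto (F ((e + 1 : ℕ) : ℂ))).comp hlim1
    refine h6.congr fun δ => ?_
    simp only [Function.comp_apply]
    rw [Complex.conj_tsum]
    refine tsum_congr fun I => ?_
    rw [map_mul, map_div₀, map_pow, Complex.conj_ofReal, Complex.conj_ofReal]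
    congr 3
    rw [div_inv_eq_mul, mul_comm]
  -- decomposition
  have hlim3 := hlim2.const_mul (nu R : ℂ)
  refine hlim3.congr' ?_
  filter_upwards [self_mem_nhdsWithin] with δ (hδ : 0 < δ)
  set G : Ideal R → ℂ := fun I => (starRingEnd ℂ) (θ I) / (nm I : ℂ) ^ (e + 1) with hG
  have hG0 : G ⊥ = 0 := by
    simp only [hG]
    rw [hθ0, map_zero, zero_div]
  have hGm : ∀ I J : Ideal R, G (I * J) = G I * G J := by
    intro I J
    simp only [hG]
    rw [hθ.mul, b4, map_mul]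
    push_cast
    rw [mul_pow, mul_div_mul_comm]
  obtain ⟨-, e1⟩ := d2 (fun I => G I * (Vk (e + 1) (δ * nm I) : ℂ)) (by rw [hG0, zero_mul])
  have hGs : Summable (fun I => G I * (Vk (e + 1) (δ * nm I) : ℂ)) := by
    refine Summable.of_norm_bounded (hsum2.mul_left (Cm * δ⁻¹ ^ 2)) fun I => ?_
    have h6 := hbd G δ⁻¹ (by positivity) (fun I => by
      have := hle I
      simp only [hG]
      rw [norm_div] at this ⊢
      rwa [RCLike.norm_conj]) hG0 I
    rw [div_inv_eq_mul, mul_comm (nm I) δ] at h6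
    exact h6
  rw [e1 hGs, Finset.mul_sum]
  refine Finset.sum_congr rfl fun b hb => ?_
  have hbne := hS.cs.ne b hb
  have hbp := hpos b hbne
  have hθb : θ b ≠ 0 := by
    intro h
    rcases (hθ.zero b).1 h with h | h
    · exact hbne h
    · exact h (hS.cp b hb)
  have hbC : (nm b : ℂ) ≠ 0 := by exact_mod_cast hbp.ne'
  have hGb : G b ≠ 0 := by
    simp only [hG]
    exact div_ne_zero ((map_ne_zero _).2 hθb) (pow_ne_zero _ hbC)
  have hGi : (G b)⁻¹ = θ b * ((nm b : ℂ) ^ e)⁻¹ := by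
    simp only [hG]
    have h6 := f1 b hbne (hS.cp b hb)
    have h7 : θ b * (starRingEnd ℂ) (θ b) = (nm b : ℂ) ^ (2 * e + 1) := by
      rw [Complex.mul_conj, Complex.normSq_eq_norm_sq, h6]
      push_cast
      rfl
    have h8 : (starRingEnd ℂ) (θ b) ≠ 0 := (map_ne_zero _).2 hθb
    rw [inv_div, div_eq_iff h8]
    have h9 : θ b * ((nm b : ℂ) ^ e)⁻¹ * (starRingEnd ℂ) (θ b) = (nm b : ℂ) ^ (2 * e + 1) *
        ((nm b : ℂ) ^ e)⁻¹ := by
      rw [← h7]
      ring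
    rw [h9, eq_mul_inv_iff_mul_eq₀ (pow_ne_zero _ hbC), ← pow_add]
    congr 1
    ring
  have hterm : ∀ α : R, (if α ∈ b then G (quo b α) * (Vk (e + 1) (δ * nm (quo b α)) : ℂ)
      else 0) = θ b * ((nm b : ℂ) ^ e)⁻¹ * (ck e θ b α * gd e (δ / nm b) (α : ℂ)) := by
    intro α
    unfold ck
    by_cases hα : α ∈ b
    · rw [if_pos hα, if_pos hα, quo_gen hGm b4 b5 hGb hbp (d1 b hbne α hα)
        (fun x => (Vk (e + 1) x : ℂ)) δ, hGi]
      congr 1
      unfold gd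
      rw [← mul_assoc]
      congr 1
      simp only [hG]
      rw [b5]
      by_cases h0 : α = 0
      · subst h0
        have : sp (0 : R) = ⊥ := by rw [Ideal.span_singleton_eq_bot]
        rw [this, hθ0]
        unfold fp
        rw [this, hθ0]
        simp
      · have h0' : (α : ℂ) ≠ 0 := fun h => h0 (Subtype.ext h)
        unfold fp gg
        rw [map_div₀, map_pow, ← Complex.mul_conj, inv_pow]
        have h9 : (starRingEnd ℂ) (α : ℂ) ≠ 0 := (map_ne_zero _).2 h0'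
        rw [mul_pow]
        have h10 : (starRingEnd ℂ) (α : ℂ) ^ (2 * e + 1) = (starRingEnd ℂ) (α : ℂ) ^ (e + 1) * (starRingEnd ℂ) (α : ℂ) ^ e := by
          rw [← pow_add]
          congr 1
          ring
        rw [h10]
        field_simp
    · rw [if_neg hα, if_neg hα, zero_mul, mul_zero]
  rw [tsum_congr hterm, tsum_mul_left]
  unfold SK
  field_simp

end Pool.Agent.TH936.CW
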