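import Pool.Agent.TH936.CM.Tor

/-!
# Polynomials in `ζ(z) - p z - q v`, `℘(z)`, `℘'(z)`
-/

set_option autoImplicit false

open Filter
open scoped Topology PeriodPair

namespace Pool.Agent.TH936.CW

open H667R3

/-- the ring of polynomials -/
abbrev PP := MvPolynomial (Fin 3) ℂ

/-- the derivation -/
noncomputable def Dv (p g : ℂ) : Derivation ℂ PP PP :=
  MvPolynomial.mkDerivation ℂ ![-MvPolynomial.X 1 - MvPolynomial.C p, MvPolynomial.X 2,
    MvPolynomial.C 6 * MvPolynomial.X 1 ^ 2 - MvPolynomial.C (g / 2)]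

lemma Dv_C (p g a : ℂ) : Dv p g (MvPolynomial.C a) = 0 := by
  have := (Dv p g).map_algebraMap a
  rwa [MvPolynomial.algebraMap_eq] at this

lemma Dv_X0 (p g : ℂ) : Dv p g (MvPolynomial.X 0) = -MvPolynomial.X 1 - MvPolynomial.C p :=
  MvPolynomial.mkDerivation_X _ _ _

lemma Dv_X1 (p g : ℂ) : Dv p g (MvPolynomial.X 1) = MvPolynomial.X 2 :=
  MvPolynomial.mkDerivation_X _ _ _

lemma Dv_X2 (p g : ℂ) : Dv p g (MvPolynomial.X 2) =
    MvPolynomial.C 6 * MvPolynomial.X 1 ^ 2 - MvPolynomial.C (g / 2) :=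
  MvPolynomial.mkDerivation_X _ _ _

/-- the value -/
noncomputable def ev (a b c : ℂ) (P : PP) : ℂ := MvPolynomial.eval ![a, b, c] P

lemma ev_add (a b c : ℂ) (P Q : PP) : ev a b c (P + Q) = ev a b c P + ev a b c Q :=
  map_add _ _ _

lemma ev_mul (a b c : ℂ) (P Q : PP) : ev a b c (P * Q) = ev a b c P * ev a b c Q :=
  map_mul _ _ _

lemma ev_C (a b c x : ℂ) : ev a b c (MvPolynomial.C x) = x := MvPolynomial.eval_C _

lemma ev_sum (a b c : ℂ) {ι : Type*} (s : Finset ι) (f : ι → PP) :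
    ev a b c (∑ i ∈ s, f i) = ∑ i ∈ s, ev a b c (f i) := map_sum _ _ _

lemma ev_X0 (a b c : ℂ) : ev a b c (MvPolynomial.X 0) = a := by simp [ev]
lemma ev_X1 (a b c : ℂ) : ev a b c (MvPolynomial.X 1) = b := by simp [ev]
lemma ev_X2 (a b c : ℂ) : ev a b c (MvPolynomial.X 2) = c := by simp [ev]

/-- the derivative of the value -/
lemma ev_deriv {p g : ℂ} {x y y' : ℂ → ℂ} {z : ℂ} (hx : HasDerivAt x (-y z - p) z)
    (hy : HasDerivAt y (y' z) z) (hy' : HasDerivAt y' (6 * y z ^ 2 - g / 2) z) (P : PP) :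
    HasDerivAt (fun u => ev (x u) (y u) (y' u) P) (ev (x z) (y z) (y' z) (Dv p g P)) z := by
  induction P using MvPolynomial.induction_on with
  | C a =>
    simp only [ev_C, Dv_C]
    have : ev (x z) (y z) (y' z) 0 = 0 := by simp [ev]
    rw [this]
    exact hasDerivAt_const _ _
  | add P Q hP hQ =>
    simp only [ev_add, map_add]
    exact hP.add hQ
  | mul_X P i hP =>
    have hX : HasDerivAt (fun u => ev (x u) (y u) (y' u) (MvPolynomial.X i))
        (ev (x z) (y z) (y' z) (Dv p g (MvPolynomial.X i))) z := by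
      fin_cases i
      · show HasDerivAt (fun u => ev (x u) (y u) (y' u) (MvPolynomial.X 0))
          (ev (x z) (y z) (y' z) (Dv p g (MvPolynomial.X 0))) z
        simp only [ev_X0, Dv_X0]
        have e : ev (x z) (y z) (y' z) (-MvPolynomial.X 1 - MvPolynomial.C p) = -y z - p := by
          simp [ev]
        rw [e]
        exact hx
      · show HasDerivAt (fun u => ev (x u) (y u) (y' u) (MvPolynomial.X 1))
          (ev (x z) (y z) (y' z) (Dv p g (MvPolynomial.X 1))) z
        simp only [ev_X1, Dv_X1, ev_X2]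
        exact hy
      · show HasDerivAt (fun u => ev (x u) (y u) (y' u) (MvPolynomial.X 2))
          (ev (x z) (y z) (y' z) (Dv p g (MvPolynomial.X 2))) z
        simp only [ev_X2, Dv_X2]
        have e : ev (x z) (y z) (y' z) (MvPolynomial.C 6 * MvPolynomial.X 1 ^ 2 -
            MvPolynomial.C (g / 2)) = 6 * y z ^ 2 - g / 2 := by
          simp [ev]
        rw [e]
        exact hy'
    simp only [ev_mul]
    rw [Derivation.leibniz]
    have e : ev (x z) (y z) (y' z) (P • Dv p g (MvPolynomial.X i) +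
        (MvPolynomial.X i : PP) • Dv p g P) = ev (x z) (y z) (y' z) (Dv p g P) *
        ev (x z) (y z) (y' z) (MvPolynomial.X i) + ev (x z) (y z) (y' z) P *
        ev (x z) (y z) (y' z) (Dv p g (MvPolynomial.X i)) := by
      rw [ev_add, smul_eq_mul, smul_eq_mul, ev_mul, ev_mul]
      ring
    rw [e]
    exact hP.mul hX

/-! ### automorphisms -/

lemma map_Dv (σ : ℂ ≃+* ℂ) {p g : ℂ} (hp : σ p = p) (hg : σ g = g) (P : PP) :
    MvPolynomial.map (σ : ℂ →+* ℂ) (Dv p g P) = Dv p g (MvPolynomial.map (σ : ℂ →+* ℂ) P) := by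
  induction P using MvPolynomial.induction_on with
  | C a => simp only [Dv_C, MvPolynomial.map_C, map_zero]
  | add P Q hP hQ => simp only [map_add, hP, hQ]
  | mul_X P i hP =>
    have hX : MvPolynomial.map (σ : ℂ →+* ℂ) (Dv p g (MvPolynomial.X i)) =
        Dv p g (MvPolynomial.X i) := by
      fin_cases i
      · show MvPolynomial.map (σ : ℂ →+* ℂ) (Dv p g (MvPolynomial.X 0)) =
          Dv p g (MvPolynomial.X 0)
        simp only [Dv_X0, map_sub, map_neg, MvPolynomial.map_X, MvPolynomial.map_C]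
        rw [RingEquiv.coe_toRingHom, hp]
      · show MvPolynomial.map (σ : ℂ →+* ℂ) (Dv p g (MvPolynomial.X 1)) =
          Dv p g (MvPolynomial.X 1)
        simp only [Dv_X1, MvPolynomial.map_X]
      · show MvPolynomial.map (σ : ℂ →+* ℂ) (Dv p g (MvPolynomial.X 2)) =
          Dv p g (MvPolynomial.X 2)
        simp only [Dv_X2, map_sub, map_mul, map_pow, MvPolynomial.map_X, MvPolynomial.map_C]
        have h6 : σ 6 = 6 := map_ofNat σ 6
        have h2 : σ 2 = 2 := map_ofNat σ 2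
        rw [RingEquiv.coe_toRingHom, map_div₀, hg, h6, h2]
    rw [Derivation.leibniz, map_add, smul_eq_mul, smul_eq_mul, map_mul, map_mul, hX, hP, map_mul,
      MvPolynomial.map_X, Derivation.leibniz, smul_eq_mul, smul_eq_mul]

lemma map_ev (σ : ℂ ≃+* ℂ) (a b c : ℂ) (P : PP) :
    σ (ev a b c P) = ev (σ a) (σ b) (σ c) (MvPolynomial.map (σ : ℂ →+* ℂ) P) := by
  induction P using MvPolynomial.induction_on with
  | C x => simp only [ev_C, MvPolynomial.map_C, RingEquiv.coe_toRingHom]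
  | add P Q hP hQ => simp only [ev_add, map_add, hP, hQ]
  | mul_X P i hP =>
    simp only [ev_mul, map_mul, hP, MvPolynomial.map_X]
    congr 1
    fin_cases i <;> simp [ev]

/-! ### the second derivative of `℘` -/

variable (L : PeriodPair)

lemma hasDerivAt_wp'_all {z : ℂ} (hz : z ∉ L.lattice) :
    HasDerivAt ℘'[L] (6 * ℘[L] z ^ 2 - L.g₂ / 2) z := by
  have hd : DifferentiableAt ℂ ℘'[L] z :=
    (L.differentiableOn_derivWeierstrassP z hz).differentiableAt ((isOpen_compl L).mem_nhds hz)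
  have han : AnalyticAt ℂ ℘'[L] z := L.analyticOnNhd_derivWeierstrassP z hz
  have han2 : AnalyticAt ℂ ℘[L] z := L.analyticOnNhd_weierstrassP z hz
  have hc1 : ContinuousAt (deriv ℘'[L]) z := han.deriv.continuousAt
  have hc2 : ContinuousAt (fun u => 6 * ℘[L] u ^ 2 - L.g₂ / 2) z :=
    ((han2.pow 2).continuousAt.const_mul 6).sub continuousAt_const
  have hev : ∀ᶠ u in 𝓝[≠] z, deriv ℘'[L] u = 6 * ℘[L] u ^ 2 - L.g₂ / 2 := by
    have h1 : ∀ᶠ u in 𝓝[≠] z, 2 * u ∉ L.lattice := by
      have h2 : ((L.lattice : Set ℂ) \ {2 * z})ᶜ ∈ 𝓝 (2 * z) :=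
        L.compl_lattice_sdiff_singleton_mem_nhds (2 * z)
      have h3 : Tendsto (fun u : ℂ => 2 * u) (𝓝 z) (𝓝 (2 * z)) :=
        (by fun_prop : Continuous fun u : ℂ => 2 * u).tendsto z
      have h4 := h3.eventually h2
      filter_upwards [h4.filter_mono nhdsWithin_le_nhds, self_mem_nhdsWithin] with u hu hu'
      intro h5
      apply hu
      refine ⟨h5, ?_⟩
      intro h6
      have h7 : 2 * u = 2 * z := h6
      exact hu' (mul_left_cancel₀ two_ne_zero h7)
    filter_upwards [h1] with u hu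
    exact (hasDerivAt_wp' L hu).deriv
  have h5 : Tendsto (deriv ℘'[L]) (𝓝[≠] z) (𝓝 (deriv ℘'[L] z)) :=
    hc1.tendsto.mono_left nhdsWithin_le_nhds
  have h6 : Tendsto (deriv ℘'[L]) (𝓝[≠] z) (𝓝 (6 * ℘[L] z ^ 2 - L.g₂ / 2)) :=
    (hc2.tendsto.mono_left nhdsWithin_le_nhds).congr' (hev.mono fun u hu => hu.symm)
  rw [← tendsto_nhds_unique h5 h6]
  exact hd.hasDerivAt

end Pool.Agent.TH936.CW
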