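import Pool.Agent.TH936.CM.Rnk

/-!
# The sum of the orders of vanishing at a point over the ray class characters modulo `c`
-/

set_option autoImplicit false

open Polynomial

namespace Pool.Agent.TH936.CW

open Pool.Agent.W192.HK Pool.Agent.W366.HK Pool.Agent.TH936.CM

variable {R : Subring ℂ} {ω : ℂ}

theorem rank_boundK (hdiv : Pool.Agent.W192.CY.S_DIV) (h1 : H_BASIC) (h6 : H_CLS)
    (h3 : H_CNT) (h7 : H_DIVR) (hR : QR R ω) {f : Ideal R} (z₀ : ℂ) (L : (Ideal R → ℂ) → ℂ → ℂ)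
    (hL : ∀ ε : ℝ, 0 < ε → ∃ N0 : ℝ, ∀ (c : Ideal R) (χ : Ideal R → ℂ), IsCoprime f c →
      HC 0 c χ → N0 ≤ nm c → ∀ d : ℕ, Od χ d → (nm c) ^ (2 / 3 + ε) ≤ d → L χ z₀ ≠ 0)
    (hD : ∀ (c : Ideal R) (χ : Ideal R → ℂ), IsCoprime f c → HC 0 c χ →
      Differentiable ℂ (L χ))
    {K : ℝ} (hK : 0 < K) (hord : ∀ (c : Ideal R) (χ : Ideal R → ℂ), IsCoprime f c → HC 0 c χ →
      (analyticOrderNatAt (L χ) z₀ : ℝ) ≤ K * (1 + Real.log (nm c))) (ε : ℝ) (hε : 0 < ε) :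
    ∃ C : ℝ, 0 < C ∧ ∀ c : Ideal R, IsCoprime f c → c ≠ ⊥ → IsCyclic (R ⧸ c)ˣ →
      (Ach c).Finite ∧ ∑ᶠ χ ∈ Ach c, (analyticOrderNatAt (L χ) z₀ : ℝ) ≤
        C * nm c ^ (2 / 3 + ε) := by
  classical
  set δ : ℝ := ε / 4 with hδ
  have hδ0 : 0 < δ := by positivity
  obtain ⟨N0, hN0⟩ := hL δ hδ0
  obtain ⟨C1, hC1, hcntX⟩ := cnt_X hdiv h1 h6 hR δ hδ0
  obtain ⟨C2, hC2, hdv⟩ := h7 R ω hR δ hδ0
  obtain ⟨C3, hC3, -, ho⟩ := (h3 R ω hR).2.2
  obtain ⟨b1, b2, b3, b4, b5, b6, b7, -⟩ := h1 R ω hR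
  set N1 : ℝ := max N0 1 with hN1
  have hN11 : 1 ≤ N1 := le_max_right _ _
  -- the logarithm
  have hlog : ∀ x : ℝ, 1 ≤ x → 1 + Real.log x ≤ (1 + 1 / δ) * x ^ δ := by
    intro x hx
    have e1 := Real.log_le_rpow_div (show (0 : ℝ) ≤ x by linarith) hδ0
    have e2 : 1 ≤ x ^ δ := Real.one_le_rpow hx hδ0.le
    calc 1 + Real.log x ≤ x ^ δ + x ^ δ / δ := add_le_add e2 e1
      _ = (1 + 1 / δ) * x ^ δ := by ring
  refine ⟨C2 * (C1 * (1 + C3 * N1)) * (K * (1 + 1 / δ)), by positivity,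
    fun c hc hcb hcyc => ?_⟩
  have hn1 : 1 ≤ nm c := b3 c hcb
  have hn0 : 0 < nm c := by linarith
  obtain ⟨hdf, hdc⟩ := hdv c hcb
  have hdb : ∀ c' : Ideal R, c' ∣ c → c' ≠ ⊥ := by
    rintro c' ⟨J, hJ⟩ rfl
    rw [Ideal.bot_mul] at hJ
    exact hcb hJ
  have hdcop : ∀ c' : Ideal R, c' ∣ c → IsCoprime f c' := by
    rintro c' ⟨J, hJ⟩
    rw [hJ] at hc
    exact hc.of_mul_right_left
  -- finiteness
  have hfinA : (Ach c).Finite := by
    have h8 : Ach c ⊆ ⋃ c' ∈ {J : Ideal R | J ∣ c},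
        {χ : Ideal R → ℂ | RC c' χ ∧ ∀ d, Od χ d → (d : ℝ) ≤ C3 * nm c'} := by
      rintro χ ⟨c', hc', hχ⟩
      simp only [Set.mem_iUnion]
      exact ⟨c', hc', hχ.rc, fun d hd => (ho c' χ hχ.rc d hd).1⟩
    refine Set.Finite.subset (Set.Finite.biUnion hdf fun c' hc' => ?_) h8
    have := b3 c' (hdb c' hc')
    exact (hcntX c' (hdb c' hc') (cyc_of_dvd h1 hR hcb hc' hcyc) _ (by positivity)).1
  refine ⟨hfinA, ?_⟩
  rw [finsum_mem_eq_finite_toFinset_sum _ hfinA]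
  -- the characters with a zero
  set X : ℝ := (1 + C3 * N1) * nm c ^ (2 / 3 + δ) with hX
  have hX0 : 0 ≤ X := by positivity
  set Zc : Set (Ideal R → ℂ) := {χ | χ ∈ Ach c ∧ L χ z₀ = 0} with hZc
  have hZsub : Zc ⊆ ⋃ c' ∈ hdf.toFinset,
      {χ : Ideal R → ℂ | RC c' χ ∧ ∀ d, Od χ d → (d : ℝ) ≤ X} := by
    rintro χ ⟨⟨c', hc', hχ⟩, h0⟩
    simp only [Set.mem_iUnion]
    refine ⟨c', hdf.mem_toFinset.2 hc', hχ.rc, fun d hd => ?_⟩
    have hm1 : 1 ≤ nm c' := b3 c' (hdb c' hc')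
    have hmle : nm c' ≤ nm c := b6 c c' hcb hc'
    have hpw : nm c' ^ (2 / 3 + δ) ≤ nm c ^ (2 / 3 + δ) :=
      Real.rpow_le_rpow (by linarith) hmle (by positivity)
    have hone : 1 ≤ nm c ^ (2 / 3 + δ) := Real.one_le_rpow hn1 (by positivity)
    have hCN : 0 ≤ C3 * N1 := by positivity
    by_cases hN : N0 ≤ nm c'
    · have h9 : (d : ℝ) < nm c' ^ (2 / 3 + δ) := by
        by_contra hlt
        push Not at hlt
        exact hN0 c' χ (hdcop c' hc') hχ hN d hd hlt h0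
      rw [hX]
      nlinarith
    · push Not at hN
      have h9 := (ho c' χ hχ.rc d hd).1
      have h10 : nm c' ≤ N1 := hN.le.trans (le_max_left _ _)
      have h11 : C3 * nm c' ≤ C3 * N1 := mul_le_mul_of_nonneg_left h10 hC3.le
      rw [hX]
      nlinarith
  have hpiece : ∀ c' ∈ hdf.toFinset,
      {χ : Ideal R → ℂ | RC c' χ ∧ ∀ d, Od χ d → (d : ℝ) ≤ X}.Finite ∧
      ({χ : Ideal R → ℂ | RC c' χ ∧ ∀ d, Od χ d → (d : ℝ) ≤ X}.ncard : ℝ) ≤
        C1 * X * nm c ^ δ := by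
    intro c' hc'
    have hc'' : c' ∣ c := hdf.mem_toFinset.1 hc'
    obtain ⟨g1, g2⟩ := hcntX c' (hdb c' hc'') (cyc_of_dvd h1 hR hcb hc'' hcyc) X hX0
    refine ⟨g1, g2.trans ?_⟩
    refine mul_le_mul_of_nonneg_left ?_ (by positivity)
    exact Real.rpow_le_rpow (by linarith [b3 c' (hdb c' hc'')]) (b6 c c' hcb hc'') hδ0.le
  have hZfin : Zc.Finite := hfinA.subset fun χ hχ => hχ.1
  have hUfin : (⋃ c' ∈ hdf.toFinset,
      {χ : Ideal R → ℂ | RC c' χ ∧ ∀ d, Od χ d → (d : ℝ) ≤ X}).Finite :=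
    Set.Finite.biUnion (Finset.finite_toSet _) fun c' hc' => (hpiece c' hc').1
  have hZcard : (Zc.ncard : ℝ) ≤ (C2 * nm c ^ δ) * (C1 * X * nm c ^ δ) := by
    have g1 := (Set.ncard_le_ncard hZsub hUfin).trans (Finset.set_ncard_biUnion_le _ _)
    calc (Zc.ncard : ℝ) ≤ ((∑ c' ∈ hdf.toFinset,
          {χ : Ideal R → ℂ | RC c' χ ∧ ∀ d, Od χ d → (d : ℝ) ≤ X}.ncard : ℕ) : ℝ) := by
          exact_mod_cast g1
      _ ≤ ∑ _c' ∈ hdf.toFinset, (C1 * X * nm c ^ δ) := by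
          push_cast
          exact Finset.sum_le_sum fun c' hc' => (hpiece c' hc').2
      _ = (hdf.toFinset.card : ℝ) * (C1 * X * nm c ^ δ) := by
          rw [Finset.sum_const, nsmul_eq_mul]
      _ ≤ (C2 * nm c ^ δ) * (C1 * X * nm c ^ δ) := by
          refine mul_le_mul_of_nonneg_right ?_ (by positivity)
          rw [← Set.ncard_eq_toFinset_card _ hdf]
          exact hdc
  -- the sum
  have hmain : ∑ χ ∈ hfinA.toFinset, (analyticOrderNatAt (L χ) z₀ : ℝ) ≤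
      Zc.ncard * (K * ((1 + 1 / δ) * nm c ^ δ)) := by
    have g1 : ∑ χ ∈ hfinA.toFinset, (analyticOrderNatAt (L χ) z₀ : ℝ) =
        ∑ χ ∈ hZfin.toFinset, (analyticOrderNatAt (L χ) z₀ : ℝ) := by
      symm
      refine Finset.sum_subset ?_ ?_
      · intro χ hχ
        rw [Set.Finite.mem_toFinset] at hχ ⊢
        exact hχ.1
      · intro χ hχ hχ'
        rw [Set.Finite.mem_toFinset] at hχ hχ'
        have hne : L χ z₀ ≠ 0 := fun h => hχ' ⟨hχ, h⟩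
        obtain ⟨c', hc', hχc⟩ := hχ
        have hd := hD c' χ (hdcop c' hc') hχc
        have h0 : analyticOrderAt (L χ) z₀ = 0 :=
          (hd.analyticAt z₀).analyticOrderAt_eq_zero.2 hne
        unfold analyticOrderNatAt
        rw [h0]
        simp
    rw [g1]
    calc ∑ χ ∈ hZfin.toFinset, (analyticOrderNatAt (L χ) z₀ : ℝ)
        ≤ ∑ _χ ∈ hZfin.toFinset, K * ((1 + 1 / δ) * nm c ^ δ) := by
          refine Finset.sum_le_sum fun χ hχ => ?_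
          rw [Set.Finite.mem_toFinset] at hχ
          obtain ⟨⟨c', hc', hχc⟩, -⟩ := hχ
          refine (hord c' χ (hdcop c' hc') hχc).trans ?_
          refine mul_le_mul_of_nonneg_left ?_ hK.le
          have hm1 : 1 ≤ nm c' := b3 c' (hdb c' hc')
          refine (hlog _ hm1).trans ?_
          refine mul_le_mul_of_nonneg_left ?_ (by positivity)
          exact Real.rpow_le_rpow (by linarith) (b6 c c' hcb hc') hδ0.le
      _ = Zc.ncard * (K * ((1 + 1 / δ) * nm c ^ δ)) := by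
          rw [Finset.sum_const, nsmul_eq_mul, ← Set.ncard_eq_toFinset_card _ hZfin]
  refine hmain.trans ?_
  have hfac : 0 ≤ K * ((1 + 1 / δ) * nm c ^ δ) := by positivity
  refine (mul_le_mul_of_nonneg_right hZcard hfac).trans (le_of_eq ?_)
  have e1 : nm c ^ (2 / 3 + ε) = nm c ^ δ * (nm c ^ (2 / 3 + δ) * nm c ^ δ) * nm c ^ δ := by
    rw [← Real.rpow_add hn0, ← Real.rpow_add hn0, ← Real.rpow_add hn0]
    congr 1
    rw [hδ]
    ring
  rw [e1, hX]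
  ring

end Pool.Agent.TH936.CW
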