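import Pool.Agent.TH936.CW.Bdp

/-!
# The second difference of the Eisenstein-Kronecker series is a second difference of an elliptic
expression
-/

set_option autoImplicit false

open Filter
open scoped Topology PeriodPair

namespace Pool.Agent.TH936.CW

open H667R3


variable (L : PeriodPair)

/-- the term -/
noncomputable def tm (n : ℕ) (v t : ℂ) (l : L.lattice) (z : ℂ) : ℂ :=
  gg n (v + (starRingEnd ℂ) l + (starRingEnd ℂ) t) (z + l + t) + gg n (v + (starRingEnd ℂ) l - (starRingEnd ℂ) t) (z + l - t) -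
    2 * gg n (v + (starRingEnd ℂ) l) (z + l)

/-- the sum -/
noncomputable def TT (n : ℕ) (v t z : ℂ) : ℂ := ∑' l : L.lattice, tm L n v t l z

/-- the constant -/
noncomputable def Kc (n : ℕ) (t : ℂ) : ℝ := 128 * (3 ^ n * 2 ^ (n + 1)) * ‖t‖ ^ 2 * 8

lemma tm_bound (n : ℕ) (v t z : ℂ) (l : L.lattice) {B : ℝ} (hz : ‖z‖ < B)
    (hM : 2 * B + 16 * ‖t‖ + 2 * ‖v‖ + 1 ≤ ‖(l : ℂ)‖) :
    ‖tm L n v t l z‖ ≤ Kc n t * (‖(l : ℂ)‖ ^ 3)⁻¹ := by
  have hB : 0 < B := (norm_nonneg z).trans_lt hz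
  have ht0 := norm_nonneg t
  have hv0 := norm_nonneg v
  have hl0 : 0 < ‖(l : ℂ)‖ := by linarith
  have h1 : ‖(l : ℂ)‖ ≤ ‖z + l‖ + ‖z‖ := by
    have : (l : ℂ) = (z + l) - z := by ring
    calc ‖(l : ℂ)‖ = ‖(z + l) - z‖ := by rw [← this]
      _ ≤ _ := norm_sub_le _ _
  have h2 : ‖(l : ℂ)‖ / 2 ≤ ‖z + l‖ := by linarith
  have hne : z + (l : ℂ) ≠ 0 := by
    intro h
    rw [h, norm_zero] at h2
    linarith
  have h3 := gg_sec n (a := v + (starRingEnd ℂ) l) (b := (starRingEnd ℂ) t) (u := z + l) (t := t) hne (by linarith) (by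
    refine (norm_add_le _ _).trans ?_
    rw [RCLike.norm_conj]
    linarith) (RCLike.norm_conj t)
  refine h3.trans ?_
  unfold Kc
  have h4 : (‖z + (l : ℂ)‖ ^ 3)⁻¹ ≤ 8 * (‖(l : ℂ)‖ ^ 3)⁻¹ := by
    calc (‖z + (l : ℂ)‖ ^ 3)⁻¹ ≤ ((‖(l : ℂ)‖ / 2) ^ 3)⁻¹ :=
          inv_anti₀ (by positivity) (by gcongr)
      _ = 8 * (‖(l : ℂ)‖ ^ 3)⁻¹ := by field_simp; norm_num
  calc 128 * (3 ^ n * 2 ^ (n + 1)) * ‖t‖ ^ 2 * (‖z + (l : ℂ)‖ ^ 3)⁻¹
      ≤ 128 * (3 ^ n * 2 ^ (n + 1)) * ‖t‖ ^ 2 * (8 * (‖(l : ℂ)‖ ^ 3)⁻¹) := by gcongr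
    _ = _ := by ring

lemma summable_tm (n : ℕ) (v t z : ℂ) : Summable (fun l : L.lattice => tm L n v t l z) := by
  refine Summable.of_norm_bounded_eventually ((summable_inv_cube' L).mul_left (Kc n t)) ?_
  filter_upwards [eventually_norm_ge L (2 * (‖z‖ + 1) + 16 * ‖t‖ + 2 * ‖v‖ + 1)] with l hl
  exact tm_bound L n v t z l (B := ‖z‖ + 1) (by linarith) hl

lemma gg_div (n : ℕ) (v u : ℂ) : gg n v u = v ^ n / u ^ (n + 1) := by
  unfold gg
  rw [inv_pow, div_eq_mul_inv]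

lemma gg_an (n : ℕ) (v a : ℂ) {z : ℂ} (h : z + a ≠ 0) :
    AnalyticAt ℂ (fun z => gg n v (z + a)) z := by
  unfold gg
  have h1 : AnalyticAt ℂ (fun z : ℂ => z + a) z := by fun_prop
  exact analyticAt_const.mul ((h1.inv h).pow _)

lemma tm_diff (n : ℕ) (v t : ℂ) (l : L.lattice) {z : ℂ} (h0 : z + l ≠ 0) (h1 : z + l + t ≠ 0)
    (h2 : z + l - t ≠ 0) : DifferentiableAt ℂ (tm L n v t l) z := by
  unfold tm
  have e1 := (gg_an n (v + (starRingEnd ℂ) l + (starRingEnd ℂ) t) ((l : ℂ) + t) (z := z) (by rwa [← add_assoc])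
    ).differentiableAt
  have e2 := (gg_an n (v + (starRingEnd ℂ) l - (starRingEnd ℂ) t) ((l : ℂ) - t) (z := z) (by rwa [← add_sub_assoc])
    ).differentiableAt
  have e3 := (gg_an n (v + (starRingEnd ℂ) l) (l : ℂ) (z := z) h0).differentiableAt
  have f1 : (fun z => gg n (v + (starRingEnd ℂ) l + (starRingEnd ℂ) t) (z + ((l : ℂ) + t))) =
      fun z => gg n (v + (starRingEnd ℂ) l + (starRingEnd ℂ) t) (z + l + t) := by
    funext z
    have : z + ((l : ℂ) + t) = z + l + t := by ring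
    rw [this]
  have f2 : (fun z => gg n (v + (starRingEnd ℂ) l - (starRingEnd ℂ) t) (z + ((l : ℂ) - t))) =
      fun z => gg n (v + (starRingEnd ℂ) l - (starRingEnd ℂ) t) (z + l - t) := by
    funext z
    have : z + ((l : ℂ) - t) = z + l - t := by ring
    rw [this]
  rw [f1] at e1
  rw [f2] at e2
  exact (e1.add e2).sub (e3.const_mul 2)

lemma TF_diff (n : ℕ) (v t : ℂ) (B : ℝ) (S : Finset L.lattice)
    (hS : ∀ l ∉ S, 2 * B + 16 * ‖t‖ + 2 * ‖v‖ + 1 ≤ ‖(l : ℂ)‖) :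
    DifferentiableOn ℂ (fun z => ∑' l : ((S : Set L.lattice)ᶜ : Set L.lattice), tm L n v t l z)
      (Metric.ball 0 B) := by
  refine Complex.differentiableOn_tsum_of_summable_norm
    (u := fun l : ((S : Set L.lattice)ᶜ : Set L.lattice) => Kc n t * (‖((l : L.lattice) : ℂ)‖ ^ 3)⁻¹)
    (((summable_inv_cube' L).mul_left (Kc n t)).subtype _) ?_ Metric.isOpen_ball ?_
  · rintro ⟨l, hl⟩ z hz
    have hz' : ‖z‖ < B := by simpa using hz
    have h1 := hS l hl
    have ht := norm_nonneg t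
    have hv := norm_nonneg v
    have hne : ∀ s : ℂ, ‖s‖ ≤ ‖t‖ → z + (l : ℂ) + s ≠ 0 := by
      intro s hs h
      have h2 : (l : ℂ) = -(z + s) := by linear_combination h
      have h3 : ‖(l : ℂ)‖ ≤ ‖z‖ + ‖s‖ := by
        rw [h2, norm_neg]
        exact norm_add_le _ _
      linarith [norm_nonneg z]
    refine (tm_diff L n v t l ?_ (hne t le_rfl) ?_).differentiableWithinAt
    · have := hne 0 (by rw [norm_zero]; exact ht)
      rwa [add_zero] at this
    · have := hne (-t) (by rw [norm_neg])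
      rwa [← sub_eq_add_neg] at this
  · rintro ⟨l, hl⟩ z hz
    exact tm_bound L n v t z l (by simpa using hz) (hS l hl)

variable {L}

lemma tend_sub (z₁ a : ℂ) : Tendsto (fun z : ℂ => z + a) (𝓝[≠] z₁) (𝓝[≠] (z₁ + a)) := by
  rw [tendsto_nhdsWithin_iff]
  constructor
  · have h : Continuous (fun z : ℂ => z + a) := by fun_prop
    exact (h.tendsto z₁).mono_left nhdsWithin_le_nhds
  · filter_upwards [self_mem_nhdsWithin] with z hz
    intro h
    apply hz
    have : z + a = z₁ + a := h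
    exact add_right_cancel this

/-- regularity of the elliptic expression minus the finite sum -/
lemma reg {p q : ℂ} (hpq : ∀ l ∈ L.lattice, eta L l = p * l + q * (starRingEnd ℂ) l) (n : ℕ) (v z₁ : ℂ)
    (S : Finset L.lattice) (hS : ∀ l : L.lattice, z₁ + l = 0 → l ∈ S) :
    ∃ A : ℂ → ℂ, AnalyticAt ℂ A z₁ ∧ (∀ᶠ z in 𝓝[≠] z₁,
      q ^ n * ∑ l ∈ S, gg n (v + (starRingEnd ℂ) l) (z + l) - evz L p q v z (Pp L p n) = A z) ∧
      (z₁ ∉ L.lattice → q ^ n * ∑ l ∈ S, gg n (v + (starRingEnd ℂ) l) (z₁ + l) -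
        evz L p q v z₁ (Pp L p n) = A z₁) := by
  classical
  by_cases hz : z₁ ∈ L.lattice
  · set l₁ : L.lattice := ⟨-z₁, neg_mem hz⟩ with hl₁
    have hl₁c : (l₁ : ℂ) = -z₁ := rfl
    have hmem : l₁ ∈ S := hS l₁ (by rw [hl₁c]; ring)
    obtain ⟨Ψ, hΨ, hΨe⟩ := Pp_near L p q n (v + (starRingEnd ℂ) l₁)
    have e0 : z₁ + (l₁ : ℂ) = 0 := by rw [hl₁c]; ring
    have hlim := tend_sub z₁ (l₁ : ℂ)
    rw [e0] at hlim
    refine ⟨fun z => q ^ n * ∑ l ∈ S.erase l₁, gg n (v + (starRingEnd ℂ) l) (z + l) - Ψ (z + l₁), ?_, ?_,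
      fun h => absurd hz h⟩
    · have h1 : AnalyticAt ℂ (fun z => ∑ l ∈ S.erase l₁, gg n (v + (starRingEnd ℂ) l) (z + l)) z₁ := by
        refine Finset.analyticAt_fun_sum _ fun l hl => gg_an n _ _ ?_
        intro h
        apply (Finset.mem_erase.1 hl).1
        apply Subtype.ext
        rw [hl₁c]
        linear_combination h
      have h2 : AnalyticAt ℂ (fun z => Ψ (z + l₁)) z₁ := by
        have h3 : AnalyticAt ℂ (fun z : ℂ => z + (l₁ : ℂ)) z₁ := by fun_prop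
        refine AnalyticAt.fun_comp (f := fun z : ℂ => z + (l₁ : ℂ)) (g := Ψ) ?_ h3
        rw [e0]
        exact hΨ
      exact (analyticAt_const.mul h1).sub h2
    · filter_upwards [hlim.eventually hΨe, hlim.eventually (near L)] with z h1 h2
      have h3 : z ∉ L.lattice := fun h => h2 (add_mem h l₁.2)
      rw [evz_add L p q hpq h3 l₁.2] at h1
      rw [h1, ← Finset.add_sum_erase S _ hmem, ← gg_div]
      ring
  · refine ⟨fun z => q ^ n * ∑ l ∈ S, gg n (v + (starRingEnd ℂ) l) (z + l) - evz L p q v z (Pp L p n), ?_,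
      Eventually.of_forall fun z => rfl, fun _ => rfl⟩
    have h1 : AnalyticAt ℂ (fun z => ∑ l ∈ S, gg n (v + (starRingEnd ℂ) l) (z + l)) z₁ := by
      refine Finset.analyticAt_fun_sum _ fun l hl => gg_an n _ _ ?_
      intro h
      apply hz
      have : z₁ = -(l : ℂ) := by linear_combination h
      rw [this]
      exact neg_mem l.2
    exact (analyticAt_const.mul h1).sub (evz_an L p q v hz (Pp L p n))

/-- the difference -/
noncomputable def df (L : PeriodPair) (p q : ℂ) (n : ℕ) (v t z : ℂ) : ℂ :=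
  q ^ n * TT L n v t z - (evz L p q (v + (starRingEnd ℂ) t) (z + t) (Pp L p n) +
    evz L p q (v - (starRingEnd ℂ) t) (z - t) (Pp L p n) - 2 * evz L p q v z (Pp L p n))

lemma loc {p q : ℂ} (hpq : ∀ l ∈ L.lattice, eta L l = p * l + q * (starRingEnd ℂ) l) (n : ℕ) (v t z₀ : ℂ) :
    ∃ A : ℂ → ℂ, AnalyticAt ℂ A z₀ ∧ (∀ᶠ z in 𝓝[≠] z₀, df L p q n v t z = A z) ∧
      (z₀ ∉ L.lattice → z₀ + t ∉ L.lattice → z₀ - t ∉ L.lattice → df L p q n v t z₀ = A z₀) := by
  classical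
  set B : ℝ := ‖z₀‖ + 1 with hB
  set M : ℝ := 2 * B + 16 * ‖t‖ + 2 * ‖v‖ + 1 with hM
  have hfin : {l : L.lattice | ¬ M ≤ ‖(l : ℂ)‖}.Finite :=
    Filter.eventually_cofinite.1 (eventually_norm_ge L M)
  set S : Finset L.lattice := hfin.toFinset with hS
  have hSm : ∀ l, l ∉ S → M ≤ ‖(l : ℂ)‖ := by
    intro l hl
    by_contra hc
    exact hl (hfin.mem_toFinset.2 hc)
  have ht0 := norm_nonneg t
  have hv0 := norm_nonneg v
  have hz0 := norm_nonneg z₀
  have hSs : ∀ s : ℂ, ‖s‖ ≤ ‖t‖ → ∀ l : L.lattice, z₀ + s + l = 0 → l ∈ S := by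
    intro s hs l hl
    by_contra hc
    have h1 := hSm l hc
    have h2 : (l : ℂ) = -(z₀ + s) := by linear_combination hl
    have h3 : ‖(l : ℂ)‖ ≤ ‖z₀‖ + ‖s‖ := by
      rw [h2, norm_neg]
      exact norm_add_le _ _
    linarith
  obtain ⟨A1, a1, b1, c1⟩ := reg hpq n (v + (starRingEnd ℂ) t) (z₀ + t) S (hSs t le_rfl)
  obtain ⟨A2, a2, b2, c2⟩ := reg hpq n (v - (starRingEnd ℂ) t) (z₀ - t) S (by
    have := hSs (-t) (by rw [norm_neg])
    simpa only [← sub_eq_add_neg] using this)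
  obtain ⟨A0, a0, b0, c0⟩ := reg hpq n v z₀ S (by
    have := hSs 0 (by rw [norm_zero]; exact ht0)
    simpa only [add_zero] using this)
  set TF : ℂ → ℂ := fun z => ∑' l : ((S : Set L.lattice)ᶜ : Set L.lattice), tm L n v t l z with hTF
  have hTFd : DifferentiableOn ℂ TF (Metric.ball 0 B) := TF_diff L n v t B S hSm
  have hTFa : AnalyticAt ℂ TF z₀ := by
    refine hTFd.analyticAt (Metric.isOpen_ball.mem_nhds ?_)
    rw [mem_ball_zero_iff]
    linarith
  have hTT : ∀ z, TT L n v t z = ∑ l ∈ S, tm L n v t l z + TF z := by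
    intro z
    unfold TT
    rw [← (summable_tm L n v t z).sum_add_tsum_compl (s := S)]
  have hdf : ∀ z, df L p q n v t z = q ^ n * TF z +
      (q ^ n * ∑ l ∈ S, gg n (v + (starRingEnd ℂ) t + (starRingEnd ℂ) l) (z + t + l) -
        evz L p q (v + (starRingEnd ℂ) t) (z + t) (Pp L p n)) +
      (q ^ n * ∑ l ∈ S, gg n (v - (starRingEnd ℂ) t + (starRingEnd ℂ) l) (z - t + l) -
        evz L p q (v - (starRingEnd ℂ) t) (z - t) (Pp L p n)) -
      2 * (q ^ n * ∑ l ∈ S, gg n (v + (starRingEnd ℂ) l) (z + l) - evz L p q v z (Pp L p n)) := by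
    intro z
    unfold df
    rw [hTT]
    have e1 : ∑ l ∈ S, tm L n v t l z = ∑ l ∈ S, gg n (v + (starRingEnd ℂ) t + (starRingEnd ℂ) l) (z + t + l) +
        ∑ l ∈ S, gg n (v - (starRingEnd ℂ) t + (starRingEnd ℂ) l) (z - t + l) - 2 * ∑ l ∈ S, gg n (v + (starRingEnd ℂ) l) (z + l) := by
      rw [Finset.mul_sum, ← Finset.sum_add_distrib, ← Finset.sum_sub_distrib]
      refine Finset.sum_congr rfl fun l _ => ?_
      unfold tm
      have f1 : v + (starRingEnd ℂ) l + (starRingEnd ℂ) t = v + (starRingEnd ℂ) t + (starRingEnd ℂ) l := by ring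
      have f2 : z + (l : ℂ) + t = z + t + l := by ring
      have f3 : v + (starRingEnd ℂ) l - (starRingEnd ℂ) t = v - (starRingEnd ℂ) t + (starRingEnd ℂ) l := by ring
      have f4 : z + (l : ℂ) - t = z - t + l := by ring
      rw [f1, f2, f3, f4]
    rw [e1]
    ring
  refine ⟨fun z => q ^ n * TF z + A1 (z + t) + A2 (z - t) - 2 * A0 z, ?_, ?_, ?_⟩
  · have h1 : AnalyticAt ℂ (fun z => A1 (z + t)) z₀ :=
      AnalyticAt.fun_comp (f := fun z : ℂ => z + t) (g := A1) a1 (by fun_prop)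
    have h2 : AnalyticAt ℂ (fun z => A2 (z - t)) z₀ :=
      AnalyticAt.fun_comp (f := fun z : ℂ => z - t) (g := A2) a2 (by fun_prop)
    exact (((analyticAt_const.mul hTFa).add h1).add h2).sub (analyticAt_const.mul a0)
  · have l1 := (tend_sub z₀ t).eventually b1
    have l2 : ∀ᶠ z in 𝓝[≠] z₀, q ^ n * ∑ l ∈ S, gg n (v - (starRingEnd ℂ) t + (starRingEnd ℂ) l) (z - t + l) -
        evz L p q (v - (starRingEnd ℂ) t) (z - t) (Pp L p n) = A2 (z - t) := by
      have h3 := tend_sub z₀ (-t)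
      simp only [← sub_eq_add_neg] at h3
      exact h3.eventually b2
    filter_upwards [l1, l2, b0] with z h1 h2 h3
    rw [hdf z, h1, h2, h3]
  · intro g0 g1 g2
    show _ = q ^ n * TF z₀ + A1 (z₀ + t) + A2 (z₀ - t) - 2 * A0 z₀
    rw [hdf z₀, c1 g1, c2 g2, c0 g0]

lemma TT_add (n : ℕ) (v t z : ℂ) (l : L.lattice) :
    TT L n (v + (starRingEnd ℂ) l) t (z + l) = TT L n v t z := by
  unfold TT
  rw [← (Equiv.addLeft l).tsum_eq (fun k : L.lattice => tm L n v t k z)]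
  refine tsum_congr fun k => ?_
  unfold tm
  rw [Equiv.coe_addLeft]
  have e1 : ((l + k : L.lattice) : ℂ) = l + k := rfl
  rw [e1, map_add, ← add_assoc v, ← add_assoc z]

lemma good_ev (L : PeriodPair) (z t : ℂ) : ∀ᶠ w in 𝓝[≠] z, w ∉ L.lattice ∧ w + t ∉ L.lattice ∧
    w - t ∉ L.lattice := by
  have h1 : ∀ a : ℂ, ∀ᶠ w in 𝓝[≠] a, w ∉ L.lattice := by
    intro a
    have h2 : ((L.lattice : Set ℂ) \ {a})ᶜ ∈ 𝓝 a := L.compl_lattice_sdiff_singleton_mem_nhds a
    filter_upwards [nhdsWithin_le_nhds h2, self_mem_nhdsWithin] with z hz hz' h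
    exact hz ⟨h, hz'⟩
  have h2 := (tend_sub z t).eventually (h1 (z + t))
  have h3 := (tend_sub z (-t)).eventually (h1 (z + -t))
  filter_upwards [h1 z, h2, h3] with w a b c
  exact ⟨a, b, by rwa [sub_eq_add_neg]⟩

lemma df_add {p q : ℂ} (hpq : ∀ l ∈ L.lattice, eta L l = p * l + q * (starRingEnd ℂ) l) (n : ℕ) (v t : ℂ)
    {z : ℂ} (h0 : z ∉ L.lattice) (h1 : z + t ∉ L.lattice) (h2 : z - t ∉ L.lattice)
    (l : L.lattice) : df L p q n (v + (starRingEnd ℂ) l) t (z + l) = df L p q n v t z := by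
  unfold df
  rw [TT_add]
  have e1 : v + (starRingEnd ℂ) l + (starRingEnd ℂ) t = v + (starRingEnd ℂ) t + (starRingEnd ℂ) l := by ring
  have e2 : z + (l : ℂ) + t = z + t + l := by ring
  have e3 : v + (starRingEnd ℂ) l - (starRingEnd ℂ) t = v - (starRingEnd ℂ) t + (starRingEnd ℂ) l := by ring
  have e4 : z + (l : ℂ) - t = z - t + l := by ring
  rw [e1, e2, e3, e4, evz_add L p q hpq h1 l.2, evz_add L p q hpq h2 l.2,
    evz_add L p q hpq h0 l.2]

lemma df_bd (L : PeriodPair) (p q : ℂ) (n : ℕ) : ∃ N, ∀ t z, Bd N (fun v => df L p q n v t z) := by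
  obtain ⟨N, hN⟩ := Bd.evz L p q (Pp L p n)
  refine ⟨max n N, fun t z => ?_⟩
  have h1 : Bd n (fun v => TT L n v t z) := by
    refine Bd.tsum (fun l => ?_) (fun v => summable_tm L n v t z)
    unfold tm
    have i1 := (Bd.gg n (z + l + t)).shift ((starRingEnd ℂ) l + (starRingEnd ℂ) t)
    have i2 := (Bd.gg n (z + l - t)).shift ((starRingEnd ℂ) l - (starRingEnd ℂ) t)
    have i3 := (Bd.gg n (z + (l : ℂ))).shift ((starRingEnd ℂ) l)
    simp only [← add_assoc, ← add_sub_assoc] at i1 i2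
    exact (i1.add i2).sub (i3.cmul 2)
  have h2 := (hN (z + t)).shift ((starRingEnd ℂ) t)
  have h3 := (hN (z - t)).shift (-((starRingEnd ℂ) t))
  simp only [← sub_eq_add_neg] at h3
  have m1 := le_max_left n N
  have m2 := le_max_right n N
  exact ((h1.mono m1).cmul (q ^ n)).sub ((((h2.mono m2).add (h3.mono m2))).sub
    (((hN z).mono m2).cmul 2))

/-- **The identity.** -/
theorem TT_eq {p q : ℂ} (hpq : ∀ l ∈ L.lattice, eta L l = p * l + q * (starRingEnd ℂ) l) (n : ℕ) (t : ℂ) :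
    ∃ C : ℂ, ∀ v z, z ∉ L.lattice → z + t ∉ L.lattice → z - t ∉ L.lattice →
      q ^ n * TT L n v t z = evz L p q (v + (starRingEnd ℂ) t) (z + t) (Pp L p n) +
        evz L p q (v - (starRingEnd ℂ) t) (z - t) (Pp L p n) - 2 * evz L p q v z (Pp L p n) + C := by
  obtain ⟨N, hN⟩ := df_bd L p q n
  set E : ℂ → ℂ → ℂ := fun v => ext (fun z => df L p q n v t z) with hE
  have hEd : ∀ v, Differentiable ℂ (E v) := fun v => ext_diff fun z₀ => by
    obtain ⟨A, a, b, -⟩ := loc hpq n v t z₀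
    exact ⟨A, a, b⟩
  have hEl : ∀ v z, Tendsto (fun w => df L p q n v t w) (𝓝[≠] z) (𝓝 (E v z)) := by
    intro v z
    obtain ⟨A, a, b, -⟩ := loc hpq n v t z
    exact (ext_eq a b).1
  have hEv : ∀ v z, z ∉ L.lattice → z + t ∉ L.lattice → z - t ∉ L.lattice →
      df L p q n v t z = E v z := by
    intro v z h0 h1 h2
    obtain ⟨A, a, b, c⟩ := loc hpq n v t z
    rw [c h0 h1 h2]
    exact (ext_eq a b).2.symm
  have hEb : ∀ z, Bd N (fun v => E v z) := fun z =>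
    Bd.lim (l := 𝓝[≠] z) (Eventually.of_forall fun w => hN t w) (fun v => hEl v z)
  have hEi : ∀ l ∈ L.lattice, ∀ z v, E (v + (starRingEnd ℂ) l) (z + l) = E v z := by
    intro l hl z v
    have h1 := hEl v z
    have h2 := (hEl (v + (starRingEnd ℂ) l) (z + l)).comp (tend_sub z l)
    refine tendsto_nhds_unique h2 (h1.congr' ?_)
    filter_upwards [good_ev L z t] with w hw
    exact (df_add hpq n v t hw.1 hw.2.1 hw.2.2 ⟨l, hl⟩).symm
  -- the coefficients
  set d : ℕ → ℂ → ℂ := fun j z => ∑ k ∈ Finset.range (N + 1), E k z * (lg N k).coeff j with hd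
  have hdd : ∀ j, Differentiable ℂ (d j) := by
    intro j
    have : Differentiable ℂ (fun z => ∑ k ∈ Finset.range (N + 1), E k z * (lg N k).coeff j) :=
      Differentiable.fun_sum fun k _ => (hEd k).mul_const _
    exact this
  have hsum : ∀ z v, ∑ j ∈ Finset.range (N + 1), d j z * v ^ j = E v z := by
    intro z v
    rw [(hEb z).lag v]
    simp only [hd, Finset.sum_mul]
    rw [Finset.sum_comm]
    refine Finset.sum_congr rfl fun k hk => ?_
    rw [Polynomial.eval_eq_sum_range' (Nat.lt_succ_of_le (lg_deg hk)), Finset.mul_sum]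
    refine Finset.sum_congr rfl fun j _ => ?_
    ring
  obtain ⟨C, hC⟩ := liou L N d hdd (fun l hl z v => by
    rw [hsum, hsum]
    exact hEi l hl z v)
  refine ⟨C, fun v z h0 h1 h2 => ?_⟩
  have h3 := hEv v z h0 h1 h2
  rw [← hsum, hC] at h3
  unfold df at h3
  linear_combination h3

end Pool.Agent.TH936.CW
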